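import Mathlib

set_option autoImplicit false

/-!
# Peak sets of permutations and peak polynomials
-/

namespace Pool.Agent.H.MP_8cb80e_co

open Polynomial

/-- The peak set of a permutation `π = π_1 ⋯ π_n`: the indices `1 < i < n` with
`π_{i-1} < π_i > π_{i+1}`.  (Positions are `0`-based in `Fin n`, so `π_i` is `π ⟨i - 1, _⟩`.) -/
def peakSet {n : ℕ} (π : Equiv.Perm (Fin n)) : Finset ℕ :=
  (Finset.range n).filter fun i => ∃ (h1 : 2 ≤ i) (h2 : i < n),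
    π ⟨i - 2, by omega⟩ < π ⟨i - 1, by omega⟩ ∧ π ⟨i, h2⟩ < π ⟨i - 1, by omega⟩

/-- The number of permutations of `{1, …, n}` with peak set `S`. -/
def peakCount (S : Finset ℕ) (n : ℕ) : ℕ :=
  (Finset.univ.filter fun π : Equiv.Perm (Fin n) => peakSet π = S).card

/-- `S` is admissible if it is the peak set of some permutation. -/
def Admissible (S : Finset ℕ) : Prop := ∃ n : ℕ, peakCount S n ≠ 0

/-- `p` is the peak polynomial of `S`: `|P_S(n)| = p(n) 2^(n - |S| - 1)` for all `n ≥ max S`. -/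
def IsPeakPolynomial (S : Finset ℕ) (p : ℚ[X]) : Prop :=
  ∀ n : ℕ, S.sup id ≤ n → (peakCount S n : ℚ) = p.eval (n : ℚ) * 2 ^ (n - S.card - 1)

/-- The family `𝓛`: the sets `{2}`, `{2,4}`, `{3}`, `{3,5}`, the sets whose two largest elements
are `m < m + 3`, and the sets whose three largest elements are `m < m + 3 < m + 5`. -/
def InFamily (S : Finset ℕ) : Prop :=
  S = {2} ∨ S = {2, 4} ∨ S = {3} ∨ S = {3, 5} ∨
  (∃ m, m ∈ S ∧ m + 3 ∈ S ∧ ∀ i ∈ S, i ≤ m ∨ i = m + 3) ∨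
  (∃ m, m ∈ S ∧ m + 3 ∈ S ∧ m + 5 ∈ S ∧ ∀ i ∈ S, i ≤ m ∨ i = m + 3 ∨ i = m + 5)

end Pool.Agent.H.MP_8cb80e_co
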