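import Mathlib
import Pool.Agent.H.MP_8cb80e_co.Defs

set_option autoImplicit false

/-!
# The recursion for the numbers of permutations with a given peak set
-/

namespace Pool.Agent.H.MP_8cb80e_co

open Finset

/-- The peak condition at the (1-based) index `i`. -/
def IsPk {n : ℕ} (π : Equiv.Perm (Fin n)) (i : ℕ) : Prop := ∃ (h1 : 2 ≤ i) (h2 : i < n),
    π ⟨i - 2, by omega⟩ < π ⟨i - 1, by omega⟩ ∧ π ⟨i, h2⟩ < π ⟨i - 1, by omega⟩

lemma mem_peakSet {n : ℕ} {π : Equiv.Perm (Fin n)} {i : ℕ} : i ∈ peakSet π ↔ IsPk π i := by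
  unfold peakSet IsPk
  rw [Finset.mem_filter, Finset.mem_range]
  constructor
  · rintro ⟨_, h⟩; exact h
  · rintro ⟨h1, h2, h⟩; exact ⟨h2, h1, h2, h⟩

lemma IsPk.two_le {n : ℕ} {π : Equiv.Perm (Fin n)} {i : ℕ} (h : IsPk π i) : 2 ≤ i := h.1

lemma IsPk.lt {n : ℕ} {π : Equiv.Perm (Fin n)} {i : ℕ} (h : IsPk π i) : i < n := h.2.1

lemma IsPk.not_succ {n : ℕ} {π : Equiv.Perm (Fin n)} {i : ℕ} (h : IsPk π i) : ¬ IsPk π (i + 1) := by
  rintro ⟨h1', h2', h3', h4'⟩
  obtain ⟨h1, h2, h3, h4⟩ := h
  have e1 : (⟨i + 1 - 2, by omega⟩ : Fin n) = ⟨i - 1, by omega⟩ := Fin.ext (by simp)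
  have e2 : (⟨i + 1 - 1, by omega⟩ : Fin n) = ⟨i, by omega⟩ := Fin.ext (by simp)
  rw [e1, e2] at h3'
  exact absurd (h3'.trans h4) (lt_irrefl _)

section glue

variable {a b : ℕ}

lemma card_compl' (U : Finset (Fin (a + b))) (hU : U.card = a) : Uᶜ.card = b := by
  rw [Finset.card_compl, hU, Fintype.card_fin]; omega

/-- Glue two permutations along a set of values. -/
noncomputable def glueFun (U : Finset (Fin (a + b))) (hU : U.card = a) (σ : Equiv.Perm (Fin a))
    (τ : Equiv.Perm (Fin b)) : Fin (a + b) → Fin (a + b) :=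
  Fin.append (fun i => U.orderEmbOfFin hU (σ i))
    (fun i => Uᶜ.orderEmbOfFin (card_compl' U hU) (τ i))

lemma glueFun_left (U : Finset (Fin (a + b))) (hU : U.card = a) (σ : Equiv.Perm (Fin a))
    (τ : Equiv.Perm (Fin b)) (i : Fin a) :
    glueFun U hU σ τ (Fin.castAdd b i) = U.orderEmbOfFin hU (σ i) := by
  unfold glueFun; rw [Fin.append_left]

lemma glueFun_right (U : Finset (Fin (a + b))) (hU : U.card = a) (σ : Equiv.Perm (Fin a))
    (τ : Equiv.Perm (Fin b)) (i : Fin b) :
    glueFun U hU σ τ (Fin.natAdd a i) = Uᶜ.orderEmbOfFin (card_compl' U hU) (τ i) := by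
  unfold glueFun; rw [Fin.append_right]

lemma glueFun_injective (U : Finset (Fin (a + b))) (hU : U.card = a) (σ : Equiv.Perm (Fin a))
    (τ : Equiv.Perm (Fin b)) : Function.Injective (glueFun U hU σ τ) := by
  intro x y hxy
  induction x using Fin.addCases with
  | left x =>
    induction y using Fin.addCases with
    | left y =>
      rw [glueFun_left, glueFun_left] at hxy
      rw [σ.injective ((U.orderEmbOfFin hU).injective hxy)]
    | right y =>
      exfalso
      rw [glueFun_left, glueFun_right] at hxy
      have h1 := Finset.orderEmbOfFin_mem U hU (σ x)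
      have h2 := Finset.orderEmbOfFin_mem Uᶜ (card_compl' U hU) (τ y)
      rw [← hxy] at h2
      exact (Finset.mem_compl.mp h2) h1
  | right x =>
    induction y using Fin.addCases with
    | left y =>
      exfalso
      rw [glueFun_left, glueFun_right] at hxy
      have h1 := Finset.orderEmbOfFin_mem U hU (σ y)
      have h2 := Finset.orderEmbOfFin_mem Uᶜ (card_compl' U hU) (τ x)
      rw [hxy] at h2
      exact (Finset.mem_compl.mp h2) h1
    | right y =>
      rw [glueFun_right, glueFun_right] at hxy
      rw [τ.injective ((Uᶜ.orderEmbOfFin (card_compl' U hU)).injective hxy)]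

/-- The glued permutation. -/
noncomputable def glue (x : {U : Finset (Fin (a + b)) // U.card = a} × Equiv.Perm (Fin a) ×
    Equiv.Perm (Fin b)) : Equiv.Perm (Fin (a + b)) :=
  Equiv.ofBijective (glueFun x.1.1 x.1.2 x.2.1 x.2.2)
    (Finite.injective_iff_bijective.mp (glueFun_injective _ _ _ _))

lemma glue_left (x : {U : Finset (Fin (a + b)) // U.card = a} × Equiv.Perm (Fin a) ×
    Equiv.Perm (Fin b)) (i : Fin a) :
    glue x (Fin.castAdd b i) = x.1.1.orderEmbOfFin x.1.2 (x.2.1 i) := glueFun_left _ _ _ _ i

lemma glue_right (x : {U : Finset (Fin (a + b)) // U.card = a} × Equiv.Perm (Fin a) ×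
    Equiv.Perm (Fin b)) (i : Fin b) :
    glue x (Fin.natAdd a i) = x.1.1ᶜ.orderEmbOfFin (card_compl' _ x.1.2) (x.2.2 i) :=
  glueFun_right _ _ _ _ i

lemma glue_injective : Function.Injective (glue (a := a) (b := b)) := by
  rintro ⟨⟨U, hU⟩, σ, τ⟩ ⟨⟨U', hU'⟩, σ', τ'⟩ h
  have hl : ∀ i, U.orderEmbOfFin hU (σ i) = U'.orderEmbOfFin hU' (σ' i) := by
    intro i
    have h1 := glue_left (⟨⟨U, hU⟩, σ, τ⟩ : {U : Finset (Fin (a + b)) // U.card = a} ×
      Equiv.Perm (Fin a) × Equiv.Perm (Fin b)) i
    have h2 := glue_left (⟨⟨U', hU'⟩, σ', τ'⟩ : {U : Finset (Fin (a + b)) // U.card = a} ×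
      Equiv.Perm (Fin a) × Equiv.Perm (Fin b)) i
    rw [← h1, ← h2, h]
  have hUU : U = U' := by
    ext u
    constructor
    · intro hu
      have : u ∈ Set.range (U.orderEmbOfFin hU) := by rw [Finset.range_orderEmbOfFin]; exact hu
      obtain ⟨j, rfl⟩ := this
      have h3 := hl (σ.symm j)
      rw [Equiv.apply_symm_apply] at h3
      rw [h3]
      exact Finset.orderEmbOfFin_mem _ _ _
    · intro hu
      have : u ∈ Set.range (U'.orderEmbOfFin hU') := by rw [Finset.range_orderEmbOfFin]; exact hu
      obtain ⟨j, rfl⟩ := this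
      have h3 := hl (σ'.symm j)
      rw [Equiv.apply_symm_apply] at h3
      rw [← h3]
      exact Finset.orderEmbOfFin_mem _ _ _
  subst hUU
  have hr : ∀ i, Uᶜ.orderEmbOfFin (card_compl' U hU) (τ i) =
      Uᶜ.orderEmbOfFin (card_compl' U hU) (τ' i) := by
    intro i
    have h1 := glue_right (⟨⟨U, hU⟩, σ, τ⟩ : {U : Finset (Fin (a + b)) // U.card = a} ×
      Equiv.Perm (Fin a) × Equiv.Perm (Fin b)) i
    have h2 := glue_right (⟨⟨U, hU'⟩, σ', τ'⟩ : {U : Finset (Fin (a + b)) // U.card = a} ×
      Equiv.Perm (Fin a) × Equiv.Perm (Fin b)) i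
    rw [← h1, ← h2, h]
  have hσ : σ = σ' := by
    ext1 i
    exact (U.orderEmbOfFin hU).injective (hl i)
  have hτ : τ = τ' := by
    ext1 i
    exact (Uᶜ.orderEmbOfFin (card_compl' U hU)).injective (hr i)
  subst hσ; subst hτ; rfl

lemma glue_bijective : Function.Bijective (glue (a := a) (b := b)) := by
  rw [Fintype.bijective_iff_injective_and_card]
  refine ⟨glue_injective, ?_⟩
  rw [Fintype.card_prod, Fintype.card_prod, Fintype.card_perm, Fintype.card_perm,
    Fintype.card_perm, Fintype.card_fin, Fintype.card_fin, Fintype.card_fin,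
    Fintype.card_finset_len, Fintype.card_fin, ← mul_assoc]
  have := Nat.choose_mul_factorial_mul_factorial (Nat.le_add_right a b)
  rwa [Nat.add_sub_cancel_left] at this

lemma isPk_glue_left (x : {U : Finset (Fin (a + b)) // U.card = a} × Equiv.Perm (Fin a) ×
    Equiv.Perm (Fin b)) (i : ℕ) (hi : i < a) : IsPk (glue x) i ↔ IsPk x.2.1 i := by
  unfold IsPk
  constructor
  · rintro ⟨h1, h2, h3, h4⟩
    refine ⟨h1, hi, ?_, ?_⟩
    · have e1 : (⟨i - 2, by omega⟩ : Fin (a + b)) = Fin.castAdd b ⟨i - 2, by omega⟩ := rfl
      have e2 : (⟨i - 1, by omega⟩ : Fin (a + b)) = Fin.castAdd b ⟨i - 1, by omega⟩ := rfl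
      rw [e1, e2, glue_left, glue_left] at h3
      exact (OrderEmbedding.lt_iff_lt _).mp h3
    · have e1 : (⟨i, by omega⟩ : Fin (a + b)) = Fin.castAdd b ⟨i, by omega⟩ := rfl
      have e2 : (⟨i - 1, by omega⟩ : Fin (a + b)) = Fin.castAdd b ⟨i - 1, by omega⟩ := rfl
      rw [e1, e2, glue_left, glue_left] at h4
      exact (OrderEmbedding.lt_iff_lt _).mp h4
  · rintro ⟨h1, h2, h3, h4⟩
    refine ⟨h1, by omega, ?_, ?_⟩
    · have e1 : (⟨i - 2, by omega⟩ : Fin (a + b)) = Fin.castAdd b ⟨i - 2, by omega⟩ := rfl
      have e2 : (⟨i - 1, by omega⟩ : Fin (a + b)) = Fin.castAdd b ⟨i - 1, by omega⟩ := rfl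
      rw [e1, e2, glue_left, glue_left]
      exact (OrderEmbedding.lt_iff_lt _).mpr h3
    · have e1 : (⟨i, by omega⟩ : Fin (a + b)) = Fin.castAdd b ⟨i, by omega⟩ := rfl
      have e2 : (⟨i - 1, by omega⟩ : Fin (a + b)) = Fin.castAdd b ⟨i - 1, by omega⟩ := rfl
      rw [e1, e2, glue_left, glue_left]
      exact (OrderEmbedding.lt_iff_lt _).mpr h4

lemma isPk_glue_right (x : {U : Finset (Fin (a + b)) // U.card = a} × Equiv.Perm (Fin a) ×
    Equiv.Perm (Fin b)) (i : ℕ) (hi : 2 ≤ i) : IsPk (glue x) (a + i) ↔ IsPk x.2.2 i := by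
  unfold IsPk
  constructor
  · rintro ⟨h1, h2, h3, h4⟩
    refine ⟨hi, by omega, ?_, ?_⟩
    · have e1 : (⟨a + i - 2, by omega⟩ : Fin (a + b)) = Fin.natAdd a ⟨i - 2, by omega⟩ :=
        Fin.ext (by simp; omega)
      have e2 : (⟨a + i - 1, by omega⟩ : Fin (a + b)) = Fin.natAdd a ⟨i - 1, by omega⟩ :=
        Fin.ext (by simp; omega)
      rw [e1, e2, glue_right, glue_right] at h3
      exact (OrderEmbedding.lt_iff_lt _).mp h3
    · have e1 : (⟨a + i, by omega⟩ : Fin (a + b)) = Fin.natAdd a ⟨i, by omega⟩ := rfl
      have e2 : (⟨a + i - 1, by omega⟩ : Fin (a + b)) = Fin.natAdd a ⟨i - 1, by omega⟩ :=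
        Fin.ext (by simp; omega)
      rw [e1, e2, glue_right, glue_right] at h4
      exact (OrderEmbedding.lt_iff_lt _).mp h4
  · rintro ⟨h1, h2, h3, h4⟩
    refine ⟨by omega, by omega, ?_, ?_⟩
    · have e1 : (⟨a + i - 2, by omega⟩ : Fin (a + b)) = Fin.natAdd a ⟨i - 2, by omega⟩ :=
        Fin.ext (by simp; omega)
      have e2 : (⟨a + i - 1, by omega⟩ : Fin (a + b)) = Fin.natAdd a ⟨i - 1, by omega⟩ :=
        Fin.ext (by simp; omega)
      rw [e1, e2, glue_right, glue_right]
      exact (OrderEmbedding.lt_iff_lt _).mpr h3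
    · have e1 : (⟨a + i, by omega⟩ : Fin (a + b)) = Fin.natAdd a ⟨i, by omega⟩ := rfl
      have e2 : (⟨a + i - 1, by omega⟩ : Fin (a + b)) = Fin.natAdd a ⟨i - 1, by omega⟩ :=
        Fin.ext (by simp; omega)
      rw [e1, e2, glue_right, glue_right]
      exact (OrderEmbedding.lt_iff_lt _).mpr h4

/-- The recursion of Billey, Burdzy and Sagan. -/
theorem peakCount_rec (S : Finset ℕ) (a b : ℕ) (hS : ∀ i ∈ S, i < a) :
    (a + b).choose a * peakCount S a * peakCount ∅ b =
      peakCount S (a + b) + peakCount (insert a S) (a + b) + peakCount (insert (a + 1) S) (a + b) := by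
  classical
  -- the auxiliary set of permutations
  set A : Finset (Equiv.Perm (Fin (a + b))) := Finset.univ.filter fun π =>
    (∀ i, i < a → (IsPk π i ↔ i ∈ S)) ∧ (∀ i, 2 ≤ i → ¬ IsPk π (a + i)) with hA
  have hcard1 : A.card = (a + b).choose a * peakCount S a * peakCount ∅ b := by
    have h1 : A.card = ((Finset.univ : Finset {U : Finset (Fin (a + b)) // U.card = a}) ×ˢ
        ((Finset.univ.filter fun σ : Equiv.Perm (Fin a) => peakSet σ = S) ×ˢ
          (Finset.univ.filter fun τ : Equiv.Perm (Fin b) => peakSet τ = ∅))).card := by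
      symm
      apply Finset.card_bij (fun x _ => glue x)
      · rintro ⟨U, σ, τ⟩ hx
        rw [Finset.mem_product, Finset.mem_product, Finset.mem_filter, Finset.mem_filter] at hx
        obtain ⟨-, ⟨-, h1⟩, -, h2⟩ := hx
        simp only at h1 h2
        rw [hA, Finset.mem_filter]
        refine ⟨Finset.mem_univ _, fun i hi => ?_, fun i hi => ?_⟩
        · rw [isPk_glue_left _ _ hi, ← mem_peakSet]
          simp only [h1]
        · rw [isPk_glue_right _ _ hi, ← mem_peakSet]
          simp only [h2]
          simp
      · intro x _ y _ hxy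
        exact glue_injective hxy
      · intro π hπ
        rw [hA, Finset.mem_filter] at hπ
        obtain ⟨-, h1, h2⟩ := hπ
        obtain ⟨x, rfl⟩ := glue_bijective.2 π
        refine ⟨x, ?_, rfl⟩
        rw [Finset.mem_product, Finset.mem_product, Finset.mem_filter, Finset.mem_filter]
        refine ⟨Finset.mem_univ _, ⟨Finset.mem_univ _, ?_⟩, Finset.mem_univ _, ?_⟩
        · ext i
          rw [mem_peakSet]
          by_cases hi : i < a
          · rw [← isPk_glue_left _ _ hi]; exact h1 i hi
          · constructor
            · intro h; exact absurd h.lt hi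
            · intro h; exact absurd (hS i h) hi
        · ext i
          rw [mem_peakSet]
          constructor
          · intro h
            exact absurd ((isPk_glue_right x i h.two_le).mpr h) (h2 i h.two_le)
          · intro h; simp at h
    rw [h1, Finset.card_product, Finset.card_product, Finset.card_univ, Fintype.card_finset_len,
      Fintype.card_fin, peakCount, peakCount, mul_assoc]
  have hnot : ∀ π ∈ A, ¬ (IsPk π a ∧ IsPk π (a + 1)) := fun π _ h => h.1.not_succ h.2
  have hsplit : A = (Finset.univ.filter fun π : Equiv.Perm (Fin (a + b)) => peakSet π = S) ∪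
      (Finset.univ.filter fun π : Equiv.Perm (Fin (a + b)) => peakSet π = insert a S) ∪
      (Finset.univ.filter fun π : Equiv.Perm (Fin (a + b)) => peakSet π = insert (a + 1) S) := by
    ext π
    have hmem : ∀ T : Finset ℕ, π ∈ (Finset.univ.filter fun π : Equiv.Perm (Fin (a + b)) =>
        peakSet π = T) ↔ (π ∈ Finset.univ ∧ peakSet π = T) := fun T => Finset.mem_filter
    rw [Finset.mem_union, Finset.mem_union, hmem, hmem, hmem]
    constructor
    · intro hπ
      have hnot' := hnot π hπ
      rw [hA, Finset.mem_filter] at hπ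
      obtain ⟨-, h1, h2⟩ := hπ
      by_cases ha : IsPk π a
      · have ha1 : ¬ IsPk π (a + 1) := fun h => hnot' ⟨ha, h⟩
        left; right
        refine ⟨Finset.mem_univ _, ?_⟩
        ext i
        rw [mem_peakSet, Finset.mem_insert]
        rcases lt_trichotomy i a with hi | hi | hi
        · rw [h1 i hi]
          constructor
          · intro h; exact Or.inr h
          · rintro (h | h)
            · omega
            · exact h
        · subst hi; simp [ha]
        · constructor
          · intro h
            exfalso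
            rcases Nat.lt_or_ge i (a + 2) with h3 | h3
            · have : i = a + 1 := by omega
              rw [this] at h; exact ha1 h
            · obtain ⟨j, rfl⟩ : ∃ j, i = a + j := ⟨i - a, by omega⟩
              exact h2 j (by omega) h
          · rintro (h | h)
            · omega
            · have := hS i h; omega
      · by_cases ha1 : IsPk π (a + 1)
        · right
          refine ⟨Finset.mem_univ _, ?_⟩
          ext i
          rw [mem_peakSet, Finset.mem_insert]
          rcases lt_trichotomy i a with hi | hi | hi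
          · rw [h1 i hi]
            constructor
            · intro h; exact Or.inr h
            · rintro (h | h)
              · omega
              · exact h
          · subst hi
            constructor
            · intro h; exact absurd h ha
            · rintro (h | h)
              · omega
              · have := hS i h; omega
          · constructor
            · intro h
              rcases Nat.lt_or_ge i (a + 2) with h3 | h3
              · left; omega
              · exfalso
                obtain ⟨j, rfl⟩ : ∃ j, i = a + j := ⟨i - a, by omega⟩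
                exact h2 j (by omega) h
            · rintro (h | h)
              · rw [h]; exact ha1
              · have := hS i h; omega
        · left; left
          refine ⟨Finset.mem_univ _, ?_⟩
          ext i
          rw [mem_peakSet]
          rcases lt_trichotomy i a with hi | hi | hi
          · rw [h1 i hi]
          · subst hi
            constructor
            · intro h; exact absurd h ha
            · intro h; have := hS i h; omega
          · constructor
            · intro h
              exfalso
              rcases Nat.lt_or_ge i (a + 2) with h3 | h3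
              · have : i = a + 1 := by omega
                rw [this] at h; exact ha1 h
              · obtain ⟨j, rfl⟩ : ∃ j, i = a + j := ⟨i - a, by omega⟩
                exact h2 j (by omega) h
            · intro h; have := hS i h; omega
    · intro h
      rw [hA, Finset.mem_filter]
      refine ⟨Finset.mem_univ _, fun i hi => ?_, fun i hi hpk => ?_⟩
      · rw [← mem_peakSet]
        rcases h with (⟨-, h⟩ | ⟨-, h⟩) | ⟨-, h⟩
        · rw [h]
        · rw [h, Finset.mem_insert]
          constructor
          · rintro (h' | h')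
            · omega
            · exact h'
          · intro h'; exact Or.inr h'
        · rw [h, Finset.mem_insert]
          constructor
          · rintro (h' | h')
            · omega
            · exact h'
          · intro h'; exact Or.inr h'
      · rw [← mem_peakSet] at hpk
        rcases h with (⟨-, h⟩ | ⟨-, h⟩) | ⟨-, h⟩
        · rw [h] at hpk; have := hS _ hpk; omega
        · rw [h, Finset.mem_insert] at hpk
          rcases hpk with h' | h'
          · omega
          · have := hS _ h'; omega
        · rw [h, Finset.mem_insert] at hpk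
          rcases hpk with h' | h'
          · omega
          · have := hS _ h'; omega
  rw [← hcard1, hsplit, Finset.card_union_of_disjoint, Finset.card_union_of_disjoint]
  · rfl
  · rw [Finset.disjoint_left]
    intro π h1 h2
    rw [Finset.mem_filter] at h1 h2
    have h3 : a ∈ peakSet π := by rw [h2.2]; exact Finset.mem_insert_self _ _
    rw [h1.2] at h3
    have := hS _ h3; omega
  · rw [Finset.disjoint_left]
    intro π h1 h2
    rw [Finset.mem_union, Finset.mem_filter, Finset.mem_filter] at h1
    rw [Finset.mem_filter] at h2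
    have h3 : a + 1 ∈ peakSet π := by rw [h2.2]; exact Finset.mem_insert_self _ _
    rcases h1 with h1 | h1
    · rw [h1.2] at h3
      have := hS _ h3; omega
    · rw [h1.2, Finset.mem_insert] at h3
      rcases h3 with h3 | h3
      · omega
      · have := hS _ h3; omega

end glue

end Pool.Agent.H.MP_8cb80e_co
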