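import Mathlib
import Pool.Agent.H.MP_8cb80e_co.Defs
import Pool.Agent.H.MP_8cb80e_co.Count

set_option autoImplicit false

/-!
# Permutations without peaks
-/

namespace Pool.Agent.H.MP_8cb80e_co

open Finset

section ins

variable {b : ℕ}

/-- Insert the largest value at position `p`. -/
def insFun (p : Fin (b + 1)) (σ : Equiv.Perm (Fin b)) : Fin (b + 1) → Fin (b + 1) :=
  p.insertNth (α := fun _ => Fin (b + 1)) (Fin.last b) (fun i => (σ i).castSucc)

lemma insFun_same (p : Fin (b + 1)) (σ : Equiv.Perm (Fin b)) : insFun p σ p = Fin.last b := by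
  unfold insFun; rw [Fin.insertNth_apply_same]

lemma insFun_succAbove (p : Fin (b + 1)) (σ : Equiv.Perm (Fin b)) (i : Fin b) :
    insFun p σ (p.succAbove i) = (σ i).castSucc := by
  unfold insFun; rw [Fin.insertNth_apply_succAbove]

lemma insFun_injective (p : Fin (b + 1)) (σ : Equiv.Perm (Fin b)) :
    Function.Injective (insFun p σ) := by
  intro x y hxy
  rcases eq_or_ne x p with rfl | hx
  · rcases eq_or_ne y x with rfl | hy
    · rfl
    · obtain ⟨j, rfl⟩ := Fin.exists_succAbove_eq hy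
      rw [insFun_same, insFun_succAbove] at hxy
      exact absurd hxy.symm (Fin.castSucc_lt_last _).ne
  · obtain ⟨i, rfl⟩ := Fin.exists_succAbove_eq hx
    rcases eq_or_ne y p with rfl | hy
    · rw [insFun_same, insFun_succAbove] at hxy
      exact absurd hxy (Fin.castSucc_lt_last _).ne
    · obtain ⟨j, rfl⟩ := Fin.exists_succAbove_eq hy
      rw [insFun_succAbove, insFun_succAbove] at hxy
      rw [σ.injective (Fin.castSucc_injective _ hxy)]

/-- Insert the largest value at position `p`. -/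
noncomputable def ins (x : Fin (b + 1) × Equiv.Perm (Fin b)) : Equiv.Perm (Fin (b + 1)) :=
  Equiv.ofBijective (insFun x.1 x.2) (Finite.injective_iff_bijective.mp (insFun_injective _ _))

lemma ins_same (x : Fin (b + 1) × Equiv.Perm (Fin b)) : ins x x.1 = Fin.last b :=
  insFun_same _ _

lemma ins_succAbove (x : Fin (b + 1) × Equiv.Perm (Fin b)) (i : Fin b) :
    ins x (x.1.succAbove i) = (x.2 i).castSucc := insFun_succAbove _ _ i

lemma ins_injective : Function.Injective (ins (b := b)) := by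
  rintro ⟨p, σ⟩ ⟨p', σ'⟩ h
  have h1 : p = p' := by
    have h2 := ins_same (⟨p, σ⟩ : Fin (b + 1) × Equiv.Perm (Fin b))
    have h3 := ins_same (⟨p', σ'⟩ : Fin (b + 1) × Equiv.Perm (Fin b))
    rw [h] at h2
    exact (ins _).injective (h2.trans h3.symm)
  subst h1
  have h2 : σ = σ' := by
    ext1 i
    have h2 := ins_succAbove (⟨p, σ⟩ : Fin (b + 1) × Equiv.Perm (Fin b)) i
    have h3 := ins_succAbove (⟨p, σ'⟩ : Fin (b + 1) × Equiv.Perm (Fin b)) i
    rw [h] at h2
    exact Fin.castSucc_injective _ (h2.symm.trans h3)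
  rw [h2]

lemma ins_bijective : Function.Bijective (ins (b := b)) := by
  rw [Fintype.bijective_iff_injective_and_card]
  refine ⟨ins_injective, ?_⟩
  rw [Fintype.card_prod, Fintype.card_perm, Fintype.card_perm, Fintype.card_fin, Fintype.card_fin,
    Nat.factorial_succ]

lemma ins_interior (x : Fin (b + 1) × Equiv.Perm (Fin b)) (h0 : x.1 ≠ 0) (h1 : x.1 ≠ Fin.last b) :
    IsPk (ins x) (x.1 + 1) := by
  have h2 : 0 < (x.1 : ℕ) := Nat.pos_of_ne_zero (fun h => h0 (Fin.ext h))
  have h3 : (x.1 : ℕ) < b := by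
    have := x.1.2
    have h4 : (x.1 : ℕ) ≠ b := fun h => h1 (Fin.ext h)
    omega
  refine ⟨by omega, by omega, ?_, ?_⟩
  · have e2 : (⟨(x.1 : ℕ) + 1 - 1, by omega⟩ : Fin (b + 1)) = x.1 := Fin.ext (by simp)
    rw [e2, ins_same]
    apply lt_of_le_of_ne (Fin.le_last _)
    intro h
    have h4 := (ins x).injective (h.trans (ins_same x).symm)
    have := congrArg Fin.val h4
    simp at this
    omega
  · have e2 : (⟨(x.1 : ℕ) + 1 - 1, by omega⟩ : Fin (b + 1)) = x.1 := Fin.ext (by simp)
    rw [e2, ins_same]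
    apply lt_of_le_of_ne (Fin.le_last _)
    intro h
    have h4 := (ins x).injective (h.trans (ins_same x).symm)
    have := congrArg Fin.val h4
    simp at this

lemma ins_zero (σ : Equiv.Perm (Fin b)) (i : ℕ) :
    IsPk (ins (0, σ)) (i + 1) ↔ IsPk σ i := by
  have h0 : ins (0, σ) 0 = Fin.last b := ins_same (0, σ)
  have hs : ∀ j : Fin b, ins (0, σ) j.succ = (σ j).castSucc := by
    intro j
    have := ins_succAbove (0, σ) j
    rwa [Fin.succAbove_zero] at this
  constructor
  · rintro ⟨h1, h2, h3, h4⟩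
    rcases Nat.lt_or_ge i 2 with hi | hi
    · exfalso
      have hi1 : i = 1 := by omega
      subst hi1
      have e1 : (⟨1 + 1 - 2, by omega⟩ : Fin (b + 1)) = 0 := rfl
      rw [e1, h0] at h3
      exact absurd h3 (not_lt.mpr (Fin.le_last _))
    · refine ⟨hi, by omega, ?_, ?_⟩
      · have e1 : (⟨i + 1 - 2, by omega⟩ : Fin (b + 1)) = Fin.succ ⟨i - 2, by omega⟩ :=
          Fin.ext (by simp; omega)
        have e2 : (⟨i + 1 - 1, by omega⟩ : Fin (b + 1)) = Fin.succ ⟨i - 1, by omega⟩ :=
          Fin.ext (by simp; omega)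
        rw [e1, e2, hs, hs] at h3
        exact Fin.castSucc_lt_castSucc_iff.mp h3
      · have e1 : (⟨i + 1, by omega⟩ : Fin (b + 1)) = Fin.succ ⟨i, by omega⟩ := rfl
        have e2 : (⟨i + 1 - 1, by omega⟩ : Fin (b + 1)) = Fin.succ ⟨i - 1, by omega⟩ :=
          Fin.ext (by simp; omega)
        rw [e1, e2, hs, hs] at h4
        exact Fin.castSucc_lt_castSucc_iff.mp h4
  · rintro ⟨h1, h2, h3, h4⟩
    refine ⟨by omega, by omega, ?_, ?_⟩
    · have e1 : (⟨i + 1 - 2, by omega⟩ : Fin (b + 1)) = Fin.succ ⟨i - 2, by omega⟩ :=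
        Fin.ext (by simp; omega)
      have e2 : (⟨i + 1 - 1, by omega⟩ : Fin (b + 1)) = Fin.succ ⟨i - 1, by omega⟩ :=
        Fin.ext (by simp; omega)
      rw [e1, e2, hs, hs]
      exact Fin.castSucc_lt_castSucc_iff.mpr h3
    · have e1 : (⟨i + 1, by omega⟩ : Fin (b + 1)) = Fin.succ ⟨i, by omega⟩ := rfl
      have e2 : (⟨i + 1 - 1, by omega⟩ : Fin (b + 1)) = Fin.succ ⟨i - 1, by omega⟩ :=
        Fin.ext (by simp; omega)
      rw [e1, e2, hs, hs]
      exact Fin.castSucc_lt_castSucc_iff.mpr h4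

lemma ins_last (σ : Equiv.Perm (Fin b)) (i : ℕ) :
    IsPk (ins (Fin.last b, σ)) i ↔ IsPk σ i := by
  have h0 : ins (Fin.last b, σ) (Fin.last b) = Fin.last b := ins_same (Fin.last b, σ)
  have hs : ∀ j : Fin b, ins (Fin.last b, σ) j.castSucc = (σ j).castSucc := by
    intro j
    have := ins_succAbove (Fin.last b, σ) j
    rwa [Fin.succAbove_last] at this
  constructor
  · rintro ⟨h1, h2, h3, h4⟩
    rcases Nat.lt_or_ge i b with hi | hi
    · refine ⟨h1, hi, ?_, ?_⟩
      · have e1 : (⟨i - 2, by omega⟩ : Fin (b + 1)) = Fin.castSucc ⟨i - 2, by omega⟩ := rfl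
        have e2 : (⟨i - 1, by omega⟩ : Fin (b + 1)) = Fin.castSucc ⟨i - 1, by omega⟩ := rfl
        rw [e1, e2, hs, hs] at h3
        exact Fin.castSucc_lt_castSucc_iff.mp h3
      · have e1 : (⟨i, by omega⟩ : Fin (b + 1)) = Fin.castSucc ⟨i, by omega⟩ := rfl
        have e2 : (⟨i - 1, by omega⟩ : Fin (b + 1)) = Fin.castSucc ⟨i - 1, by omega⟩ := rfl
        rw [e1, e2, hs, hs] at h4
        exact Fin.castSucc_lt_castSucc_iff.mp h4
    · exfalso
      have hib : i = b := by omega
      subst hib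
      have e1 : (⟨i, by omega⟩ : Fin (i + 1)) = Fin.last i := rfl
      rw [e1, h0] at h4
      exact absurd h4 (not_lt.mpr (Fin.le_last _))
  · rintro ⟨h1, h2, h3, h4⟩
    refine ⟨h1, by omega, ?_, ?_⟩
    · have e1 : (⟨i - 2, by omega⟩ : Fin (b + 1)) = Fin.castSucc ⟨i - 2, by omega⟩ := rfl
      have e2 : (⟨i - 1, by omega⟩ : Fin (b + 1)) = Fin.castSucc ⟨i - 1, by omega⟩ := rfl
      rw [e1, e2, hs, hs]
      exact Fin.castSucc_lt_castSucc_iff.mpr h3
    · have e1 : (⟨i, by omega⟩ : Fin (b + 1)) = Fin.castSucc ⟨i, by omega⟩ := rfl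
      have e2 : (⟨i - 1, by omega⟩ : Fin (b + 1)) = Fin.castSucc ⟨i - 1, by omega⟩ := rfl
      rw [e1, e2, hs, hs]
      exact Fin.castSucc_lt_castSucc_iff.mpr h4

lemma peakSet_eq_empty_iff {n : ℕ} (π : Equiv.Perm (Fin n)) :
    peakSet π = ∅ ↔ ∀ i, ¬ IsPk π i := by
  constructor
  · intro h i hi
    rw [← mem_peakSet, h] at hi
    simp at hi
  · intro h
    ext i
    rw [mem_peakSet]
    constructor
    · intro hi; exact absurd hi (h i)
    · intro hi; simp at hi

lemma peakCount_empty_succ (hb : 1 ≤ b) : peakCount ∅ (b + 1) = 2 * peakCount ∅ b := by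
  classical
  have h1 : peakCount ∅ (b + 1) = (({0, Fin.last b} : Finset (Fin (b + 1))) ×ˢ
      (Finset.univ.filter fun σ : Equiv.Perm (Fin b) => peakSet σ = ∅)).card := by
    unfold peakCount
    symm
    apply Finset.card_bij (fun x _ => ins x)
    · rintro ⟨p, σ⟩ hx
      rw [Finset.mem_product, Finset.mem_filter] at hx
      obtain ⟨hp, -, hσ⟩ := hx
      simp only [Finset.mem_insert, Finset.mem_singleton] at hp
      simp only at hσ
      rw [peakSet_eq_empty_iff] at hσ
      rw [Finset.mem_filter, peakSet_eq_empty_iff]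
      refine ⟨Finset.mem_univ _, ?_⟩
      rcases hp with rfl | rfl
      · intro i hi
        obtain ⟨j, rfl⟩ : ∃ j, i = j + 1 := ⟨i - 1, by have := hi.two_le; omega⟩
        exact hσ j ((ins_zero σ j).mp hi)
      · intro i hi
        exact hσ i ((ins_last σ i).mp hi)
    · intro x _ y _ hxy
      exact ins_injective hxy
    · intro π hπ
      rw [Finset.mem_filter, peakSet_eq_empty_iff] at hπ
      obtain ⟨⟨p, σ⟩, rfl⟩ := ins_bijective.2 π
      refine ⟨⟨p, σ⟩, ?_, rfl⟩
      rw [Finset.mem_product, Finset.mem_filter, peakSet_eq_empty_iff]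
      have hp : p = 0 ∨ p = Fin.last b := by
        by_contra hcon
        push Not at hcon
        exact hπ.2 _ (ins_interior (p, σ) hcon.1 hcon.2)
      refine ⟨?_, Finset.mem_univ _, ?_⟩
      · simp only [Finset.mem_insert, Finset.mem_singleton]; exact hp
      · intro i hi
        simp only at hi
        rcases hp with rfl | rfl
        · exact hπ.2 _ ((ins_zero σ i).mpr hi)
        · exact hπ.2 _ ((ins_last σ i).mpr hi)
  rw [h1, Finset.card_product, Finset.card_pair]
  · rfl
  · intro h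
    have := congrArg Fin.val h
    simp at this
    omega

end ins

/-- There are `2^(n-1)` permutations of `n ≥ 1` elements without peaks. -/
theorem peakCount_empty (n : ℕ) (hn : 1 ≤ n) : peakCount ∅ n = 2 ^ (n - 1) := by
  induction n, hn using Nat.le_induction with
  | base => decide
  | succ n hn ih =>
    rw [peakCount_empty_succ hn, ih]
    have : n + 1 - 1 = (n - 1) + 1 := by omega
    rw [this, pow_succ, mul_comm]

end Pool.Agent.H.MP_8cb80e_co
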