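import Mathlib
import Pool.Agent.H.MP_8cb80e_co.Defs
import Pool.Agent.H.MP_8cb80e_co.Count
import Pool.Agent.H.MP_8cb80e_co.NoPeak

set_option autoImplicit false

/-!
# Peak polynomials through gap lists
-/

namespace Pool.Agent.H.MP_8cb80e_co

open Finset Polynomial

/-- The set coded by a list of gaps (last gap first). -/
def st : List ℕ → Finset ℕ
  | [] => ∅
  | g :: L => insert (L.sum + g) (st L)

/-- The binomial polynomial. -/
noncomputable def bn (j : ℕ) : ℝ[X] := C ((j.factorial : ℝ)⁻¹) * descPochhammer ℝ j

/-- One step of the recursion. -/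
noncomputable def pkq (p : ℝ[X]) (k : ℕ) : ℕ → ℝ[X]
  | 0 => 0
  | 1 => 0
  | (g + 2) => C (p.eval ((k + g + 1 : ℕ) : ℝ)) * bn (k + g + 1) - 2 * p - pkq p k (g + 1)

/-- The peak polynomial of the set coded by a list of gaps. -/
noncomputable def pk : List ℕ → ℝ[X]
  | [] => 1
  | g :: L => pkq (pk L) L.sum g

lemma bn_eval_nat (j n : ℕ) : (bn j).eval (n : ℝ) = n.choose j := by
  unfold bn
  rw [eval_mul, eval_C, descPochhammer_eval_eq_descFactorial, Nat.descFactorial_eq_factorial_mul_choose]
  push_cast
  rw [← mul_assoc, inv_mul_cancel₀ (by exact_mod_cast Nat.factorial_ne_zero j), one_mul]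

lemma st_le {L : List ℕ} {i : ℕ} (hi : i ∈ st L) : i ≤ L.sum := by
  induction L with
  | nil => simp [st] at hi
  | cons g L ih =>
    simp only [st, Finset.mem_insert] at hi
    rw [List.sum_cons]
    rcases hi with rfl | hi
    · omega
    · have := ih hi; omega

lemma st_card {L : List ℕ} (hL : ∀ g ∈ L, 2 ≤ g) : (st L).card = L.length := by
  induction L with
  | nil => rfl
  | cons g L ih =>
    simp only [st]
    rw [Finset.card_insert_of_notMem, ih (fun x hx => hL x (List.mem_cons_of_mem _ hx)),
      List.length_cons]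
    intro h
    have h1 := st_le h
    have h2 := hL g List.mem_cons_self
    omega

lemma sum_ge {L : List ℕ} (hL : ∀ g ∈ L, 2 ≤ g) : 2 * L.length ≤ L.sum := by
  induction L with
  | nil => simp
  | cons g L ih =>
    rw [List.length_cons, List.sum_cons]
    have h1 := ih (fun x hx => hL x (List.mem_cons_of_mem _ hx))
    have h2 := hL g List.mem_cons_self
    omega

lemma mem_st_sum {L : List ℕ} (hne : L ≠ []) : L.sum ∈ st L := by
  cases L with
  | nil => exact absurd rfl hne
  | cons g L =>
    simp only [st, List.sum_cons, Finset.mem_insert]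
    left; omega

lemma peakCount_insert_succ (L : List ℕ) (n : ℕ) :
    peakCount (insert (L.sum + 1) (st L)) n = 0 := by
  unfold peakCount
  rw [Finset.card_eq_zero, Finset.filter_eq_empty_iff]
  intro π _ h
  have h1 : L.sum + 1 ∈ peakSet π := by rw [h]; exact Finset.mem_insert_self _ _
  rcases eq_or_ne L [] with hL | hL
  · subst hL
    have := (mem_peakSet.mp h1).two_le
    simp at this
  · have h2 : L.sum ∈ peakSet π := by
      rw [h]; exact Finset.mem_insert_of_mem (mem_st_sum hL)
    exact (mem_peakSet.mp h2).not_succ (mem_peakSet.mp h1)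

/-- The numbers of permutations with a given peak set are given by the peak polynomial. -/
theorem peakCount_eq (L : List ℕ) (hL : ∀ g ∈ L, 2 ≤ g) : ∀ n : ℕ, L.sum ≤ n → 1 ≤ n →
    (peakCount (st L) n : ℝ) = (pk L).eval (n : ℝ) * 2 ^ (n - L.length - 1) := by
  induction L with
  | nil =>
    intro n _ hn
    simp only [st, pk, eval_one, one_mul, List.length_nil, Nat.sub_zero]
    rw [peakCount_empty n hn]
    push_cast
    rfl
  | cons g L ih =>
    have hL' : ∀ x ∈ L, 2 ≤ x := fun x hx => hL x (List.mem_cons_of_mem _ hx)
    have hg := hL g List.mem_cons_self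
    have ih' := ih hL'
    have hsum := sum_ge hL'
    set k := L.sum with hk
    have key : ∀ g : ℕ, 1 ≤ g → ∀ n : ℕ, k + g ≤ n →
        (peakCount (insert (k + g) (st L)) n : ℝ) =
          (pkq (pk L) k g).eval (n : ℝ) * 2 ^ (n - L.length - 2) := by
      intro g hg
      induction g, hg using Nat.le_induction with
      | base =>
        intro n _
        rw [hk, peakCount_insert_succ]
        simp [pkq]
      | succ g hg ihg =>
        intro n hn
        obtain ⟨g', rfl⟩ : ∃ g', g = g' + 1 := ⟨g - 1, by omega⟩
        set a := k + (g' + 1) with ha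
        obtain ⟨b, rfl⟩ : ∃ b, n = a + b := ⟨n - a, by omega⟩
        have hb : 1 ≤ b := by omega
        have hrec := peakCount_rec (st L) a b (fun i hi => by have := st_le hi; omega)
        have e1 : k + (g' + 1 + 1) = a + 1 := by omega
        rw [e1]
        have h1 := ih' a (by omega) (by omega)
        have h2 := ih' (a + b) (by omega) (by omega)
        have h3 := ihg (a + b) (by omega)
        have h4 := peakCount_empty b hb
        have h5 : (((a + b).choose a * peakCount (st L) a * peakCount ∅ b : ℕ) : ℝ) =
          ((peakCount (st L) (a + b) + peakCount (insert a (st L)) (a + b) +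
            peakCount (insert (a + 1) (st L)) (a + b) : ℕ) : ℝ) := by rw [hrec]
        rw [h4] at h5
        push_cast at h5
        rw [h1, h2, h3] at h5
        simp only [pkq, eval_sub, eval_mul, eval_C, eval_ofNat]
        have e2 : k + g' + 1 = a := by omega
        rw [e2, bn_eval_nat]
        have e3 : (2 : ℝ) ^ (a - L.length - 1) * 2 ^ (b - 1) = 2 ^ (a + b - L.length - 2) := by
          rw [← pow_add]; congr 1; omega
        have e4 : (2 : ℝ) ^ (a + b - L.length - 1) = 2 * 2 ^ (a + b - L.length - 2) := by
          rw [← pow_succ']; congr 1; omega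
        rw [e4] at h5
        push_cast at h5 ⊢
        rw [← e3] at h5 ⊢
        linear_combination -h5
    intro n hn _
    rw [List.sum_cons] at hn
    have h1 := key g (by omega) n (by omega)
    simp only [st, pk]
    rw [h1]
    congr 2

/-- Two polynomials agreeing at all large integers coincide. -/
lemma eq_of_eval_nat (p q : ℝ[X]) (m : ℕ) (h : ∀ n : ℕ, m ≤ n → p.eval (n : ℝ) = q.eval (n : ℝ)) :
    p = q := by
  apply Polynomial.eq_of_infinite_eval_eq
  apply Set.Infinite.mono (s := (fun n : ℕ => (n : ℝ)) '' Set.Ici m)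
  · rintro _ ⟨n, hn, rfl⟩
    exact h n hn
  · exact (Set.Ici_infinite m).image Nat.cast_injective.injOn

end Pool.Agent.H.MP_8cb80e_co
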