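import Mathlib
import Pool.Agent.H.MP_8cb80e_co.Poly

set_option autoImplicit false

/-!
# The densities attached to peak polynomials
-/

namespace Pool.Agent.H.MP_8cb80e_co

open Finset Polynomial MeasureTheory intervalIntegral

/-- Antiderivative from `0`. -/
noncomputable def Iop (f : ℝ → ℝ) (t : ℝ) : ℝ := ∫ s in (0 : ℝ)..t, f s

/-- Antiderivative to `1`. -/
noncomputable def Jop (f : ℝ → ℝ) (t : ℝ) : ℝ := ∫ s in t..(1 : ℝ), f s

lemma hasDerivAt_Iop {f : ℝ → ℝ} (hf : Continuous f) (t : ℝ) : HasDerivAt (Iop f) (f t) t :=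
  intervalIntegral.integral_hasDerivAt_right (hf.intervalIntegrable _ _)
    (hf.stronglyMeasurableAtFilter _ _) hf.continuousAt

lemma hasDerivAt_Jop {f : ℝ → ℝ} (hf : Continuous f) (t : ℝ) : HasDerivAt (Jop f) (-f t) t :=
  intervalIntegral.integral_hasDerivAt_left (hf.intervalIntegrable _ _)
    (hf.stronglyMeasurableAtFilter _ _) hf.continuousAt

lemma continuous_Iop {f : ℝ → ℝ} (hf : Continuous f) : Continuous (Iop f) :=
  continuous_iff_continuousAt.mpr fun t => (hasDerivAt_Iop hf t).continuousAt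

lemma continuous_Jop {f : ℝ → ℝ} (hf : Continuous f) : Continuous (Jop f) :=
  continuous_iff_continuousAt.mpr fun t => (hasDerivAt_Jop hf t).continuousAt

lemma Iop_zero (f : ℝ → ℝ) : Iop f 0 = 0 := by simp [Iop]

lemma Jop_one (f : ℝ → ℝ) : Jop f 1 = 0 := by simp [Jop]

lemma Iop_add_Jop {f : ℝ → ℝ} (hf : Continuous f) (t : ℝ) :
    Iop f t + Jop f t = ∫ s in (0 : ℝ)..1, f s :=
  intervalIntegral.integral_add_adjacent_intervals (hf.intervalIntegrable _ _)
    (hf.intervalIntegrable _ _)

lemma continuous_Iop_iter {f : ℝ → ℝ} (hf : Continuous f) (n : ℕ) : Continuous (Iop^[n] f) := by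
  induction n with
  | zero => exact hf
  | succ n ih => rw [Function.iterate_succ_apply']; exact continuous_Iop ih

lemma continuous_Jop_iter {f : ℝ → ℝ} (hf : Continuous f) (n : ℕ) : Continuous (Jop^[n] f) := by
  induction n with
  | zero => exact hf
  | succ n ih => rw [Function.iterate_succ_apply']; exact continuous_Jop ih

/-- Reflection exchanges the two antiderivatives. -/
lemma Jop_refl (f : ℝ → ℝ) (t : ℝ) : Jop (fun s => f (1 - s)) t = Iop f (1 - t) := by
  unfold Jop Iop
  have := intervalIntegral.integral_comp_sub_left (a := t) (b := 1) f 1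
  rw [this]; simp

lemma Jop_iter_refl {f : ℝ → ℝ} (hsym : ∀ t, f (1 - t) = f t) (n : ℕ) (t : ℝ) :
    (Jop^[n] f) t = (Iop^[n] f) (1 - t) := by
  induction n generalizing t with
  | zero => exact (hsym t).symm
  | succ n ih =>
    rw [Function.iterate_succ_apply', Function.iterate_succ_apply', ← Jop_refl]
    unfold Jop
    congr 1
    funext s
    exact ih s

lemma integral_refl (f : ℝ → ℝ) : ∫ s in (0 : ℝ)..1, f (1 - s) = ∫ s in (0 : ℝ)..1, f s := by
  have := intervalIntegral.integral_comp_sub_left (a := 0) (b := 1) f 1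
  rw [this]; simp

/-- One step: the density of the set with a new largest element. -/
noncomputable def Wop (g : ℕ) (f : ℝ → ℝ) : ℝ → ℝ :=
  Jop (fun u => (Iop^[g - 1] f) u - (Jop^[g - 1] f) u)

/-- The density attached to a list of gaps. -/
noncomputable def om : List ℕ → ℝ → ℝ
  | [] => fun _ => 1
  | g :: L => Wop g (om L)

lemma continuous_Wop {f : ℝ → ℝ} (hf : Continuous f) (g : ℕ) : Continuous (Wop g f) :=
  continuous_Jop ((continuous_Iop_iter hf _).sub (continuous_Jop_iter hf _))

lemma continuous_om (L : List ℕ) : Continuous (om L) := by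
  induction L with
  | nil => exact continuous_const
  | cons g L ih => exact continuous_Wop ih g

lemma Wop_sym {f : ℝ → ℝ} (hf : Continuous f) (hsym : ∀ t, f (1 - t) = f t) (g : ℕ) (t : ℝ) :
    Wop g f (1 - t) = Wop g f t := by
  set φ : ℝ → ℝ := fun u => (Iop^[g - 1] f) u - (Jop^[g - 1] f) u with hφ
  have hφc : Continuous φ := (continuous_Iop_iter hf _).sub (continuous_Jop_iter hf _)
  have hanti : ∀ u, φ (1 - u) = - φ u := by
    intro u
    simp only [hφ]
    rw [Jop_iter_refl hsym, Jop_iter_refl hsym, sub_sub_cancel]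
    ring
  have h0 : ∫ s in (0 : ℝ)..1, φ s = 0 := by
    have h1 := integral_refl φ
    have h2 : ∫ s in (0 : ℝ)..1, φ (1 - s) = - ∫ s in (0 : ℝ)..1, φ s := by
      rw [← intervalIntegral.integral_neg]
      congr 1
      funext s
      exact hanti s
    linarith
  have h1 : Wop g f (1 - t) = ∫ s in (0 : ℝ)..t, φ (1 - s) := by
    have := intervalIntegral.integral_comp_sub_left (a := 0) (b := t) φ 1
    have e0 : Wop g f (1 - t) = ∫ s in (1 - t)..(1 : ℝ), φ s := rfl
    rw [this, e0, sub_zero]
  have h2 : ∫ s in (0 : ℝ)..t, φ (1 - s) = - ∫ s in (0 : ℝ)..t, φ s := by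
    rw [← intervalIntegral.integral_neg]
    congr 1
    funext s
    exact hanti s
  have h3 := Iop_add_Jop hφc t
  have h4 : Wop g f t = Jop φ t := rfl
  rw [h1, h2, h4]
  have h5 : Iop φ t = ∫ s in (0 : ℝ)..t, φ s := rfl
  linarith

lemma om_sym (L : List ℕ) (t : ℝ) : om L (1 - t) = om L t := by
  induction L generalizing t with
  | nil => rfl
  | cons g L ih => exact Wop_sym (continuous_om L) ih g t

lemma Wop_one {f : ℝ → ℝ} : Wop 1 f = fun _ => 0 := by
  funext t
  unfold Wop Jop
  simp

lemma Jop_const_mul (c : ℝ) (f : ℝ → ℝ) (t : ℝ) : Jop (fun s => c * f s) t = c * Jop f t := by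
  unfold Jop; rw [intervalIntegral.integral_const_mul]

/-- The recursion for the one-step densities. -/
lemma Wop_succ {f : ℝ → ℝ} (hf : Continuous f) (g : ℕ) (hg : 1 ≤ g) (t : ℝ) :
    Wop (g + 1) f t = (∫ s in (0 : ℝ)..1, (Iop^[g - 1] f) s) * (1 - t) -
      2 * (Jop^[g + 1] f) t - Jop (Wop g f) t := by
  obtain ⟨j, rfl⟩ : ∃ j, g = j + 1 := ⟨g - 1, by omega⟩
  simp only [Nat.add_sub_cancel]
  have hIc := continuous_Iop_iter hf j
  have hJc := continuous_Jop_iter hf j
  set κ := ∫ s in (0 : ℝ)..1, (Iop^[j] f) s with hκ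
  have h1 : ∀ u, (Iop^[j + 1] f) u = κ - Jop (Iop^[j] f) u := by
    intro u
    rw [Function.iterate_succ_apply', hκ, ← Iop_add_Jop hIc u]; ring
  have h2 : ∀ u, Wop (j + 1) f u = Jop (Iop^[j] f) u - (Jop^[j + 1] f) u := by
    intro u
    rw [Function.iterate_succ_apply']
    have e0 : Wop (j + 1) f u = ∫ s in u..(1 : ℝ), ((Iop^[j] f) s - (Jop^[j] f) s) := rfl
    have e1 : Jop (Iop^[j] f) u = ∫ s in u..(1 : ℝ), (Iop^[j] f) s := rfl
    have e2 : Jop (Jop^[j] f) u = ∫ s in u..(1 : ℝ), (Jop^[j] f) s := rfl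
    rw [e0, e1, e2,
      intervalIntegral.integral_sub (hIc.intervalIntegrable _ _) (hJc.intervalIntegrable _ _)]
  have h3 : Wop (j + 1 + 1) f t = ∫ s in t..(1 : ℝ),
      (κ - 2 * (Jop^[j + 1] f) s - Wop (j + 1) f s) := by
    have e0 : Wop (j + 1 + 1) f t = ∫ s in t..(1 : ℝ), ((Iop^[j + 1] f) s - (Jop^[j + 1] f) s) := rfl
    rw [e0]
    congr 1
    funext s
    rw [h2, h1]
    ring
  rw [h3]
  have hJc1 := continuous_Jop_iter hf (j + 1)
  have hWc := continuous_Wop hf (j + 1)
  rw [intervalIntegral.integral_sub, intervalIntegral.integral_sub,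
    intervalIntegral.integral_const, intervalIntegral.integral_const_mul, smul_eq_mul]
  · rw [Function.iterate_succ_apply' Jop (j + 1) f]
    unfold Jop
    ring
  · exact continuous_const.intervalIntegrable _ _
  · exact (hJc1.const_mul 2).intervalIntegrable _ _
  · exact (continuous_const.sub (hJc1.const_mul 2)).intervalIntegrable _ _
  · exact hWc.intervalIntegrable _ _

/-- The moment functional. -/
noncomputable def lam (x : ℝ) (f : ℝ → ℝ) : ℝ := ∫ t in (0 : ℝ)..1, t ^ x * f t

lemma lam_integrable {x : ℝ} (hx : -1 < x) {f : ℝ → ℝ} (hf : Continuous f) :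
    IntervalIntegrable (fun t : ℝ => t ^ x * f t) volume 0 1 :=
  (intervalIntegral.intervalIntegrable_rpow' hx).mul_continuousOn hf.continuousOn

lemma lam_Jop {x : ℝ} (hx : 0 < x) {f : ℝ → ℝ} (hf : Continuous f) :
    x * lam (x - 1) (Jop f) = lam x f := by
  have h1 : ∫ t in (0 : ℝ)..1, (x * t ^ (x - 1) * Jop f t + t ^ x * (- f t)) =
      (1 : ℝ) ^ x * Jop f 1 - (0 : ℝ) ^ x * Jop f 0 := by
    apply intervalIntegral.integral_eq_sub_of_hasDerivAt_of_le (f := fun t : ℝ => t ^ x * Jop f t)
      zero_le_one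
    · exact ((Real.continuous_rpow_const hx.le).mul (continuous_Jop hf)).continuousOn
    · intro t ht
      have h1 : HasDerivAt (fun t : ℝ => t ^ x) (x * t ^ (x - 1)) t :=
        Real.hasDerivAt_rpow_const (Or.inl ht.1.ne')
      exact h1.mul (hasDerivAt_Jop hf t)
    · apply IntervalIntegrable.add
      · have := (lam_integrable (x := x - 1) (by linarith) (continuous_Jop hf)).const_mul x
        refine this.congr ?_
        intro t _
        ring
      · exact lam_integrable (by linarith) hf.neg
  rw [Jop_one, Real.zero_rpow hx.ne', mul_zero, zero_mul, sub_zero,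
    intervalIntegral.integral_add] at h1
  · have h2 : ∫ t in (0 : ℝ)..1, x * t ^ (x - 1) * Jop f t = x * lam (x - 1) (Jop f) := by
      unfold lam
      rw [← intervalIntegral.integral_const_mul]
      congr 1
      funext t
      ring
    have h3 : ∫ t in (0 : ℝ)..1, t ^ x * (- f t) = - lam x f := by
      unfold lam
      rw [← intervalIntegral.integral_neg]
      congr 1
      funext t
      ring
    rw [h2, h3] at h1
    linarith
  · have := (lam_integrable (x := x - 1) (by linarith) (continuous_Jop hf)).const_mul x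
    refine this.congr ?_
    intro t _
    ring
  · exact lam_integrable (by linarith) hf.neg

lemma lam_one_sub {z : ℝ} (hz : 0 < z) : lam (z - 1) (fun t => 1 - t) = 1 / (z * (z + 1)) := by
  have h1 : lam (z - 1) (fun t => 1 - t) = (∫ t in (0 : ℝ)..1, t ^ (z - 1)) -
      ∫ t in (0 : ℝ)..1, t ^ z := by
    unfold lam
    rw [← intervalIntegral.integral_sub]
    · apply intervalIntegral.integral_congr_ae
      refine Filter.Eventually.of_forall fun t ht => ?_
      rw [Set.uIoc_of_le zero_le_one] at ht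
      have h2 : t ^ z = t ^ (z - 1) * t := by
        rw [← Real.rpow_add_one ht.1.ne']; ring_nf
      rw [h2]; ring
    · exact intervalIntegral.intervalIntegrable_rpow' (by linarith)
    · exact intervalIntegral.intervalIntegrable_rpow' (by linarith)
  rw [h1, integral_rpow (Or.inl (by linarith)), integral_rpow (Or.inl (by linarith))]
  simp only [Real.one_rpow, sub_add_cancel]
  rw [Real.zero_rpow hz.ne', Real.zero_rpow (by linarith : z + 1 ≠ 0)]
  field_simp
  ring

lemma lam_Jop_iter {f : ℝ → ℝ} (hf : Continuous f) (j : ℕ) :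
    lam j f = j.factorial * ∫ s in (0 : ℝ)..1, (Jop^[j] f) s := by
  have key : ∀ i : ℕ, ∀ h : ℝ → ℝ, Continuous h →
      lam i h = i.factorial * ∫ s in (0 : ℝ)..1, (Jop^[i] h) s := by
    intro i
    induction i with
    | zero =>
      intro h _
      simp [lam]
    | succ i ih =>
      intro h hh
      have h1 := lam_Jop (x := ((i + 1 : ℕ) : ℝ)) (by positivity) hh
      have h2 : (((i + 1 : ℕ) : ℝ) - 1) = (i : ℝ) := by push_cast; ring
      rw [h2, ih (Jop h) (continuous_Jop hh)] at h1
      rw [← h1, Nat.factorial_succ, ← Function.iterate_succ_apply]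
      push_cast
      ring
  exact key j f hf

/-- The value of a falling factorial. -/
noncomputable def ff (n : ℕ) (x : ℝ) : ℝ := (descPochhammer ℝ n).eval x

lemma ff_zero (x : ℝ) : ff 0 x = 1 := by simp [ff]

lemma ff_succ (n : ℕ) (x : ℝ) : ff (n + 1) x = ff n x * (x - n) := by
  unfold ff
  rw [descPochhammer_succ_right, eval_mul, eval_sub, eval_X, eval_natCast]

lemma ff_succ_left (n : ℕ) (x : ℝ) : ff (n + 1) x = x * ff n (x - 1) := by
  unfold ff
  rw [descPochhammer_succ_left, eval_mul, eval_comp, eval_X, eval_sub, eval_X, eval_one]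

lemma ff_pos {n : ℕ} {x : ℝ} (hx : (n : ℝ) - 1 < x) : 0 < ff n x := by
  induction n with
  | zero => rw [ff_zero]; exact one_pos
  | succ n ih =>
    rw [ff_succ]
    push_cast at hx
    exact mul_pos (ih (by linarith)) (by linarith)

lemma bn_eval (j : ℕ) (x : ℝ) : (bn j).eval x = ff j x / j.factorial := by
  unfold bn ff
  rw [eval_mul, eval_C]
  ring

lemma ff_nat (c i : ℕ) (hi : 1 ≤ i) : ff (c + 1) ((c + i : ℕ) : ℝ) * (i - 1).factorial =
    (c + i).factorial := by
  unfold ff
  rw [descPochhammer_eval_eq_descFactorial]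
  have h := Nat.factorial_mul_descFactorial (n := c + i) (k := c + 1) (by omega)
  have h2 : c + i - (c + 1) = i - 1 := by omega
  rw [h2] at h
  rw [mul_comm]
  exact_mod_cast h

/-- The representation property. -/
def Rep (p : ℝ[X]) (c : ℕ) (w : ℝ → ℝ) : Prop :=
  ∀ x : ℝ, (c : ℝ) < x → p.eval x = ff (c + 1) x * lam (x - c - 1) w

lemma rep_iter {p : ℝ[X]} {k : ℕ} {w : ℝ → ℝ} (hw : Continuous w) (h : Rep p k w) (j : ℕ) :
    ∀ x : ℝ, (k : ℝ) + j < x → p.eval x = ff (k + j + 1) x * lam (x - k - j - 1) (Jop^[j] w) := by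
  induction j with
  | zero =>
    intro x hx
    simp only [Nat.cast_zero, add_zero, sub_zero] at hx ⊢
    exact h x hx
  | succ j ih =>
    intro x hx
    push_cast at hx
    rw [ih x (by linarith)]
    have h1 := lam_Jop (x := x - k - j - 1) (by linarith) (continuous_Jop_iter hw j)
    rw [← h1, Function.iterate_succ_apply']
    have e1 : k + (j + 1) + 1 = (k + j + 1) + 1 := by ring
    rw [e1, ff_succ (k + j + 1)]
    push_cast
    have e2 : x - k - (j + 1) - 1 = x - k - j - 1 - 1 := by ring
    rw [e2]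
    ring

lemma rep_value {p : ℝ[X]} {k : ℕ} {w : ℝ → ℝ} (h : Rep p k w) (i : ℕ) (hi : 1 ≤ i) :
    p.eval ((k + i : ℕ) : ℝ) * (i - 1).factorial = (k + i).factorial * lam ((i : ℝ) - 1) w := by
  have h1 := h ((k + i : ℕ) : ℝ) (by push_cast; have : (1 : ℝ) ≤ i := by exact_mod_cast hi
                                     linarith)
  rw [h1, ← ff_nat k i hi]
  have e : ((k + i : ℕ) : ℝ) - k - 1 = (i : ℝ) - 1 := by push_cast; ring
  rw [e]; ring

lemma rep_step {p : ℝ[X]} {k : ℕ} {w : ℝ → ℝ} (hw : Continuous w) (hsym : ∀ t, w (1 - t) = w t)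
    (h : Rep p k w) (g : ℕ) (hg : 1 ≤ g) : Rep (pkq p k g) (k + g) (Wop g w) := by
  induction g, hg using Nat.le_induction with
  | base =>
    intro x _
    rw [Wop_one]
    simp [pkq, lam]
  | succ g hg ih =>
    intro x hx
    obtain ⟨g', rfl⟩ : ∃ g', g = g' + 1 := ⟨g - 1, by omega⟩
    simp only [pkq, eval_sub, eval_mul, eval_C, eval_ofNat]
    push_cast at hx
    set κ := ∫ s in (0 : ℝ)..1, (Iop^[g'] w) s with hκ
    -- decompose the integral
    have hxg : (0 : ℝ) < x - k - g' - 2 := by linarith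
    have hW : lam (x - ((k + (g' + 1 + 1) : ℕ) : ℝ) - 1) (Wop (g' + 1 + 1) w) =
        κ * lam (x - k - g' - 2 - 1) (fun t => 1 - t) - 2 * lam (x - k - g' - 2 - 1)
          (Jop^[g' + 1 + 1] w) - lam (x - k - g' - 2 - 1) (Jop (Wop (g' + 1) w)) := by
      have e1 : x - ((k + (g' + 1 + 1) : ℕ) : ℝ) - 1 = x - k - g' - 2 - 1 := by push_cast; ring
      rw [e1]
      unfold lam
      rw [← intervalIntegral.integral_const_mul, ← intervalIntegral.integral_const_mul,
        ← intervalIntegral.integral_sub, ← intervalIntegral.integral_sub]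
      · congr 1
        funext t
        rw [Wop_succ hw (g' + 1) hg t]
        simp only [Nat.add_sub_cancel]
        ring
      · exact ((lam_integrable (by linarith) (by fun_prop)).const_mul _).sub
          ((lam_integrable (by linarith) (continuous_Jop_iter hw _)).const_mul _)
      · exact lam_integrable (by linarith) (continuous_Jop (continuous_Wop hw _))
      · exact (lam_integrable (by linarith) (by fun_prop)).const_mul _
      · exact (lam_integrable (by linarith) (continuous_Jop_iter hw _)).const_mul _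
    rw [hW, lam_one_sub hxg]
    have hff : ff (k + (g' + 1 + 1) + 1) x =
        ff (k + g' + 1) x * (x - k - g' - 2 + 1) * (x - k - g' - 2) := by
      have e1 : k + (g' + 1 + 1) + 1 = (k + g' + 1) + 1 + 1 := by ring
      rw [e1, ff_succ, ff_succ]
      push_cast
      ring
    -- the first term
    have hκ' : κ * (k + g' + 1).factorial = p.eval ((k + g' + 1 : ℕ) : ℝ) := by
      have h1 := rep_value h (g' + 1) (by omega)
      simp only [Nat.add_sub_cancel] at h1
      have h2 : ((g' + 1 : ℕ) : ℝ) - 1 = g' := by push_cast; ring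
      rw [h2, lam_Jop_iter hw] at h1
      have h3 : ∫ s in (0 : ℝ)..1, (Jop^[g'] w) s = κ := by
        rw [hκ, ← integral_refl (Iop^[g'] w)]
        congr 1
        funext s
        exact Jop_iter_refl hsym g' s
      rw [h3] at h1
      have h4 : (g'.factorial : ℝ) ≠ 0 := by exact_mod_cast Nat.factorial_ne_zero g'
      have h5 : p.eval ((k + (g' + 1) : ℕ) : ℝ) = κ * (k + (g' + 1)).factorial := by
        apply mul_right_cancel₀ h4
        rw [h1]; ring
      rw [← add_assoc] at h5
      exact h5.symm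
    -- the second term
    have h2nd := rep_iter hw h (g' + 1 + 1) x (by push_cast; linarith)
    have e2 : x - k - ((g' + 1 + 1 : ℕ) : ℝ) - 1 = x - k - g' - 2 - 1 := by push_cast; ring
    rw [e2] at h2nd
    -- the third term
    have h3rd := ih x (by push_cast; linarith)
    have h3 := lam_Jop (x := x - k - g' - 2) hxg (continuous_Wop hw (g' + 1))
    have e3 : x - ((k + (g' + 1) : ℕ) : ℝ) - 1 = x - k - g' - 2 := by push_cast; ring
    rw [e3, ← h3] at h3rd
    have hff2 : ff (k + (g' + 1) + 1) x = ff (k + g' + 1) x * (x - k - g' - 2 + 1) := by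
      have e1 : k + (g' + 1) + 1 = (k + g' + 1) + 1 := by ring
      rw [e1, ff_succ]
      push_cast
      ring
    rw [h3rd, h2nd, bn_eval, ← hκ', hff2]
    rw [hff]
    have hne1 : x - k - g' - 2 ≠ 0 := hxg.ne'
    have hne2 : x - k - g' - 2 + 1 ≠ 0 := by linarith
    have hne3 : ((k + g' + 1).factorial : ℝ) ≠ 0 := by
      exact_mod_cast Nat.factorial_ne_zero _
    field_simp

/-- The representation of the peak polynomials. -/
theorem rep_pk (L : List ℕ) (hL : ∀ g ∈ L, 2 ≤ g) : Rep (pk L) L.sum (om L) := by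
  induction L with
  | nil =>
    intro x hx
    simp only [List.sum_nil, Nat.cast_zero] at hx
    simp only [pk, eval_one, List.sum_nil, Nat.cast_zero, sub_zero, om]
    have h1 : lam (x - 1) (fun _ => (1 : ℝ)) = 1 / x := by
      unfold lam
      simp only [mul_one]
      rw [integral_rpow (Or.inl (by linarith))]
      simp only [Real.one_rpow, sub_add_cancel]
      rw [Real.zero_rpow hx.ne', sub_zero]
    rw [h1, ff_succ, ff_zero]
    field_simp
    simp
  | cons g L ih =>
    have hL' : ∀ x ∈ L, 2 ≤ x := fun x hx => hL x (List.mem_cons_of_mem _ hx)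
    have hg := hL g List.mem_cons_self
    have := rep_step (continuous_om L) (om_sym L) (ih hL') g (by omega)
    rw [List.sum_cons, add_comm]
    exact this

end Pool.Agent.H.MP_8cb80e_co
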