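import Mathlib
import Pool.Agent.H.MP_8cb80e_co.Omega

set_option autoImplicit false

/-!
# Structural properties of the densities
-/

namespace Pool.Agent.H.MP_8cb80e_co

open Finset Polynomial MeasureTheory intervalIntegral

/-- A function vanishing at both ends of `[0,1]` with negative second derivative is positive. -/
lemma conc_pos {f f' f'' : ℝ → ℝ} (hc : ContinuousOn f (Set.Icc 0 1))
    (h1 : ∀ t ∈ Set.Ioo (0 : ℝ) 1, HasDerivAt f (f' t) t)
    (h2 : ∀ t ∈ Set.Ioo (0 : ℝ) 1, HasDerivAt f' (f'' t) t)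
    (h3 : ∀ t ∈ Set.Ioo (0 : ℝ) 1, f'' t < 0) (e0 : 0 ≤ f 0) (e1 : 0 ≤ f 1) :
    ∀ t ∈ Set.Ioo (0 : ℝ) 1, 0 < f t := by
  have hconc : StrictConcaveOn ℝ (Set.Icc 0 1) f := by
    apply strictConcaveOn_of_deriv2_neg (convex_Icc 0 1) hc
    intro x hx
    rw [interior_Icc] at hx
    have hev : deriv f =ᶠ[nhds x] f' := by
      filter_upwards [isOpen_Ioo.mem_nhds hx] with y hy
      exact (h1 y hy).deriv
    have : (deriv^[2] f) x = f'' x := by
      simp only [Function.iterate_succ, Function.iterate_zero, Function.comp_apply, id]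
      rw [hev.deriv_eq]
      exact (h2 x hx).deriv
    rw [this]
    exact h3 x hx
  intro t ht
  have key := hconc.2
  have h5 := key (x := 0) (Set.left_mem_Icc.mpr zero_le_one) (y := 1)
    (Set.right_mem_Icc.mpr zero_le_one) zero_ne_one (a := 1 - t) (b := t)
    (by linarith [ht.2]) ht.1 (by ring)
  simp only [smul_eq_mul, mul_zero, mul_one, zero_add] at h5
  have h4 : 0 ≤ (1 - t) * f 0 + t * f 1 :=
    add_nonneg (mul_nonneg (by linarith [ht.2]) e0) (mul_nonneg ht.1.le e1)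
  linarith

lemma conv_neg {f f' f'' : ℝ → ℝ} (hc : ContinuousOn f (Set.Icc 0 1))
    (h1 : ∀ t ∈ Set.Ioo (0 : ℝ) 1, HasDerivAt f (f' t) t)
    (h2 : ∀ t ∈ Set.Ioo (0 : ℝ) 1, HasDerivAt f' (f'' t) t)
    (h3 : ∀ t ∈ Set.Ioo (0 : ℝ) 1, 0 < f'' t) (e0 : f 0 ≤ 0) (e1 : f 1 ≤ 0) :
    ∀ t ∈ Set.Ioo (0 : ℝ) 1, f t < 0 := by
  intro t ht
  have := conc_pos (f := fun t => - f t) (f' := fun t => - f' t) (f'' := fun t => - f'' t) hc.neg
    (fun t ht => (h1 t ht).neg) (fun t ht => (h2 t ht).neg) (fun t ht => by linarith [h3 t ht])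
    (by simpa using e0) (by simpa using e1) t ht
  linarith

/-- The structural properties of our densities. -/
structure Nice (w w' q : ℝ → ℝ) : Prop where
  sym : ∀ t, w (1 - t) = w t
  d1 : ∀ t, HasDerivAt w (w' t) t
  d2 : ∀ t, HasDerivAt w' (-q t) t
  qc : Continuous q
  qnn : ∀ t, 0 ≤ t → t ≤ 1 → 0 ≤ q t
  pos : ∀ t, 0 < t → t < 1 → 0 < w t
  e0 : 0 ≤ w 0

lemma Nice.cont {w w' q : ℝ → ℝ} (h : Nice w w' q) : Continuous w :=
  continuous_iff_continuousAt.mpr fun t => (h.d1 t).continuousAt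

lemma Nice.cont' {w w' q : ℝ → ℝ} (h : Nice w w' q) : Continuous w' :=
  continuous_iff_continuousAt.mpr fun t => (h.d2 t).continuousAt

lemma Nice.e1 {w w' q : ℝ → ℝ} (h : Nice w w' q) : 0 ≤ w 1 := by
  have := h.sym 0
  rw [sub_zero] at this
  rw [this]; exact h.e0

lemma Nice.nonneg {w w' q : ℝ → ℝ} (h : Nice w w' q) (t : ℝ) (h0 : 0 ≤ t) (h1 : t ≤ 1) :
    0 ≤ w t := by
  rcases h0.eq_or_lt with rfl | h0
  · exact h.e0
  · rcases h1.eq_or_lt with rfl | h1
    · exact h.e1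
    · exact (h.pos t h0 h1).le

lemma Iop_iter_nonneg {f : ℝ → ℝ} (h : ∀ t, 0 ≤ t → t ≤ 1 → 0 ≤ f t) (n : ℕ) :
    ∀ t, 0 ≤ t → t ≤ 1 → 0 ≤ (Iop^[n] f) t := by
  induction n with
  | zero => exact h
  | succ n ih =>
    intro t h0 h1
    rw [Function.iterate_succ_apply']
    apply intervalIntegral.integral_nonneg h0
    intro u hu
    exact ih u hu.1 (hu.2.trans h1)

lemma Iop_iter_pos {f : ℝ → ℝ} (hf : Continuous f) (h : ∀ t, 0 < t → t < 1 → 0 < f t) (n : ℕ) :
    ∀ t, 0 < t → t < 1 → 0 < (Iop^[n] f) t := by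
  induction n with
  | zero => exact h
  | succ n ih =>
    intro t h0 h1
    rw [Function.iterate_succ_apply']
    apply intervalIntegral.intervalIntegral_pos_of_pos_on
    · exact (continuous_Iop_iter hf n).intervalIntegrable _ _
    · intro u hu
      exact ih u hu.1 (hu.2.trans h1)
    · exact h0

/-- The second derivative (up to sign) of the one-step density. -/
noncomputable def qop (g : ℕ) (f : ℝ → ℝ) (t : ℝ) : ℝ := (Iop^[g - 2] f) t + (Jop^[g - 2] f) t

lemma Wop_d1 {f : ℝ → ℝ} (hf : Continuous f) (g : ℕ) (t : ℝ) :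
    HasDerivAt (Wop g f) (-((Iop^[g - 1] f) t - (Jop^[g - 1] f) t)) t :=
  hasDerivAt_Jop ((continuous_Iop_iter hf _).sub (continuous_Jop_iter hf _)) t

lemma Wop_d2 {f : ℝ → ℝ} (hf : Continuous f) (g : ℕ) (hg : 2 ≤ g) (t : ℝ) :
    HasDerivAt (fun t => -((Iop^[g - 1] f) t - (Jop^[g - 1] f) t)) (-qop g f t) t := by
  obtain ⟨j, rfl⟩ : ∃ j, g = j + 2 := ⟨g - 2, by omega⟩
  have e1 : j + 2 - 1 = j + 1 := by omega
  have e2 : j + 2 - 2 = j := by omega
  have h1 : HasDerivAt (Iop^[j + 1] f) ((Iop^[j] f) t) t := by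
    rw [Function.iterate_succ_apply']
    exact hasDerivAt_Iop (continuous_Iop_iter hf j) t
  have h2 : HasDerivAt (Jop^[j + 1] f) (-(Jop^[j] f) t) t := by
    rw [Function.iterate_succ_apply']
    exact hasDerivAt_Jop (continuous_Jop_iter hf j) t
  have h3 := (h1.sub h2).neg
  unfold qop
  rw [e1, e2]
  have e3 : -((Iop^[j] f) t + (Jop^[j] f) t) = -((Iop^[j] f) t - -(Jop^[j] f) t) := by ring
  rw [e3]
  exact h3

lemma nice_Wop {w w' q : ℝ → ℝ} (h : Nice w w' q) (g : ℕ) (hg : 2 ≤ g) :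
    Nice (Wop g w) (fun t => -((Iop^[g - 1] w) t - (Jop^[g - 1] w) t)) (qop g w) := by
  have hc := h.cont
  have hJ : ∀ (n : ℕ) (t : ℝ), (Jop^[n] w) t = (Iop^[n] w) (1 - t) := Jop_iter_refl h.sym
  have hqpos : ∀ t, 0 < t → t < 1 → 0 < qop g w t := by
    intro t h0 h1
    unfold qop
    rw [hJ]
    exact add_pos (Iop_iter_pos hc h.pos _ t h0 h1)
      (Iop_iter_pos hc h.pos _ (1 - t) (by linarith) (by linarith))
  have e1 : Wop g w 1 = 0 := Jop_one _
  have e0 : Wop g w 0 = 0 := by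
    have := Wop_sym hc h.sym g 0
    rw [sub_zero, e1] at this
    exact this.symm
  refine ⟨Wop_sym hc h.sym g, Wop_d1 hc g, Wop_d2 hc g hg,
    (continuous_Iop_iter hc _).add (continuous_Jop_iter hc _), ?_, ?_, ?_⟩
  · intro t h0 h1
    unfold qop
    rw [hJ]
    exact add_nonneg (Iop_iter_nonneg h.nonneg _ t h0 h1)
      (Iop_iter_nonneg h.nonneg _ (1 - t) (by linarith) (by linarith))
  · intro t h0 h1
    exact conc_pos (continuous_Wop hc g).continuousOn (fun t _ => Wop_d1 hc g t)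
      (fun t _ => Wop_d2 hc g hg t) (fun t ht => by
        have := hqpos t ht.1 ht.2
        linarith) e0.ge e1.ge t ⟨h0, h1⟩
  · exact e0.ge

lemma nice_one : Nice (fun _ => 1) (fun _ => 0) (fun _ => 0) := by
  refine ⟨fun _ => rfl, fun t => hasDerivAt_const t 1, fun t => ?_, continuous_const,
    fun _ _ _ => le_rfl, fun _ _ _ => one_pos, zero_le_one⟩
  rw [neg_zero]; exact hasDerivAt_const t 0

lemma nice_om (L : List ℕ) (hL : ∀ g ∈ L, 2 ≤ g) : ∃ w' q, Nice (om L) w' q := by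
  induction L with
  | nil => exact ⟨_, _, nice_one⟩
  | cons g L ih =>
    obtain ⟨w', q, h⟩ := ih (fun x hx => hL x (List.mem_cons_of_mem _ hx))
    exact ⟨_, _, nice_Wop h g (hL g List.mem_cons_self)⟩

lemma Wop_zero' {w w' q : ℝ → ℝ} (h : Nice w w' q) (g : ℕ) : Wop g w 0 = 0 := by
  have := Wop_sym h.cont h.sym g 0
  rw [sub_zero] at this
  rw [← this]; exact Jop_one _

lemma Wop_one' (g : ℕ) (w : ℝ → ℝ) : Wop g w 1 = 0 := Jop_one _

/-- Green's identity. -/
lemma green {F F' F'' w w' q : ℝ → ℝ} (hF1 : ∀ t, HasDerivAt F (F' t) t)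
    (hF2 : ∀ t, HasDerivAt F' (F'' t) t) (hF3 : Continuous F'')
    (h1 : ∀ t, HasDerivAt w (w' t) t) (h2 : ∀ t, HasDerivAt w' (-q t) t) (hq : Continuous q)
    (e0 : F 0 = 0) (e1 : F 1 = 0) :
    ∫ t in (0 : ℝ)..1, F'' t * w t = F' 1 * w 1 - F' 0 * w 0 - ∫ t in (0 : ℝ)..1, F t * q t := by
  have cF : Continuous F := continuous_iff_continuousAt.mpr fun t => (hF1 t).continuousAt
  have cw : Continuous w := continuous_iff_continuousAt.mpr fun t => (h1 t).continuousAt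
  have h3 : ∫ t in (0 : ℝ)..1, (F'' t * w t + F t * q t) =
      (F' 1 * w 1 - F 1 * w' 1) - (F' 0 * w 0 - F 0 * w' 0) := by
    apply intervalIntegral.integral_eq_sub_of_hasDerivAt
      (f := fun t => F' t * w t - F t * w' t)
    · intro t _
      have := ((hF2 t).mul (h1 t)).sub ((hF1 t).mul (h2 t))
      refine HasDerivAt.congr_deriv (f := fun t => F' t * w t - F t * w' t) this ?_
      ring
    · exact ((hF3.mul cw).add (cF.mul hq)).intervalIntegrable _ _
  have i1 : IntervalIntegrable (fun t => F'' t * w t) volume 0 1 :=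
    (hF3.mul cw).intervalIntegrable _ _
  have i2 : IntervalIntegrable (fun t => F t * q t) volume 0 1 :=
    (cF.mul hq).intervalIntegrable _ _
  rw [intervalIntegral.integral_add i1 i2] at h3
  rw [e0, e1] at h3
  linarith

/-- The symmetric variable. -/
noncomputable def vv (t : ℝ) : ℝ := t * (1 - t)

lemma continuous_vv : Continuous vv := by unfold vv; fun_prop

lemma vv_nonneg {t : ℝ} (h0 : 0 ≤ t) (h1 : t ≤ 1) : 0 ≤ vv t :=
  mul_nonneg h0 (by linarith)

lemma vv_le (t : ℝ) : vv t ≤ 1 / 4 := by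
  unfold vv; nlinarith [sq_nonneg (t - 1 / 2)]

lemma hasDerivAt_vv (t : ℝ) : HasDerivAt vv (1 - 2 * t) t := by
  have h := (hasDerivAt_id t).mul ((hasDerivAt_id t).const_sub 1)
  simp only [id] at h
  have e : (1 : ℝ) * (1 - t) + t * -1 = 1 - 2 * t := by ring
  rw [e] at h
  exact h

/-- Polynomials in `vv` and their derivatives. -/
lemma hasDerivAt_pv (a b c d t : ℝ) :
    HasDerivAt (fun t => a * vv t + b * vv t ^ 2 + c * vv t ^ 3 + d * vv t ^ 4)
      ((a + 2 * b * vv t + 3 * c * vv t ^ 2 + 4 * d * vv t ^ 3) * (1 - 2 * t)) t := by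
  have h := hasDerivAt_vv t
  have h1 := (((h.const_mul a).add ((h.pow 2).const_mul b)).add ((h.pow 3).const_mul c)).add
    ((h.pow 4).const_mul d)
  refine h1.congr_deriv ?_
  push_cast
  ring

lemma hasDerivAt_pv' (a b c d t : ℝ) :
    HasDerivAt (fun t => (a + 2 * b * vv t + 3 * c * vv t ^ 2 + 4 * d * vv t ^ 3) * (1 - 2 * t))
      (-2 * a + b * (2 - 12 * vv t) + c * (6 * vv t - 30 * vv t ^ 2) +
        d * (12 * vv t ^ 2 - 56 * vv t ^ 3)) t := by
  have h := hasDerivAt_vv t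
  have h1 : HasDerivAt (fun t => a + 2 * b * vv t + 3 * c * vv t ^ 2 + 4 * d * vv t ^ 3)
      ((2 * b + 6 * c * vv t + 12 * d * vv t ^ 2) * (1 - 2 * t)) t := by
    have h1 := (((h.const_mul (2 * b)).const_add a).add ((h.pow 2).const_mul (3 * c))).add
      ((h.pow 3).const_mul (4 * d))
    refine h1.congr_deriv ?_
    push_cast
    ring
  have h2 : HasDerivAt (fun t : ℝ => 1 - 2 * t) (-2) t := by
    have := ((hasDerivAt_id t).const_mul 2).const_sub 1
    simpa using this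
  refine (h1.mul h2).congr_deriv ?_
  have e : (1 - 2 * t) ^ 2 = 1 - 4 * vv t := by unfold vv; ring
  linear_combination (2 * b + 6 * c * vv t + 12 * d * vv t ^ 2) * e

lemma continuous_pv'' (a b c d : ℝ) : Continuous fun t => (-2 * a + b * (2 - 12 * vv t) +
    c * (6 * vv t - 30 * vv t ^ 2) + d * (12 * vv t ^ 2 - 56 * vv t ^ 3)) := by
  have := continuous_vv
  fun_prop

lemma vv_zero : vv 0 = 0 := by simp [vv]

lemma vv_one : vv 1 = 0 := by simp [vv]

/-- Green's identity for polynomials in `vv`. -/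
lemma green_pv (a b c d : ℝ) {w w' q : ℝ → ℝ}
    (h1 : ∀ t, HasDerivAt w (w' t) t) (h2 : ∀ t, HasDerivAt w' (-q t) t) (hq : Continuous q) :
    ∫ t in (0 : ℝ)..1, (-2 * a + b * (2 - 12 * vv t) + c * (6 * vv t - 30 * vv t ^ 2) +
        d * (12 * vv t ^ 2 - 56 * vv t ^ 3)) * w t =
      -a * (w 0 + w 1) - ∫ t in (0 : ℝ)..1, (a * vv t + b * vv t ^ 2 + c * vv t ^ 3 +
        d * vv t ^ 4) * q t := by
  rw [green (hasDerivAt_pv a b c d) (hasDerivAt_pv' a b c d) (continuous_pv'' a b c d) h1 h2 hq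
    (by simp [vv_zero]) (by simp [vv_one])]
  rw [vv_zero, vv_one]
  ring

lemma int_vv_ge {w w' q : ℝ → ℝ} (h : Nice w w' q) :
    (1 / 6) * ∫ t in (0 : ℝ)..1, w t ≤ ∫ t in (0 : ℝ)..1, vv t * w t := by
  have h1 := green_pv 0 (-1 / 12) 0 0 h.d1 h.d2 h.qc
  have cw := h.cont
  have e1 : ∫ t in (0 : ℝ)..1, (-2 * 0 + (-1 / 12) * (2 - 12 * vv t) + 0 * (6 * vv t - 30 * vv t ^ 2)
      + 0 * (12 * vv t ^ 2 - 56 * vv t ^ 3)) * w t =
      (∫ t in (0 : ℝ)..1, vv t * w t) - (1 / 6) * ∫ t in (0 : ℝ)..1, w t := by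
    have i1 : IntervalIntegrable (fun t => vv t * w t) volume 0 1 :=
      (continuous_vv.mul cw).intervalIntegrable _ _
    have i2 : IntervalIntegrable (fun t => (1 / 6) * w t) volume 0 1 :=
      (cw.const_mul _).intervalIntegrable _ _
    rw [← intervalIntegral.integral_const_mul, ← intervalIntegral.integral_sub i1 i2]
    congr 1; funext t; ring
  have e2 : 0 ≤ ∫ t in (0 : ℝ)..1, (1 / 12) * (vv t ^ 2 * q t) := by
    apply intervalIntegral.integral_nonneg zero_le_one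
    intro t ht
    exact mul_nonneg (by norm_num) (mul_nonneg (sq_nonneg _) (h.qnn t ht.1 ht.2))
  have e3 : ∫ t in (0 : ℝ)..1, (0 * vv t + (-1 / 12) * vv t ^ 2 + 0 * vv t ^ 3 + 0 * vv t ^ 4) * q t
      = - ∫ t in (0 : ℝ)..1, (1 / 12) * (vv t ^ 2 * q t) := by
    rw [← intervalIntegral.integral_neg]
    congr 1; funext t; ring
  rw [e1, e3] at h1
  linarith

lemma int_vv_le {w w' q : ℝ → ℝ} (h : Nice w w' q) :
    ∫ t in (0 : ℝ)..1, vv t * w t ≤ (5 / 24) * ∫ t in (0 : ℝ)..1, w t := by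
  have h1 := green_pv (-1 / 48) (1 / 12) 0 0 h.d1 h.d2 h.qc
  have cw := h.cont
  have e1 : ∫ t in (0 : ℝ)..1, (-2 * (-1 / 48) + (1 / 12) * (2 - 12 * vv t) +
      0 * (6 * vv t - 30 * vv t ^ 2) + 0 * (12 * vv t ^ 2 - 56 * vv t ^ 3)) * w t =
      (5 / 24) * (∫ t in (0 : ℝ)..1, w t) - ∫ t in (0 : ℝ)..1, vv t * w t := by
    have i1 : IntervalIntegrable (fun t => vv t * w t) volume 0 1 :=
      (continuous_vv.mul cw).intervalIntegrable _ _
    have i2 : IntervalIntegrable (fun t => (5 / 24) * w t) volume 0 1 :=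
      (cw.const_mul _).intervalIntegrable _ _
    rw [← intervalIntegral.integral_const_mul, ← intervalIntegral.integral_sub i2 i1]
    congr 1; funext t; ring
  have e2 : 0 ≤ ∫ t in (0 : ℝ)..1, (1 / 48) * (vv t * (1 - 4 * vv t) * q t) := by
    apply intervalIntegral.integral_nonneg zero_le_one
    intro t ht
    exact mul_nonneg (by norm_num) (mul_nonneg (mul_nonneg (vv_nonneg ht.1 ht.2)
      (by linarith [vv_le t])) (h.qnn t ht.1 ht.2))
  have e3 : ∫ t in (0 : ℝ)..1, ((-1 / 48) * vv t + (1 / 12) * vv t ^ 2 + 0 * vv t ^ 3 +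
      0 * vv t ^ 4) * q t = - ∫ t in (0 : ℝ)..1, (1 / 48) * (vv t * (1 - 4 * vv t) * q t) := by
    rw [← intervalIntegral.integral_neg]
    congr 1; funext t; ring
  rw [e1, e3] at h1
  have := h.e0
  have := h.e1
  linarith

lemma int_pos {w w' q : ℝ → ℝ} (h : Nice w w' q) : 0 < ∫ t in (0 : ℝ)..1, w t :=
  intervalIntegral.intervalIntegral_pos_of_pos_on (h.cont.intervalIntegrable _ _)
    (fun t ht => h.pos t ht.1 ht.2) zero_lt_one

end Pool.Agent.H.MP_8cb80e_co
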