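import Mathlib
import Pool.Agent.H.MP_8cb80e_co.Nice

set_option autoImplicit false

/-!
# Moments of the densities
-/

namespace Pool.Agent.H.MP_8cb80e_co

open Finset Polynomial MeasureTheory intervalIntegral

/-- The moments with respect to powers of `t (1 - t)`. -/
noncomputable def mo (k : ℕ) (w : ℝ → ℝ) : ℝ := ∫ t in (0 : ℝ)..1, vv t ^ k * w t

lemma mo_int (k : ℕ) {w : ℝ → ℝ} (hw : Continuous w) :
    IntervalIntegrable (fun t => vv t ^ k * w t) volume 0 1 :=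
  ((continuous_vv.pow k).mul hw).intervalIntegrable _ _

lemma mo_zero (w : ℝ → ℝ) : mo 0 w = ∫ t in (0 : ℝ)..1, w t := by
  unfold mo; simp

lemma mo_comb {w : ℝ → ℝ} (hw : Continuous w) (a b c d e : ℝ) :
    ∫ t in (0 : ℝ)..1, (a + b * vv t + c * vv t ^ 2 + d * vv t ^ 3 + e * vv t ^ 4) * w t =
      a * mo 0 w + b * mo 1 w + c * mo 2 w + d * mo 3 w + e * mo 4 w := by
  unfold mo
  simp only [← intervalIntegral.integral_const_mul]
  rw [← intervalIntegral.integral_add ((mo_int 0 hw).const_mul a) ((mo_int 1 hw).const_mul b),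
    ← intervalIntegral.integral_add
      (((mo_int 0 hw).const_mul a).add ((mo_int 1 hw).const_mul b)) ((mo_int 2 hw).const_mul c),
    ← intervalIntegral.integral_add
      ((((mo_int 0 hw).const_mul a).add ((mo_int 1 hw).const_mul b)).add
        ((mo_int 2 hw).const_mul c)) ((mo_int 3 hw).const_mul d),
    ← intervalIntegral.integral_add
      (((((mo_int 0 hw).const_mul a).add ((mo_int 1 hw).const_mul b)).add
        ((mo_int 2 hw).const_mul c)).add ((mo_int 3 hw).const_mul d)) ((mo_int 4 hw).const_mul e)]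
  congr 1
  funext t
  ring

lemma mo_const_mul (k : ℕ) (c : ℝ) (w : ℝ → ℝ) : mo k (fun t => c * w t) = c * mo k w := by
  unfold mo
  rw [← intervalIntegral.integral_const_mul]
  congr 1; funext t; ring

lemma green_mo (a b c d : ℝ) {w w' q : ℝ → ℝ}
    (h1 : ∀ t, HasDerivAt w (w' t) t) (h2 : ∀ t, HasDerivAt w' (-q t) t) (hq : Continuous q) :
    -2 * a * mo 0 w + b * (2 * mo 0 w - 12 * mo 1 w) + c * (6 * mo 1 w - 30 * mo 2 w) +
      d * (12 * mo 2 w - 56 * mo 3 w) =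
      -a * (w 0 + w 1) - (a * mo 1 q + b * mo 2 q + c * mo 3 q + d * mo 4 q) := by
  have h := green_pv a b c d h1 h2 hq
  have cw : Continuous w := continuous_iff_continuousAt.mpr fun t => (h1 t).continuousAt
  have e1 := mo_comb cw (-2 * a + 2 * b) (-12 * b + 6 * c) (-30 * c + 12 * d) (-56 * d) 0
  have e2 := mo_comb hq 0 a b c d
  have e3 : ∫ t in (0 : ℝ)..1, (-2 * a + b * (2 - 12 * vv t) + c * (6 * vv t - 30 * vv t ^ 2) +
        d * (12 * vv t ^ 2 - 56 * vv t ^ 3)) * w t =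
      ∫ t in (0 : ℝ)..1, ((-2 * a + 2 * b) + (-12 * b + 6 * c) * vv t +
        (-30 * c + 12 * d) * vv t ^ 2 + (-56 * d) * vv t ^ 3 + 0 * vv t ^ 4) * w t := by
    congr 1; funext t; ring
  have e4 : ∫ t in (0 : ℝ)..1, (a * vv t + b * vv t ^ 2 + c * vv t ^ 3 + d * vv t ^ 4) * q t =
      ∫ t in (0 : ℝ)..1, (0 + a * vv t + b * vv t ^ 2 + c * vv t ^ 3 + d * vv t ^ 4) * q t := by
    congr 1; funext t; ring
  rw [e3, e1, e4, e2] at h
  linear_combination h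

lemma qop_two (w : ℝ → ℝ) (t : ℝ) : qop 2 w t = 2 * w t := by
  unfold qop
  simp
  ring

lemma W2_green {w w' q : ℝ → ℝ} (h : Nice w w' q) (a b c d : ℝ) :
    -2 * a * mo 0 (Wop 2 w) + b * (2 * mo 0 (Wop 2 w) - 12 * mo 1 (Wop 2 w)) +
      c * (6 * mo 1 (Wop 2 w) - 30 * mo 2 (Wop 2 w)) +
      d * (12 * mo 2 (Wop 2 w) - 56 * mo 3 (Wop 2 w)) =
      -(2 * (a * mo 1 w + b * mo 2 w + c * mo 3 w + d * mo 4 w)) := by
  have hN := nice_Wop h 2 le_rfl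
  have h1 := green_mo a b c d hN.d1 hN.d2 hN.qc
  rw [Wop_zero' h 2, Wop_one' 2 w] at h1
  have e : qop 2 w = fun t => 2 * w t := by funext t; exact qop_two w t
  rw [e] at h1
  simp only [mo_const_mul] at h1
  linear_combination h1

lemma mo0_W2 {w w' q : ℝ → ℝ} (h : Nice w w' q) : mo 0 (Wop 2 w) = mo 1 w := by
  have := W2_green h (-1 / 2) 0 0 0
  linarith

lemma mo1_W2 {w w' q : ℝ → ℝ} (h : Nice w w' q) :
    mo 1 (Wop 2 w) = (mo 1 w + mo 2 w) / 6 := by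
  have := W2_green h (-1 / 12) (-1 / 12) 0 0
  linarith

lemma mo2_W2 {w w' q : ℝ → ℝ} (h : Nice w w' q) :
    mo 2 (Wop 2 w) = (mo 1 w + mo 2 w + 2 * mo 3 w) / 30 := by
  have := W2_green h (-1 / 60) (-1 / 60) (-1 / 30) 0
  linarith

/-- The four totals. -/
lemma tot1 {w w' q : ℝ → ℝ} (h : Nice w w' q) : mo 0 (Wop 2 w) = mo 1 w := mo0_W2 h

lemma tot2 {w w' q : ℝ → ℝ} (h : Nice w w' q) :
    mo 0 (Wop 2 (Wop 2 w)) = (mo 1 w + mo 2 w) / 6 := by
  rw [mo0_W2 (nice_Wop h 2 le_rfl), mo1_W2 h]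

lemma tot3 {w w' q : ℝ → ℝ} (h : Nice w w' q) :
    mo 0 (Wop 2 (Wop 2 (Wop 2 w))) = (3 * mo 1 w + 3 * mo 2 w + mo 3 w) / 90 := by
  rw [tot2 (nice_Wop h 2 le_rfl), mo1_W2 h, mo2_W2 h]
  ring

lemma mo_nonneg {w : ℝ → ℝ} (hw : ∀ t, 0 ≤ t → t ≤ 1 → 0 ≤ w t) (k : ℕ) : 0 ≤ mo k w :=
  intervalIntegral.integral_nonneg zero_le_one fun t ht =>
    mul_nonneg (pow_nonneg (vv_nonneg ht.1 ht.2) k) (hw t ht.1 ht.2)

lemma mo_pos {w : ℝ → ℝ} (hc : Continuous w) (hw : ∀ t, 0 < t → t < 1 → 0 < w t) (k : ℕ) :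
    0 < mo k w :=
  intervalIntegral.intervalIntegral_pos_of_pos_on (mo_int k hc)
    (fun t ht => mul_pos (pow_pos (mul_pos ht.1 (by linarith [ht.2])) k) (hw t ht.1 ht.2))
    zero_lt_one

lemma mo_succ_le {w : ℝ → ℝ} (hc : Continuous w) (hw : ∀ t, 0 ≤ t → t ≤ 1 → 0 ≤ w t) (k : ℕ) :
    mo (k + 1) w ≤ mo k w / 4 := by
  have e : mo k w / 4 = ∫ t in (0 : ℝ)..1, (1 / 4) * (vv t ^ k * w t) := by
    rw [intervalIntegral.integral_const_mul]; unfold mo; ring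
  rw [e]
  apply intervalIntegral.integral_mono_on zero_le_one (mo_int (k + 1) hc)
    ((mo_int k hc).const_mul _)
  intro t ht
  have h1 : 0 ≤ vv t ^ k * w t :=
    mul_nonneg (pow_nonneg (vv_nonneg ht.1 ht.2) k) (hw t ht.1 ht.2)
  have h2 := vv_le t
  have h3 : vv t ^ (k + 1) * w t = vv t * (vv t ^ k * w t) := by ring
  rw [h3]
  exact mul_le_mul_of_nonneg_right (by linarith) h1

lemma mo1_ge {w w' q : ℝ → ℝ} (h : Nice w w' q) : mo 0 w / 6 ≤ mo 1 w := by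
  have := int_vv_ge h
  rw [mo_zero]
  unfold mo
  simp only [pow_one]
  linarith

lemma mo1_le {w w' q : ℝ → ℝ} (h : Nice w w' q) : mo 1 w ≤ 5 / 24 * mo 0 w := by
  have := int_vv_le h
  rw [mo_zero]
  unfold mo
  simp only [pow_one]
  linarith

/-- Cauchy-Schwarz for the moments: `mo 2 w ^ 2 ≤ mo 1 w * mo 3 w`. -/
lemma mo_cs {w : ℝ → ℝ} (hc : Continuous w) (hw : ∀ t, 0 ≤ t → t ≤ 1 → 0 ≤ w t) (x : ℝ) :
    0 ≤ mo 3 w - 2 * x * mo 2 w + x ^ 2 * mo 1 w := by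
  have e := mo_comb hc 0 (x ^ 2) (-2 * x) 1 0
  have h : 0 ≤ ∫ t in (0 : ℝ)..1, (0 + x ^ 2 * vv t + -2 * x * vv t ^ 2 + 1 * vv t ^ 3 +
      0 * vv t ^ 4) * w t := by
    apply intervalIntegral.integral_nonneg zero_le_one
    intro t ht
    have e2 : (0 + x ^ 2 * vv t + -2 * x * vv t ^ 2 + 1 * vv t ^ 3 + 0 * vv t ^ 4) * w t =
        vv t * (vv t - x) ^ 2 * w t := by ring
    rw [e2]
    exact mul_nonneg (mul_nonneg (vv_nonneg ht.1 ht.2) (sq_nonneg _)) (hw t ht.1 ht.2)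
  rw [e] at h
  linarith

end Pool.Agent.H.MP_8cb80e_co
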