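import Mathlib
import Pool.Agent.H.MP_8cb80e_co.Moments

set_option autoImplicit false

/-!
# Values of peak polynomials at integers
-/

namespace Pool.Agent.H.MP_8cb80e_co

open Finset Polynomial MeasureTheory intervalIntegral

lemma bn_eval_lt {j n : ℕ} (h : n < j) : (bn j).eval (n : ℝ) = 0 := by
  rw [bn_eval_nat, Nat.choose_eq_zero_of_lt h, Nat.cast_zero]

lemma ff_nat_zero {n m : ℕ} (h : m < n) : ff n (m : ℝ) = 0 := by
  unfold ff
  rw [descPochhammer_eval_eq_descFactorial, Nat.descFactorial_eq_zero_iff_lt.mpr h, Nat.cast_zero]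

lemma ff_add (n m : ℕ) (x : ℝ) : ff (n + m) x = ff n x * ff m (x - n) := by
  induction m with
  | zero => rw [ff_zero]; simp
  | succ m ih =>
    rw [← add_assoc, ff_succ, ih, ff_succ]
    push_cast
    ring

lemma ff_self (n : ℕ) : ff n (n : ℝ) = n.factorial := by
  unfold ff
  rw [descPochhammer_eval_eq_descFactorial, Nat.descFactorial_self]

lemma lam_zero (w : ℝ → ℝ) : lam 0 w = mo 0 w := by
  unfold lam mo
  simp

lemma lam_nat (i : ℕ) (w : ℝ → ℝ) : lam i w = ∫ t in (0 : ℝ)..1, t ^ i * w t := by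
  unfold lam
  simp only [Real.rpow_natCast]

/-- The value just after the largest element. -/
lemma pk_next (L : List ℕ) (hL : ∀ g ∈ L, 2 ≤ g) :
    (pk L).eval (((L.sum + 1 : ℕ)) : ℝ) = (L.sum + 1).factorial * mo 0 (om L) := by
  have h := rep_value (rep_pk L hL) 1 le_rfl
  rw [Nat.cast_one, sub_self, lam_zero] at h
  simpa using h

/-- The largest element is a root. -/
lemma pk_sum (L : List ℕ) (hL : ∀ g ∈ L, 2 ≤ g) (hne : L ≠ []) :
    (pk L).eval (L.sum : ℝ) = 0 := by
  have h2 : 1 ≤ L.sum := by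
    have := sum_ge hL
    have := List.length_pos_of_ne_nil hne
    omega
  have h := peakCount_eq L hL L.sum le_rfl h2
  have h0 : peakCount (st L) L.sum = 0 := by
    unfold peakCount
    rw [Finset.card_eq_zero, Finset.filter_eq_empty_iff]
    intro π _ h
    have h1 : L.sum ∈ peakSet π := by rw [h]; exact mem_st_sum hne
    exact lt_irrefl _ (mem_peakSet.mp h1).lt
  rw [h0, Nat.cast_zero] at h
  have h3 : (2 : ℝ) ^ (L.sum - L.length - 1) ≠ 0 := by positivity
  exact (mul_eq_zero.mp h.symm).resolve_right h3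

/-- Roots below the last element are inherited. -/
lemma pkq_inherit {p : ℝ[X]} {k n : ℕ} (hn : n ≤ k) (h : p.eval (n : ℝ) = 0) :
    ∀ g, (pkq p k g).eval (n : ℝ) = 0
  | 0 => by simp [pkq]
  | 1 => by simp [pkq]
  | (g + 2) => by
    have ih := pkq_inherit hn h (g + 1)
    simp only [pkq, eval_sub, eval_mul, eval_C, eval_ofNat]
    rw [ih, h, bn_eval_lt (by omega)]
    ring

lemma pk_inherit {g : ℕ} {L : List ℕ} {n : ℕ} (hn : n ≤ L.sum) (h : (pk L).eval (n : ℝ) = 0) :
    (pk (g :: L)).eval (n : ℝ) = 0 := pkq_inherit hn h g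

/-- Values strictly between the last two elements. -/
lemma pkq_low (L : List ℕ) (hL : ∀ g ∈ L, 2 ≤ g) : ∀ g j : ℕ, 1 ≤ j → j < g →
    (pkq (pk L) L.sum g).eval (((L.sum + j : ℕ)) : ℝ) = - (pk L).eval (((L.sum + j : ℕ)) : ℝ)
  | 0, j => by intro _ h; omega
  | 1, j => by intro _ h; omega
  | (g + 2), j => by
    intro h1 h2
    simp only [pkq, eval_sub, eval_mul, eval_C, eval_ofNat]
    rcases Nat.lt_or_ge j (g + 1) with h3 | h3
    · rw [pkq_low L hL (g + 1) j h1 h3, bn_eval_lt (by omega)]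
      ring
    · have hj : j = g + 1 := by omega
      subst hj
      have h4 : (pkq (pk L) L.sum (g + 1)).eval (((L.sum + (g + 1) : ℕ)) : ℝ) = 0 := by
        rcases Nat.eq_zero_or_pos g with hg | hg
        · subst hg; simp [pkq]
        · have := pk_sum ((g + 1) :: L) (by
            intro x hx
            rcases List.mem_cons.mp hx with rfl | hx
            · omega
            · exact hL x hx) (by simp)
          rw [List.sum_cons, add_comm (g + 1)] at this
          exact this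
      rw [h4, ← add_assoc, bn_eval_nat, Nat.choose_self]
      push_cast
      ring

lemma pk_low {g : ℕ} {L : List ℕ} (hL : ∀ g ∈ L, 2 ≤ g) {j : ℕ} (h1 : 1 ≤ j) (h2 : j < g) :
    (pk (g :: L)).eval (((L.sum + j : ℕ)) : ℝ) = - (pk L).eval (((L.sum + j : ℕ)) : ℝ) :=
  pkq_low L hL g j h1 h2

/-- Adding a gap of two. -/
lemma tail (L : List ℕ) (hL : ∀ g ∈ L, 2 ≤ g) (x : ℝ) :
    (pk (2 :: L)).eval x = ff (L.sum + 1) x * mo 0 (om L) - 2 * (pk L).eval x := by
  have h : pk (2 :: L) = C ((pk L).eval ((L.sum + 0 + 1 : ℕ) : ℝ)) * bn (L.sum + 0 + 1) -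
      2 * pk L - 0 := rfl
  rw [h]
  simp only [eval_sub, eval_mul, eval_C, eval_ofNat, add_zero, bn_eval, sub_zero]
  rw [pk_next L hL]
  have h3 : ((L.sum + 1).factorial : ℝ) ≠ 0 := by exact_mod_cast Nat.factorial_ne_zero _
  field_simp

lemma tail_low (L : List ℕ) (hL : ∀ g ∈ L, 2 ≤ g) {n : ℕ} (hn : n ≤ L.sum) :
    (pk (2 :: L)).eval (n : ℝ) = -2 * (pk L).eval (n : ℝ) := by
  rw [tail L hL, ff_nat_zero (by omega)]
  ring

lemma tail_next (L : List ℕ) (hL : ∀ g ∈ L, 2 ≤ g) :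
    (pk (2 :: L)).eval (((L.sum + 1 : ℕ)) : ℝ) = -((L.sum + 1).factorial * mo 0 (om L)) := by
  rw [tail L hL, ff_self, pk_next L hL]
  ring

end Pool.Agent.H.MP_8cb80e_co
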