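import Mathlib
import Pool.Agent.H.MP_8cb80e_co.Values

set_option autoImplicit false

/-!
# The Taylor kernels
-/

namespace Pool.Agent.H.MP_8cb80e_co

open Finset Polynomial MeasureTheory intervalIntegral

/-- Generalised binomial coefficients. -/
noncomputable def gb (N : ℕ) (y : ℝ) : ℝ := ff N y / N.factorial

lemma gb_zero (y : ℝ) : gb 0 y = 1 := by simp [gb, ff_zero]

lemma gb_succ_mul (N : ℕ) (y : ℝ) : gb (N + 1) y * (N + 1) = y * gb N (y - 1) := by
  unfold gb
  rw [ff_succ_left, Nat.factorial_succ]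
  have h : (N.factorial : ℝ) ≠ 0 := by exact_mod_cast Nat.factorial_ne_zero N
  have h2 : (N : ℝ) + 1 ≠ 0 := by positivity
  push_cast
  field_simp

lemma gb_pascal (N : ℕ) (y : ℝ) : gb (N + 1) y = gb (N + 1) (y - 1) + gb N (y - 1) := by
  have h1 := gb_succ_mul N y
  have h2 : gb (N + 1) (y - 1) * (N + 1) = gb N (y - 1) * (y - 1 - N) := by
    unfold gb
    rw [ff_succ, Nat.factorial_succ]
    have h : (N.factorial : ℝ) ≠ 0 := by exact_mod_cast Nat.factorial_ne_zero N
    have h2 : (N : ℝ) + 1 ≠ 0 := by positivity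
    push_cast
    field_simp
  have h3 : (N : ℝ) + 1 ≠ 0 := by positivity
  apply mul_right_cancel₀ h3
  linear_combination h1 - h2

/-- The Taylor kernels. -/
noncomputable def Rk : ℕ → ℝ → ℝ → ℝ
  | 0, y, t => (1 - t) ^ y
  | (N + 1), y, t => gb N y * t ^ N - Rk N y t

lemma Rk_cont {y : ℝ} (hy : 0 ≤ y) : ∀ N : ℕ, Continuous (Rk N y)
  | 0 => by
    have : Continuous fun t : ℝ => (1 - t) ^ y :=
      (Real.continuous_rpow_const hy).comp (continuous_const.sub continuous_id)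
    exact this
  | (N + 1) => by
    have h := Rk_cont hy N
    have : Continuous fun t : ℝ => gb N y * t ^ N - Rk N y t :=
      (continuous_const.mul (continuous_id.pow N)).sub h
    exact this

lemma Rk_deriv : ∀ (N : ℕ) (y : ℝ) {t : ℝ}, t < 1 →
    HasDerivAt (Rk (N + 1) y) (y * Rk N (y - 1) t) t
  | 0, y, t => by
    intro ht
    have h1 : HasDerivAt (fun t : ℝ => (1 - t) ^ y) (-1 * y * (1 - t) ^ (y - 1)) t := by
      have := ((hasDerivAt_id t).const_sub 1).rpow_const (p := y) (Or.inl (by simp; linarith))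
      exact this
    have h2 : HasDerivAt (fun t : ℝ => gb 0 y * t ^ 0 - (1 - t) ^ y)
        (0 - (-1 * y * (1 - t) ^ (y - 1))) t := by
      refine HasDerivAt.sub ?_ h1
      simp only [pow_zero, mul_one]
      exact hasDerivAt_const t _
    refine HasDerivAt.congr_deriv (f := Rk 1 y) h2 ?_
    have e : Rk 0 (y - 1) t = (1 - t) ^ (y - 1) := rfl
    rw [e]; ring
  | (N + 1), y, t => by
    intro ht
    have ih := Rk_deriv N y ht
    have h1 : HasDerivAt (fun t : ℝ => gb (N + 1) y * t ^ (N + 1))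
        (gb (N + 1) y * (((N + 1 : ℕ) : ℝ) * t ^ N)) t := by
      have := (hasDerivAt_pow (N + 1) t).const_mul (gb (N + 1) y)
      simpa using this
    have h2 := h1.sub ih
    refine HasDerivAt.congr_deriv (f := Rk (N + 1 + 1) y) h2 ?_
    have e : Rk (N + 1) (y - 1) t = gb N (y - 1) * t ^ N - Rk N (y - 1) t := rfl
    rw [e]
    have h3 := gb_succ_mul N y
    push_cast
    linear_combination t ^ N * h3

lemma Rk_zero_pt : ∀ (N : ℕ) (y : ℝ), Rk (N + 1) y 0 = 0
  | 0, y => by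
    have e : Rk 1 y 0 = gb 0 y * 0 ^ 0 - (1 - 0) ^ y := rfl
    rw [e, gb_zero]; simp
  | (N + 1), y => by
    have e : Rk (N + 1 + 1) y 0 = gb (N + 1) y * 0 ^ (N + 1) - Rk (N + 1) y 0 := rfl
    rw [e, Rk_zero_pt N y]; simp

lemma Rk_one_pt {y : ℝ} (hy : 0 < y) : ∀ N : ℕ, Rk (N + 1) y 1 = gb N (y - 1)
  | 0 => by
    have e : Rk 1 y 1 = gb 0 y * 1 ^ 0 - (1 - 1) ^ y := rfl
    rw [e, gb_zero, gb_zero, sub_self, Real.zero_rpow hy.ne']; simp
  | (N + 1) => by
    have e : Rk (N + 1 + 1) y 1 = gb (N + 1) y * 1 ^ (N + 1) - Rk (N + 1) y 1 := rfl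
    rw [e, Rk_one_pt hy N, gb_pascal]; ring

lemma Rk_nonpos_step {N : ℕ} {y : ℝ} (h : ∀ t, 0 < t → t < 1 → y * Rk N (y - 1) t ≤ 0) :
    ∀ t, 0 < t → t < 1 → Rk (N + 1) y t ≤ 0 := by
  have hanti : AntitoneOn (Rk (N + 1) y) (Set.Ico 0 1) := by
    apply antitoneOn_of_deriv_nonpos (convex_Ico 0 1)
    · intro t ht
      exact (Rk_deriv N y ht.2).continuousAt.continuousWithinAt
    · intro t ht
      rw [interior_Ico] at ht
      exact (Rk_deriv N y ht.2).differentiableAt.differentiableWithinAt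
    · intro t ht
      rw [interior_Ico] at ht
      rw [(Rk_deriv N y ht.2).deriv]
      exact h t ht.1 ht.2
  intro t h0 h1
  have := hanti (Set.left_mem_Ico.mpr one_pos) (Set.mem_Ico.mpr ⟨h0.le, h1⟩) h0.le
  rwa [Rk_zero_pt] at this

lemma Rk_nonneg_step {N : ℕ} {y : ℝ} (h : ∀ t, 0 < t → t < 1 → 0 ≤ y * Rk N (y - 1) t) :
    ∀ t, 0 < t → t < 1 → 0 ≤ Rk (N + 1) y t := by
  have hmono : MonotoneOn (Rk (N + 1) y) (Set.Ico 0 1) := by
    apply monotoneOn_of_deriv_nonneg (convex_Ico 0 1)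
    · intro t ht
      exact (Rk_deriv N y ht.2).continuousAt.continuousWithinAt
    · intro t ht
      rw [interior_Ico] at ht
      exact (Rk_deriv N y ht.2).differentiableAt.differentiableWithinAt
    · intro t ht
      rw [interior_Ico] at ht
      rw [(Rk_deriv N y ht.2).deriv]
      exact h t ht.1 ht.2
  intro t h0 h1
  have := hmono (Set.left_mem_Ico.mpr one_pos) (Set.mem_Ico.mpr ⟨h0.le, h1⟩) h0.le
  rwa [Rk_zero_pt] at this

lemma Rk_one_nonpos {y : ℝ} (hy : y ≤ 0) (t : ℝ) (h0 : 0 < t) (h1 : t < 1) : Rk 1 y t ≤ 0 := by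
  have e : Rk 1 y t = gb 0 y * t ^ 0 - (1 - t) ^ y := rfl
  rw [e, gb_zero]
  have := Real.one_le_rpow_of_pos_of_le_one_of_nonpos (by linarith : 0 < 1 - t)
    (by linarith : 1 - t ≤ 1) hy
  simp
  linarith

/-- The kernels of order `n + 3` are nonpositive for `y = f + n`, `1 ≤ f ≤ 2`. -/
lemma Rk_nonpos_high {f : ℝ} (h1 : 1 ≤ f) (h2 : f ≤ 2) (n : ℕ) :
    ∀ t, 0 < t → t < 1 → Rk (n + 3) (f + n) t ≤ 0 := by
  have s1 : ∀ t, 0 < t → t < 1 → Rk 2 (f - 1) t ≤ 0 := by
    apply Rk_nonpos_step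
    intro t h0 h1'
    exact mul_nonpos_of_nonneg_of_nonpos (by linarith)
      (Rk_one_nonpos (by linarith) t h0 h1')
  induction n with
  | zero =>
    simp only [Nat.cast_zero, add_zero, zero_add]
    apply Rk_nonpos_step
    intro t h0 h1'
    exact mul_nonpos_of_nonneg_of_nonpos (by linarith) (s1 t h0 h1')
  | succ n ih =>
    have e : n + 1 + 3 = (n + 3) + 1 := by ring
    rw [e]
    apply Rk_nonpos_step
    intro t h0 h1'
    have e2 : f + ((n + 1 : ℕ) : ℝ) - 1 = f + n := by push_cast; ring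
    rw [e2]
    exact mul_nonpos_of_nonneg_of_nonpos (by positivity) (ih t h0 h1')

/-- The kernels of order `n + 3` are nonpositive for `y = f + n - 1`, `0 ≤ f ≤ 1`. -/
lemma Rk_nonpos_low {f : ℝ} (h1 : 0 ≤ f) (h2 : f ≤ 1) (n : ℕ) :
    ∀ t, 0 < t → t < 1 → Rk (n + 3) (f + n - 1) t ≤ 0 := by
  have s1 : ∀ t, 0 < t → t < 1 → 0 ≤ Rk 2 (f - 2) t := by
    apply Rk_nonneg_step
    intro t h0 h1'
    exact mul_nonneg_of_nonpos_of_nonpos (by linarith)
      (Rk_one_nonpos (by linarith) t h0 h1')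
  induction n with
  | zero =>
    simp only [Nat.cast_zero, add_zero, zero_add]
    apply Rk_nonpos_step
    intro t h0 h1'
    have e : f - 1 - 1 = f - 2 := by ring
    rw [e]
    exact mul_nonpos_of_nonpos_of_nonneg (by linarith) (s1 t h0 h1')
  | succ n ih =>
    have e : n + 1 + 3 = (n + 3) + 1 := by ring
    rw [e]
    apply Rk_nonpos_step
    intro t h0 h1'
    have e2 : f + ((n + 1 : ℕ) : ℝ) - 1 - 1 = f + n - 1 := by push_cast; ring
    rw [e2]
    refine mul_nonpos_of_nonneg_of_nonpos ?_ (ih t h0 h1')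
    push_cast
    have : (0 : ℝ) ≤ n := Nat.cast_nonneg n
    linarith

/-- The difference identity. -/
lemma Rk_ident : ∀ (N : ℕ) (y : ℝ) {t : ℝ}, t < 1 →
    t * Rk N (y - 1) t - Rk (N + 1) y t = - Rk (N + 1) (y - 1) t
  | 0, y, t => by
    intro ht
    have e0 : Rk 0 (y - 1) t = (1 - t) ^ (y - 1) := rfl
    have e1 : Rk 1 y t = gb 0 y * t ^ 0 - (1 - t) ^ y := rfl
    have e2 : Rk 1 (y - 1) t = gb 0 (y - 1) * t ^ 0 - (1 - t) ^ (y - 1) := rfl
    have e3 : (1 - t) ^ y = (1 - t) ^ (y - 1) * (1 - t) := by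
      rw [← Real.rpow_add_one (by linarith : (1 - t) ≠ 0)]
      ring_nf
    rw [e0, e1, e2, e3, gb_zero, gb_zero]
    ring
  | (N + 1), y, t => by
    intro ht
    have ih := Rk_ident N y ht
    have e0 : Rk (N + 1) (y - 1) t = gb N (y - 1) * t ^ N - Rk N (y - 1) t := rfl
    have e1 : Rk (N + 1 + 1) y t = gb (N + 1) y * t ^ (N + 1) - Rk (N + 1) y t := rfl
    have e2 : Rk (N + 1 + 1) (y - 1) t = gb (N + 1) (y - 1) * t ^ (N + 1) - Rk (N + 1) (y - 1) t :=
      rfl
    have e3 := gb_pascal N y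
    rw [e1, e2, e3]
    linear_combination t * e0 - ih

/-- The upper bound for the kernels. -/
lemma Rk_le {N : ℕ} {y : ℝ} (hy : 0 < y)
    (h : ∀ t, 0 < t → t < 1 → Rk (N + 1) (y - 1) t ≤ 0) :
    ∀ t, 0 < t → t < 1 → Rk (N + 1) y t ≤ gb N (y - 1) * t ^ y := by
  have hd : ∀ t, 0 < t → t < 1 → HasDerivAt (fun t => Rk (N + 1) y t * t ^ (-y))
      (-(y * t ^ (-y - 1) * Rk (N + 1) (y - 1) t)) t := by
    intro t h0 h1
    have h2 := (Rk_deriv N y h1).mul (Real.hasDerivAt_rpow_const (p := -y) (Or.inl h0.ne'))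
    refine HasDerivAt.congr_deriv (f := fun t => Rk (N + 1) y t * t ^ (-y)) h2 ?_
    have e3 : t ^ (-y) = t ^ (-y - 1) * t := by
      rw [← Real.rpow_add_one h0.ne']
      ring_nf
    rw [e3]
    have := Rk_ident N y h1
    linear_combination (y * t ^ (-y - 1)) * this
  have hmono : MonotoneOn (fun t => Rk (N + 1) y t * t ^ (-y)) (Set.Ioc 0 1) := by
    apply monotoneOn_of_deriv_nonneg (convex_Ioc 0 1)
    · apply ContinuousOn.mul (Rk_cont hy.le _).continuousOn
      intro t ht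
      exact (Real.continuousAt_rpow_const t (-y) (Or.inl ht.1.ne')).continuousWithinAt
    · intro t ht
      rw [interior_Ioc] at ht
      exact (hd t ht.1 ht.2).differentiableAt.differentiableWithinAt
    · intro t ht
      rw [interior_Ioc] at ht
      rw [(hd t ht.1 ht.2).deriv]
      have h2 := h t ht.1 ht.2
      have h3 : 0 < y * t ^ (-y - 1) := mul_pos hy (Real.rpow_pos_of_pos ht.1 _)
      nlinarith
  intro t h0 h1
  have h2 := hmono (Set.mem_Ioc.mpr ⟨h0, h1.le⟩) (Set.right_mem_Ioc.mpr one_pos) h1.le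
  simp only [Real.one_rpow, mul_one] at h2
  rw [Rk_one_pt hy] at h2
  have h3 : 0 < t ^ y := Real.rpow_pos_of_pos h0 _
  have h4 : t ^ (-y) * t ^ y = 1 := by
    rw [← Real.rpow_add h0]; simp
  calc Rk (N + 1) y t = Rk (N + 1) y t * t ^ (-y) * t ^ y := by rw [mul_assoc, h4, mul_one]
    _ ≤ gb N (y - 1) * t ^ y := mul_le_mul_of_nonneg_right h2 h3.le

/-- The integrated kernels. -/
noncomputable def KR (N : ℕ) (y : ℝ) (w : ℝ → ℝ) : ℝ := ∫ t in (0 : ℝ)..1, Rk N y t * w t

lemma KR_zero {w : ℝ → ℝ} (hsym : ∀ t, w (1 - t) = w t) (y : ℝ) : KR 0 y w = lam y w := by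
  unfold KR lam
  rw [← integral_refl (fun t => t ^ y * w t)]
  congr 1
  funext t
  rw [hsym t]
  rfl

lemma KR_succ {w : ℝ → ℝ} (hw : Continuous w) {y : ℝ} (hy : 0 ≤ y) (N : ℕ) :
    KR (N + 1) y w = gb N y * lam N w - KR N y w := by
  have i1 : IntervalIntegrable (fun t : ℝ => gb N y * (t ^ N * w t)) volume 0 1 :=
    (continuous_const.mul ((continuous_id.pow N).mul hw)).intervalIntegrable _ _
  have i2 : IntervalIntegrable (fun t : ℝ => Rk N y t * w t) volume 0 1 :=
    ((Rk_cont hy N).mul hw).intervalIntegrable _ _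
  rw [lam_nat]
  unfold KR
  rw [← intervalIntegral.integral_const_mul, ← intervalIntegral.integral_sub i1 i2]
  congr 1
  funext t
  have e : Rk (N + 1) y t = gb N y * t ^ N - Rk N y t := rfl
  rw [e]; ring

/-- The kernel formula for one more gap. -/
lemma pkq_kernel (L : List ℕ) (hL : ∀ g ∈ L, 2 ≤ g) {y : ℝ} (hy : 0 ≤ y) (N : ℕ) :
    (pkq (pk L) L.sum (N + 1)).eval (y + L.sum + 1) =
      ff (L.sum + 1) (y + L.sum + 1) * (KR N y (om L) - lam y (om L)) := by
  induction N with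
  | zero =>
    rw [KR_zero (om_sym L)]
    simp [pkq]
  | succ N ih =>
    have hw := continuous_om L
    have h1 := rep_pk L hL (y + L.sum + 1) (by linarith)
    have e1 : y + L.sum + 1 - L.sum - 1 = y := by ring
    rw [e1] at h1
    have h2 : (pk L).eval ((L.sum + N + 1 : ℕ) : ℝ) * N.factorial =
        (L.sum + N + 1).factorial * lam N (om L) := by
      have h := rep_value (rep_pk L hL) (N + 1) (by omega)
      have e2 : ((N + 1 : ℕ) : ℝ) - 1 = N := by push_cast; ring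
      rw [e2] at h
      exact h
    simp only [pkq, eval_sub, eval_mul, eval_C, eval_ofNat]
    rw [ih, h1, KR_succ hw hy, bn_eval]
    have h3 : ff (L.sum + N + 1) (y + L.sum + 1) =
        ff (L.sum + 1) (y + L.sum + 1) * ff N y := by
      have e3 : L.sum + N + 1 = (L.sum + 1) + N := by ring
      rw [e3, ff_add]
      have e4 : y + (L.sum : ℝ) + 1 - ((L.sum + 1 : ℕ) : ℝ) = y := by push_cast; ring
      rw [e4]
    rw [h3]
    unfold gb
    have hN : (N.factorial : ℝ) ≠ 0 := by exact_mod_cast Nat.factorial_ne_zero N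
    have hM : ((L.sum + N + 1).factorial : ℝ) ≠ 0 := by exact_mod_cast Nat.factorial_ne_zero _
    have h4 : (pk L).eval ((L.sum + N + 1 : ℕ) : ℝ) =
        (L.sum + N + 1).factorial * lam N (om L) / N.factorial := by
      rw [eq_div_iff hN]; exact h2
    rw [h4]
    field_simp
    ring

end Pool.Agent.H.MP_8cb80e_co
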