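import Mathlib
import Pool.Agent.H.MP_8cb80e_co.Kernel

set_option autoImplicit false

/-!
# Estimates for the last big gap
-/

namespace Pool.Agent.H.MP_8cb80e_co

open Finset Polynomial MeasureTheory intervalIntegral

lemma lam_Jop_nat {f : ℝ → ℝ} (hf : Continuous f) (j n : ℕ) :
    lam j (Jop^[n] f) * (j + n).factorial = j.factorial * lam ((j + n : ℕ) : ℝ) f := by
  induction n generalizing f with
  | zero => simp; ring
  | succ n ih =>
    rw [Function.iterate_succ_apply]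
    have h1 := lam_Jop (x := ((j + n + 1 : ℕ) : ℝ)) (by positivity) hf
    have e1 : ((j + n + 1 : ℕ) : ℝ) - 1 = ((j + n : ℕ) : ℝ) := by push_cast; ring
    rw [e1] at h1
    have h2 := ih (continuous_Jop hf)
    have e2 : j + (n + 1) = j + n + 1 := by ring
    rw [e2, Nat.factorial_succ, ← h1]
    push_cast at h2 ⊢
    linear_combination ((j : ℝ) + n + 1) * h2

/-- The total mass of the one-step density. -/
lemma mo0_Wop {w : ℝ → ℝ} (hw : Continuous w) (hsym : ∀ t, w (1 - t) = w t) (m : ℕ) :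
    mo 0 (Wop (m + 1) w) = lam m w / m.factorial -
      2 * lam ((m + 1 : ℕ) : ℝ) w / (m + 1).factorial := by
  set I := Iop^[m] w with hI
  set J := Jop^[m] w with hJ
  have cI : Continuous I := continuous_Iop_iter hw m
  have cJ : Continuous J := continuous_Jop_iter hw m
  have h0 : mo 0 (Wop (m + 1) w) = lam 0 (Jop (fun u => I u - J u)) := by
    rw [lam_zero]; rfl
  have h1 := lam_Jop (x := 1) one_pos (cI.sub cJ)
  rw [sub_self, one_mul] at h1
  have h2 : lam 1 (fun u => I u - J u) = (∫ t in (0 : ℝ)..1, t * I t) -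
      ∫ t in (0 : ℝ)..1, t * J t := by
    have i1 : IntervalIntegrable (fun t => t * I t) volume 0 1 :=
      (continuous_id.mul cI).intervalIntegrable _ _
    have i2 : IntervalIntegrable (fun t => t * J t) volume 0 1 :=
      (continuous_id.mul cJ).intervalIntegrable _ _
    rw [← intervalIntegral.integral_sub i1 i2]
    unfold lam
    congr 1; funext t
    rw [Real.rpow_one]; ring
  have h3 : ∫ t in (0 : ℝ)..1, t * I t = (∫ t in (0 : ℝ)..1, J t) - ∫ t in (0 : ℝ)..1, t * J t := by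
    have i1 : IntervalIntegrable J volume 0 1 := cJ.intervalIntegrable _ _
    have i2 : IntervalIntegrable (fun t => t * J t) volume 0 1 :=
      (continuous_id.mul cJ).intervalIntegrable _ _
    rw [← intervalIntegral.integral_sub i1 i2, ← integral_refl]
    congr 1; funext t
    have : I (1 - t) = J t := by
      rw [hI, hJ, Jop_iter_refl hsym]
    rw [this]; ring
  have h4 : ∫ t in (0 : ℝ)..1, J t = lam ((0 : ℕ) : ℝ) J := by
    rw [Nat.cast_zero, lam_zero, mo_zero]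
  have h5 : ∫ t in (0 : ℝ)..1, t * J t = lam ((1 : ℕ) : ℝ) J := by
    unfold lam
    simp only [Nat.cast_one, Real.rpow_one]
  have h6 := lam_Jop_nat hw 0 m
  have h7 := lam_Jop_nat hw 1 m
  rw [Nat.zero_add, Nat.factorial_zero, Nat.cast_one, one_mul] at h6
  rw [Nat.add_comm 1 m, Nat.factorial_one, Nat.cast_one, one_mul] at h7
  have hm : (m.factorial : ℝ) ≠ 0 := by exact_mod_cast Nat.factorial_ne_zero m
  have hm1 : ((m + 1).factorial : ℝ) ≠ 0 := by exact_mod_cast Nat.factorial_ne_zero _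
  rw [h0, show (Jop fun u => I u - J u) = Jop (fun u => I u - J u) from rfl]
  have h8 : lam 0 (Jop fun u => I u - J u) = lam 1 (fun u => I u - J u) := h1
  rw [h8, h2, h3, h4, h5]
  have h6' : lam ((0 : ℕ) : ℝ) J = lam m w / m.factorial := by
    rw [eq_div_iff hm]; exact h6
  have h7' : lam ((1 : ℕ) : ℝ) J = lam ((m + 1 : ℕ) : ℝ) w / (m + 1).factorial := by
    rw [eq_div_iff hm1]; exact_mod_cast h7
  rw [h6', h7']
  ring

lemma lam_mono {x z : ℝ} (hx : 0 ≤ x) (hxz : x ≤ z) {w : ℝ → ℝ} (hw : Continuous w)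
    (hnn : ∀ t, 0 ≤ t → t ≤ 1 → 0 ≤ w t) : lam z w ≤ lam x w := by
  apply intervalIntegral.integral_mono_on_of_le_Ioo zero_le_one (lam_integrable (by linarith) hw)
    (lam_integrable (by linarith) hw)
  intro t ht
  exact mul_le_mul_of_nonneg_right
    (Real.rpow_le_rpow_of_exponent_ge ht.1 ht.2.le hxz) (hnn t ht.1.le ht.2.le)

lemma lam_pos {x : ℝ} (hx : 0 ≤ x) {w : ℝ → ℝ} (hw : Continuous w)
    (hpos : ∀ t, 0 < t → t < 1 → 0 < w t) : 0 < lam x w :=
  intervalIntegral.intervalIntegral_pos_of_pos_on (lam_integrable (by linarith) hw)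
    (fun t ht => mul_pos (Real.rpow_pos_of_pos ht.1 _) (hpos t ht.1 ht.2)) zero_lt_one

lemma sym_half {w : ℝ → ℝ} (hw : Continuous w) (hsym : ∀ t, w (1 - t) = w t) (i : ℕ) :
    2 * lam i w = ∫ t in (0 : ℝ)..1, (t ^ i + (1 - t) ^ i) * w t := by
  have h1 : lam i w = ∫ t in (0 : ℝ)..1, (1 - t) ^ i * w t := by
    rw [lam_nat, ← integral_refl (fun t => t ^ i * w t)]
    congr 1; funext t; rw [hsym t]
  have i1 : IntervalIntegrable (fun t => t ^ i * w t) volume 0 1 :=
    ((continuous_id.pow i).mul hw).intervalIntegrable _ _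
  have i2 : IntervalIntegrable (fun t => (1 - t) ^ i * w t) volume 0 1 :=
    (((continuous_const.sub continuous_id).pow i).mul hw).intervalIntegrable _ _
  have h2 : 2 * lam i w = (∫ t in (0 : ℝ)..1, t ^ i * w t) +
      ∫ t in (0 : ℝ)..1, (1 - t) ^ i * w t := by
    rw [← h1, ← lam_nat]; ring
  rw [h2, ← intervalIntegral.integral_add i1 i2]
  congr 1; funext t; ring

lemma lam1_eq {w : ℝ → ℝ} (hw : Continuous w) (hsym : ∀ t, w (1 - t) = w t) :
    2 * lam ((1 : ℕ) : ℝ) w = mo 0 w := by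
  rw [sym_half hw hsym, mo_zero]
  congr 1; funext t; ring

lemma lam2_eq {w : ℝ → ℝ} (hw : Continuous w) (hsym : ∀ t, w (1 - t) = w t) :
    2 * lam ((2 : ℕ) : ℝ) w = mo 0 w - 2 * mo 1 w := by
  rw [sym_half hw hsym]
  have := mo_comb hw 1 (-2) 0 0 0
  have e : ∫ t in (0 : ℝ)..1, (t ^ 2 + (1 - t) ^ 2) * w t = ∫ t in (0 : ℝ)..1,
      (1 + -2 * vv t + 0 * vv t ^ 2 + 0 * vv t ^ 3 + 0 * vv t ^ 4) * w t := by
    congr 1; funext t; unfold vv; ring
  rw [e, this]; ring

lemma lam3_eq {w : ℝ → ℝ} (hw : Continuous w) (hsym : ∀ t, w (1 - t) = w t) :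
    2 * lam ((3 : ℕ) : ℝ) w = mo 0 w - 3 * mo 1 w := by
  rw [sym_half hw hsym]
  have := mo_comb hw 1 (-3) 0 0 0
  have e : ∫ t in (0 : ℝ)..1, (t ^ 3 + (1 - t) ^ 3) * w t = ∫ t in (0 : ℝ)..1,
      (1 + -3 * vv t + 0 * vv t ^ 2 + 0 * vv t ^ 3 + 0 * vv t ^ 4) * w t := by
    congr 1; funext t; unfold vv; ring
  rw [e, this]; ring

lemma lam4_eq {w : ℝ → ℝ} (hw : Continuous w) (hsym : ∀ t, w (1 - t) = w t) :
    2 * lam ((4 : ℕ) : ℝ) w = mo 0 w - 4 * mo 1 w + 2 * mo 2 w := by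
  rw [sym_half hw hsym]
  have := mo_comb hw 1 (-4) 2 0 0
  have e : ∫ t in (0 : ℝ)..1, (t ^ 4 + (1 - t) ^ 4) * w t = ∫ t in (0 : ℝ)..1,
      (1 + -4 * vv t + 2 * vv t ^ 2 + 0 * vv t ^ 3 + 0 * vv t ^ 4) * w t := by
    congr 1; funext t; unfold vv; ring
  rw [e, this]; ring

/-- Bound for the mass after a gap of four. -/
lemma J1_four {w w' q : ℝ → ℝ} (h : Nice w w' q) : mo 0 (Wop 4 w) ≤ mo 0 w / 36 := by
  have h1 := mo0_Wop h.cont h.sym 3
  have h3 := lam3_eq h.cont h.sym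
  have h4 := lam4_eq h.cont h.sym
  have h5 := mo1_ge h
  have h6 := mo_nonneg h.nonneg 2
  have e4 : ((3 + 1 : ℕ) : ℝ) = ((4 : ℕ) : ℝ) := by norm_num
  have e1 : ((3 + 1).factorial : ℝ) = 24 := by norm_num [Nat.factorial]
  have e2 : (Nat.factorial 3 : ℝ) = 6 := by norm_num [Nat.factorial]
  rw [e4, e1, e2] at h1
  have h7 : mo 0 (Wop 4 w) = (mo 0 w - 2 * mo 1 w - 2 * mo 2 w) / 24 := by
    linear_combination h1 + h3 / 12 - h4 / 24
  rw [h7]
  linarith

/-- General bound for the mass after a gap. -/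
lemma J1_le {w w' q : ℝ → ℝ} (h : Nice w w' q) (m : ℕ) {y : ℝ} (hy : 0 ≤ y) (hym : y ≤ m) :
    mo 0 (Wop (m + 1) w) ≤ lam y w / m.factorial := by
  rw [mo0_Wop h.cont h.sym m]
  have h1 : 0 < lam ((m + 1 : ℕ) : ℝ) w := lam_pos (by positivity) h.cont h.pos
  have h2 := lam_mono hy hym h.cont h.nonneg
  have hm : (0 : ℝ) < m.factorial := by exact_mod_cast Nat.factorial_pos m
  have hm1 : (0 : ℝ) < (m + 1).factorial := by exact_mod_cast Nat.factorial_pos _
  have h3 : 0 < 2 * lam ((m + 1 : ℕ) : ℝ) w / (m + 1).factorial := by positivity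
  have h4 : lam m w / m.factorial ≤ lam y w / m.factorial :=
    div_le_div_of_nonneg_right h2 hm.le
  linarith

lemma ff_low {f : ℝ} (h0 : 0 < f) (h1 : f ≤ 1) (n : ℕ) :
    0 < ff (n + 1) (f + n) ∧ ff (n + 1) (f + n) ≤ f * (n + 1).factorial := by
  refine ⟨ff_pos (by push_cast; linarith), ?_⟩
  induction n with
  | zero => simp [ff_succ, ff_zero]
  | succ n ih =>
    rw [ff_succ_left]
    have e : f + ((n + 1 : ℕ) : ℝ) - 1 = f + n := by push_cast; ring
    rw [e, Nat.factorial_succ (n + 1)]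
    push_cast
    have h2 : f + ((n : ℝ) + 1) ≤ (n : ℝ) + 1 + 1 := by linarith
    calc (f + ((n : ℝ) + 1)) * ff (n + 1) (f + n) ≤ ((n : ℝ) + 1 + 1) * (f * (n + 1).factorial) :=
          mul_le_mul h2 ih (ff_pos (by push_cast; linarith)).le (by positivity)
      _ = _ := by ring

lemma ff_high {f : ℝ} (h0 : 0 < f) (h1 : f ≤ 2) (n : ℕ) :
    0 < ff (n + 1) (f + n) ∧ ff (n + 1) (f + n) ≤ (n + 2).factorial := by
  refine ⟨ff_pos (by push_cast; linarith), ?_⟩
  induction n with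
  | zero => simp [ff_succ, ff_zero]; exact h1
  | succ n ih =>
    rw [ff_succ_left]
    have e : f + ((n + 1 : ℕ) : ℝ) - 1 = f + n := by push_cast; ring
    have e2 : n + 1 + 2 = (n + 2) + 1 := by ring
    rw [e, e2, Nat.factorial_succ (n + 2)]
    push_cast
    have h2 : f + ((n : ℝ) + 1) ≤ (n : ℝ) + 2 + 1 := by linarith
    exact mul_le_mul h2 ih (ff_pos (by push_cast; linarith)).le (by positivity)

end Pool.Agent.H.MP_8cb80e_co
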