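import Mathlib
import Pool.Agent.H.MP_8cb80e_co.Block1

set_option autoImplicit false

/-!
# No roots just below the last big gap
-/

namespace Pool.Agent.H.MP_8cb80e_co

open Finset Polynomial MeasureTheory intervalIntegral

lemma KR_nonpos {w w' q : ℝ → ℝ} (h : Nice w w' q) {N : ℕ} {y : ℝ} (hy : 0 ≤ y)
    (hR : ∀ t, 0 < t → t < 1 → Rk N y t ≤ 0) : KR N y w ≤ 0 := by
  have h1 : KR N y w ≤ ∫ t in (0 : ℝ)..1, (0 : ℝ) := by
    apply intervalIntegral.integral_mono_on_of_le_Ioo zero_le_one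
      (((Rk_cont hy N).mul h.cont).intervalIntegrable _ _) (by simp)
    intro t ht
    exact mul_nonpos_of_nonpos_of_nonneg (hR t ht.1 ht.2) (h.pos t ht.1 ht.2).le
  simpa using h1

lemma KR_le {w w' q : ℝ → ℝ} (h : Nice w w' q) {N : ℕ} {y κ : ℝ} (hy : 0 ≤ y)
    (hR : ∀ t, 0 < t → t < 1 → Rk N y t ≤ κ * t ^ y) : KR N y w ≤ κ * lam y w := by
  have e : κ * lam y w = ∫ t in (0 : ℝ)..1, κ * (t ^ y * w t) := by
    rw [intervalIntegral.integral_const_mul]; rfl
  rw [e]
  apply intervalIntegral.integral_mono_on_of_le_Ioo zero_le_one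
    (((Rk_cont hy N).mul h.cont).intervalIntegrable _ _)
    ((lam_integrable (by linarith) h.cont).const_mul κ)
  intro t ht
  rw [← mul_assoc]
  exact mul_le_mul_of_nonneg_right (hR t ht.1 ht.2) (h.pos t ht.1 ht.2).le

/-- The key estimate on the left half. -/
lemma block_low {w w' q : ℝ → ℝ} (h : Nice w w' q) (n : ℕ) {f : ℝ} (h0 : 0 < f) (h1 : f ≤ 1) :
    257 / 64 * (ff (n + 1) (f + n) * (1 - f) * (2 - f) * (3 - f)) * mo 0 (Wop (n + 4) w) <
      lam (f + n) w - KR (n + 3) (f + n) w := by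
  have hn : (0 : ℝ) ≤ n := Nat.cast_nonneg n
  have hy : 0 < f + n := by linarith
  have hX : 0 < lam (f + n) w := lam_pos hy.le h.cont h.pos
  have hK := KR_le h hy.le (N := n + 3) (κ := gb (n + 2) (f + n - 1))
    (Rk_le hy (Rk_nonpos_low h0.le h1 n))
  have hJ0 : 0 < mo 0 (Wop (n + 4) w) :=
    mo_pos (nice_Wop h _ (by omega)).cont (nice_Wop h (n + 4) (by omega)).pos 0
  rcases Nat.eq_zero_or_pos n with hn0 | hn0
  · subst hn0
    simp only [Nat.cast_zero, add_zero, zero_add] at *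
    have e1 : ff 1 f = f := by rw [ff_succ, ff_zero]; simp
    have e2 : gb 2 (f - 1) = (1 - f) * (2 - f) / 2 := by
      unfold gb
      rw [ff_succ, ff_succ, ff_zero]
      norm_num [Nat.factorial]
      ring
    rw [e2] at hK
    have h2 : mo 0 w / 2 ≤ lam f w := by
      have h3 := lam_mono (z := ((1 : ℕ) : ℝ)) h0.le (by simpa using h1) h.cont h.nonneg
      have h4 := lam1_eq h.cont h.sym
      linarith
    have hJ := J1_four h
    have hJX : mo 0 (Wop 4 w) ≤ lam f w / 18 := by linarith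
    rw [e1]
    have ht : 0 ≤ f * (3 - f) := mul_nonneg h0.le (by linarith)
    have ht1 : 0 ≤ (1 - f) * (2 - f) := mul_nonneg (by linarith) (by linarith)
    have ht2 : (1 - f) * (2 - f) ≤ 2 := by nlinarith
    have hlow : f * (3 - f) / 2 * lam f w ≤ lam f w - KR 3 f w := by nlinarith
    have hup : f * (1 - f) * (2 - f) * (3 - f) * mo 0 (Wop 4 w) ≤
        f * (3 - f) * 2 * (lam f w / 18) := by
      have : f * (1 - f) * (2 - f) * (3 - f) = (f * (3 - f)) * ((1 - f) * (2 - f)) := by ring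
      rw [this]
      exact mul_le_mul (mul_le_mul_of_nonneg_left ht2 ht) hJX hJ0.le (by positivity)
    have hpos : 0 < f * (3 - f) * lam f w :=
      mul_pos (mul_pos h0 (by linarith)) hX
    nlinarith
  · obtain ⟨m, rfl⟩ : ∃ m, n = m + 1 := ⟨n - 1, by omega⟩
    have hm : (0 : ℝ) ≤ m := Nat.cast_nonneg m
    set X := lam (f + ((m + 1 : ℕ) : ℝ)) w with hXdef
    -- the binomial coefficient
    have hgb : gb (m + 1 + 2) (f + ((m + 1 : ℕ) : ℝ) - 1) ≤ 1 / 12 := by
      unfold gb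
      have e1 : f + ((m + 1 : ℕ) : ℝ) - 1 = f + m := by push_cast; ring
      have hl := ff_low h0 h1 m
      rw [e1, ff_succ, ff_succ]
      have e2 : ff (m + 1) (f + m) * (f + m - ((m + 1 : ℕ) : ℝ)) * (f + m - ((m + 1 + 1 : ℕ) : ℝ)) =
          ff (m + 1) (f + m) * ((1 - f) * (2 - f)) := by push_cast; ring
      rw [e2]
      have hfac : ((m + 1 + 2).factorial : ℝ) = (m + 3) * (m + 2) * (m + 1).factorial := by
        rw [Nat.factorial_succ (m + 2), Nat.factorial_succ (m + 1)]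
        push_cast; ring
      have hfp : (0 : ℝ) < (m + 1).factorial := by exact_mod_cast Nat.factorial_pos _
      rw [hfac, div_le_div_iff₀ (by positivity) (by norm_num)]
      have ht1 : 0 ≤ (1 - f) * (2 - f) := mul_nonneg (by linarith) (by linarith)
      have h5 : ff (m + 1) (f + m) * ((1 - f) * (2 - f)) ≤
          f * (m + 1).factorial * ((1 - f) * (2 - f)) := mul_le_mul_of_nonneg_right hl.2 ht1
      have h6 : f * ((1 - f) * (2 - f)) ≤ 1 / 2 := by nlinarith [sq_nonneg (f - 1 / 2)]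
      have h7 : (6 : ℝ) ≤ (m + 3) * (m + 2) := by nlinarith
      nlinarith
    have hlow : 11 / 12 * X ≤ X - KR (m + 1 + 3) (f + ((m + 1 : ℕ) : ℝ)) w := by
      have := mul_le_mul_of_nonneg_right hgb hX.le
      linarith
    -- the mass
    have hJ := J1_le h (m + 4) hy.le (by push_cast; linarith)
    have hl := ff_low h0 h1 (m + 1)
    have hfac : ((m + 4).factorial : ℝ) = (m + 4) * (m + 3) * (m + 1 + 1).factorial := by
      rw [Nat.factorial_succ (m + 3), Nat.factorial_succ (m + 2)]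
      push_cast; ring
    have hfp : (0 : ℝ) < (m + 1 + 1).factorial := by exact_mod_cast Nat.factorial_pos _
    have ht1 : 0 ≤ (1 - f) * (2 - f) * (3 - f) :=
      mul_nonneg (mul_nonneg (by linarith) (by linarith)) (by linarith)
    have h6 : f * ((1 - f) * (2 - f) * (3 - f)) ≤ 3 / 2 := by
      have e : f * ((1 - f) * (2 - f) * (3 - f)) = (f * (1 - f)) * ((2 - f) * (3 - f)) := by ring
      rw [e]
      have a1 : f * (1 - f) ≤ 1 / 4 := by nlinarith [sq_nonneg (f - 1 / 2)]
      have a2 : 0 ≤ f * (1 - f) := mul_nonneg h0.le (by linarith)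
      have a3 : (2 - f) * (3 - f) ≤ 6 := by nlinarith
      nlinarith
    have hup : (ff (m + 1 + 1) (f + ((m + 1 : ℕ) : ℝ)) * (1 - f) * (2 - f) * (3 - f)) *
        mo 0 (Wop (m + 4 + 1) w) ≤ X / 8 := by
      have s1 : ff (m + 1 + 1) (f + ((m + 1 : ℕ) : ℝ)) * (1 - f) * (2 - f) * (3 - f) ≤
          3 / 2 * (m + 1 + 1).factorial := by
        have e : ff (m + 1 + 1) (f + ((m + 1 : ℕ) : ℝ)) * (1 - f) * (2 - f) * (3 - f) =
          ff (m + 1 + 1) (f + ((m + 1 : ℕ) : ℝ)) * ((1 - f) * (2 - f) * (3 - f)) := by ring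
        rw [e]
        calc _ ≤ f * (m + 1 + 1).factorial * ((1 - f) * (2 - f) * (3 - f)) :=
              mul_le_mul_of_nonneg_right hl.2 ht1
          _ = (f * ((1 - f) * (2 - f) * (3 - f))) * (m + 1 + 1).factorial := by ring
          _ ≤ _ := mul_le_mul_of_nonneg_right h6 hfp.le
      calc _ ≤ (3 / 2 * ((m + 1 + 1).factorial : ℝ)) * (X / (m + 4).factorial) :=
            mul_le_mul s1 hJ (mo_pos (nice_Wop h _ (by omega)).cont
              (nice_Wop h (m + 4 + 1) (by omega)).pos 0).le (by positivity)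
        _ = 3 / 2 * X / ((m + 4) * (m + 3)) := by
            rw [hfac]
            field_simp
        _ ≤ X / 8 := by
            rw [div_le_div_iff₀ (by positivity) (by norm_num)]
            have h7 : (12 : ℝ) ≤ (m + 4) * (m + 3) := by nlinarith
            nlinarith
    have e4 : m + 1 + 4 = m + 4 + 1 := by ring
    rw [e4]
    have hup2 : 257 / 64 * (ff (m + 1 + 1) (f + ((m + 1 : ℕ) : ℝ)) * (1 - f) * (2 - f) * (3 - f)) *
        mo 0 (Wop (m + 4 + 1) w) ≤ 257 / 64 * (X / 8) := by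
      rw [mul_assoc]
      exact mul_le_mul_of_nonneg_left hup (by norm_num)
    linarith

/-- The key estimate on the right half. -/
lemma block_high {w w' q : ℝ → ℝ} (h : Nice w w' q) (n : ℕ) {f : ℝ} (h0 : 1 ≤ f) (h1 : f ≤ 2) :
    0 < lam (f + n) w ∧ lam (f + n) w ≤ lam (f + n) w - KR (n + 3) (f + n) w ∧
    (ff (n + 1) (f + n) * (f - 1) * (2 - f) * (3 - f)) * mo 0 (Wop (n + 4) w) ≤
      lam (f + n) w := by
  have hn : (0 : ℝ) ≤ n := Nat.cast_nonneg n
  have hy : 0 < f + n := by linarith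
  have hX : 0 < lam (f + n) w := lam_pos hy.le h.cont h.pos
  have hK := KR_nonpos h hy.le (Rk_nonpos_high h0 h1 n)
  refine ⟨hX, by linarith, ?_⟩
  have hJ := J1_le h (n + 3) hy.le (by push_cast; linarith)
  have hl := ff_high (by linarith : 0 < f) h1 n
  have hfac : ((n + 3).factorial : ℝ) = (n + 3) * (n + 2).factorial := by
    rw [Nat.factorial_succ (n + 2)]
    push_cast; ring
  have hfp : (0 : ℝ) < (n + 2).factorial := by exact_mod_cast Nat.factorial_pos _
  have ht1 : 0 ≤ (f - 1) * (2 - f) * (3 - f) :=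
    mul_nonneg (mul_nonneg (by linarith) (by linarith)) (by linarith)
  have ht2 : (f - 1) * (2 - f) * (3 - f) ≤ 2 := by
    have a1 : (f - 1) * (2 - f) ≤ 1 := by nlinarith
    have a2 : 0 ≤ (f - 1) * (2 - f) := mul_nonneg (by linarith) (by linarith)
    nlinarith
  have hJ0 : 0 ≤ mo 0 (Wop (n + 3 + 1) w) :=
    (mo_pos (nice_Wop h _ (by omega)).cont (nice_Wop h (n + 3 + 1) (by omega)).pos 0).le
  calc (ff (n + 1) (f + n) * (f - 1) * (2 - f) * (3 - f)) * mo 0 (Wop (n + 4) w)
      = (ff (n + 1) (f + n) * ((f - 1) * (2 - f) * (3 - f))) * mo 0 (Wop (n + 3 + 1) w) := by ring_nf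
    _ ≤ ((n + 2).factorial * 2) * (lam (f + n) w / (n + 3).factorial) := by
        apply mul_le_mul _ hJ hJ0 (by positivity)
        exact mul_le_mul hl.2 ht2 ht1 hfp.le
    _ = 2 * lam (f + n) w / (n + 3) := by rw [hfac]; field_simp
    _ ≤ lam (f + n) w := by
        rw [div_le_iff₀ (by positivity)]
        nlinarith

end Pool.Agent.H.MP_8cb80e_co
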