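import Mathlib

set_option autoImplicit false

/-!
# Inequalities for real-rooted polynomials
-/

namespace Pool.Agent.H.MP_8cb80e_co

open Polynomial

/-- A real polynomial all of whose complex roots are real splits. -/
lemma splits_of_allReal {p : ℝ[X]} (h : ∀ z : ℂ, aeval z p = 0 → z.im = 0) : p.Splits := by
  apply Splits.of_splits_map_of_injective (i := algebraMap ℝ ℂ) (algebraMap ℝ ℂ).injective
    (IsAlgClosed.splits _)
  intro a ha
  have h1 : aeval a p = 0 := by
    have := (mem_roots'.mp ha).2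
    rwa [IsRoot.def, eval_map_algebraMap] at this
  exact ⟨a.re, by
    apply Complex.ext
    · simp
    · simpa using (h a h1).symm⟩

/-- Products over multisets: three points. -/
lemma multiset_lc3 (s : Multiset ℝ) (a b c : ℝ)
    (h : ∀ r ∈ s, |a - r| * |c - r| ≤ |b - r| ^ 2) :
    |(s.map (a - ·)).prod| * |(s.map (c - ·)).prod| ≤ |(s.map (b - ·)).prod| ^ 2 := by
  induction s using Multiset.induction_on with
  | empty => simp
  | cons r s ih =>
    have h1 := h r (Multiset.mem_cons_self r s)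
    have h2 := ih (fun r hr => h r (Multiset.mem_cons_of_mem hr))
    simp only [Multiset.map_cons, Multiset.prod_cons, abs_mul]
    calc |a - r| * |(s.map (a - ·)).prod| * (|c - r| * |(s.map (c - ·)).prod|)
        = (|a - r| * |c - r|) * (|(s.map (a - ·)).prod| * |(s.map (c - ·)).prod|) := by ring
      _ ≤ |b - r| ^ 2 * |(s.map (b - ·)).prod| ^ 2 :=
        mul_le_mul h1 h2 (by positivity) (by positivity)
      _ = _ := by ring

lemma multiset_lc4 (s : Multiset ℝ) (a b c d : ℝ)
    (h : ∀ r ∈ s, |b - r| ^ 3 * |d - r| ≤ |a - r| * |c - r| ^ 3) :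
    |(s.map (b - ·)).prod| ^ 3 * |(s.map (d - ·)).prod| ≤
      |(s.map (a - ·)).prod| * |(s.map (c - ·)).prod| ^ 3 := by
  induction s using Multiset.induction_on with
  | empty => simp
  | cons r s ih =>
    have h1 := h r (Multiset.mem_cons_self r s)
    have h2 := ih (fun r hr => h r (Multiset.mem_cons_of_mem hr))
    simp only [Multiset.map_cons, Multiset.prod_cons, abs_mul]
    calc (|b - r| * |(s.map (b - ·)).prod|) ^ 3 * (|d - r| * |(s.map (d - ·)).prod|)
        = (|b - r| ^ 3 * |d - r|) * (|(s.map (b - ·)).prod| ^ 3 * |(s.map (d - ·)).prod|) := by ring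
      _ ≤ (|a - r| * |c - r| ^ 3) * (|(s.map (a - ·)).prod| * |(s.map (c - ·)).prod| ^ 3) :=
        mul_le_mul h1 h2 (by positivity) (by positivity)
      _ = _ := by ring

/-- Log-concavity of a real-rooted polynomial between consecutive roots. -/
lemma lc3 {P : ℝ[X]} (hP : P.Splits) (x : ℝ)
    (hr : ∀ r, P.eval r = 0 → r ≤ x - 1 ∨ x + 1 ≤ r) :
    |P.eval (x - 1)| * |P.eval (x + 1)| ≤ |P.eval x| ^ 2 := by
  have key := multiset_lc3 P.roots (x - 1) x (x + 1) (fun r hm => by
    have h1 : P.eval r = 0 := (mem_roots'.mp hm).2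
    have h2 : 0 ≤ (x - 1 - r) * (x + 1 - r) := by
      rcases hr r h1 with h | h
      · exact mul_nonneg (by linarith) (by linarith)
      · exact mul_nonneg_of_nonpos_of_nonpos (by linarith) (by linarith)
    rw [← abs_mul, sq_abs, abs_of_nonneg h2]
    nlinarith)
  simp only [hP.eval_eq_prod_roots, abs_mul]
  calc |P.leadingCoeff| * |(P.roots.map (x - 1 - ·)).prod| *
      (|P.leadingCoeff| * |(P.roots.map (x + 1 - ·)).prod|)
      = |P.leadingCoeff| ^ 2 * (|(P.roots.map (x - 1 - ·)).prod| *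
        |(P.roots.map (x + 1 - ·)).prod|) := by ring
    _ ≤ |P.leadingCoeff| ^ 2 * |(P.roots.map (x - ·)).prod| ^ 2 :=
      mul_le_mul_of_nonneg_left key (by positivity)
    _ = _ := by ring

/-- The third-difference inequality. -/
lemma lc4 {P : ℝ[X]} (hP : P.Splits) (m : ℝ)
    (hr : ∀ r, P.eval r = 0 → r = m - 2 ∨ r = m - 4 ∨ r ≤ m - 7) :
    |P.eval (m - 3)| ^ 3 * |P.eval (m - 7)| ≤ |P.eval (m - 1)| * |P.eval (m - 5)| ^ 3 := by
  have key := multiset_lc4 P.roots (m - 1) (m - 3) (m - 5) (m - 7) (fun r hm => by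
    have h1 : P.eval r = 0 := (mem_roots'.mp hm).2
    rcases hr r h1 with h | h | h
    · subst h
      have e1 : m - 3 - (m - 2) = -1 := by ring
      have e2 : m - 7 - (m - 2) = -5 := by ring
      have e3 : m - 1 - (m - 2) = 1 := by ring
      have e4 : m - 5 - (m - 2) = -3 := by ring
      rw [e1, e2, e3, e4]
      norm_num
    · subst h
      have e1 : m - 3 - (m - 4) = 1 := by ring
      have e2 : m - 7 - (m - 4) = -3 := by ring
      have e3 : m - 1 - (m - 4) = 3 := by ring
      have e4 : m - 5 - (m - 4) = -1 := by ring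
      rw [e1, e2, e3, e4]
      norm_num
    · obtain ⟨z, hz, rfl⟩ : ∃ z, 0 ≤ z ∧ r = m - 7 - z := ⟨m - 7 - r, by linarith, by ring⟩
      have e1 : m - 3 - (m - 7 - z) = z + 4 := by ring
      have e2 : m - 7 - (m - 7 - z) = z := by ring
      have e3 : m - 1 - (m - 7 - z) = z + 6 := by ring
      have e4 : m - 5 - (m - 7 - z) = z + 2 := by ring
      rw [e1, e2, e3, e4, abs_of_nonneg hz, abs_of_nonneg (by linarith : 0 ≤ z + 4),
        abs_of_nonneg (by linarith : 0 ≤ z + 6), abs_of_nonneg (by linarith : 0 ≤ z + 2)]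
      nlinarith)
  simp only [hP.eval_eq_prod_roots, abs_mul]
  calc (|P.leadingCoeff| * |(P.roots.map (m - 3 - ·)).prod|) ^ 3 *
      (|P.leadingCoeff| * |(P.roots.map (m - 7 - ·)).prod|)
      = |P.leadingCoeff| ^ 4 * (|(P.roots.map (m - 3 - ·)).prod| ^ 3 *
        |(P.roots.map (m - 7 - ·)).prod|) := by ring
    _ ≤ |P.leadingCoeff| ^ 4 * (|(P.roots.map (m - 1 - ·)).prod| *
        |(P.roots.map (m - 5 - ·)).prod| ^ 3) :=
      mul_le_mul_of_nonneg_left key (by positivity)
    _ = _ := by ring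

/-- Splitting off distinct known roots. -/
lemma exists_factor {p : ℝ[X]} (A : Finset ℝ) (h : ∀ r ∈ A, p.eval r = 0) :
    ∃ P : ℝ[X], p = (∏ r ∈ A, (X - C r)) * P := by
  have hd : (∏ r ∈ A, (X - C r)) ∣ p := by
    apply Finset.prod_dvd_of_coprime
    · intro r _ r' _ hne
      exact pairwise_coprime_X_sub_C Function.injective_id hne
    · intro r hr
      exact dvd_iff_isRoot.mpr (h r hr)
  exact hd

/-- A polynomial which is at least linear near a root does not have a double root there. -/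
lemma not_sq_dvd {p : ℝ[X]} {x0 c σ : ℝ} (hc : 0 < c)
    (h : ∀ δ, 0 < δ → δ < 1 → c * δ ≤ σ * p.eval (x0 + δ)) : ¬ (X - C x0) ^ 2 ∣ p := by
  rintro ⟨Q, rfl⟩
  have hcont : Continuous fun δ : ℝ => σ * (δ * Q.eval (x0 + δ)) := by
    apply Continuous.mul continuous_const
    apply Continuous.mul continuous_id
    exact Q.continuous.comp (continuous_const.add continuous_id)
  have h1 : ∀ᶠ δ in nhdsWithin (0 : ℝ) (Set.Ioi 0), σ * (δ * Q.eval (x0 + δ)) < c := by
    have h2 := hcont.tendsto 0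
    simp only [zero_mul, mul_zero] at h2
    exact (h2.mono_left nhdsWithin_le_nhds).eventually (gt_mem_nhds hc)
  have h3 : ∀ᶠ δ in nhdsWithin (0 : ℝ) (Set.Ioi 0), δ ∈ Set.Ioo (0 : ℝ) 1 :=
    Ioo_mem_nhdsGT one_pos
  obtain ⟨δ, h4, h5⟩ := (h1.and h3).exists
  have h6 := h δ h5.1 h5.2
  simp only [eval_mul, eval_pow, eval_sub, eval_X, eval_C, add_sub_cancel_left] at h6
  have h7 : c * δ ≤ (σ * (δ * Q.eval (x0 + δ))) * δ := by
    calc c * δ ≤ _ := h6
      _ = _ := by ring
  have h8 := le_of_mul_le_mul_right h7 h5.1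
  linarith

end Pool.Agent.H.MP_8cb80e_co
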