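import Mathlib
import Pool.Agent.H.MP_8cb80e_co.Block2
import Pool.Agent.H.MP_8cb80e_co.RealRoot

set_option autoImplicit false

/-!
# Sets whose last big gap is at least four and is followed by at most three gaps of two
-/

namespace Pool.Agent.H.MP_8cb80e_co

open Finset Polynomial MeasureTheory intervalIntegral

lemma ff_four (n : ℕ) (y : ℝ) : ff (n + 1 + 1 + 1 + 1) y =
    ff (n + 1) y * ((y - (n + 1)) * (y - (n + 2)) * (y - (n + 3))) := by
  rw [ff_succ, ff_succ, ff_succ]
  push_cast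
  ring

lemma solve_div {d P κ R Z : ℝ} (hd : d ≠ 0) (h : -d * P = κ * (R * Z)) :
    P = -(κ * R) * (Z / d) := by
  field_simp
  linarith

lemma alg1 {c n M0 M1 M2 : ℝ} (hc : 0 ≤ c) (hn : 0 ≤ n)
    (h : (M0 / (3 * (n + 1))) *
        ((c + n + 2) * (c + n + 3) / ((n + 1) * (n + 2)) * M2 / (n + 3)) ≤
      ((c + n + 2) / (n + 1) * M1 / (2 * (n + 2))) ^ 2) :
    4 * (n + 2) * (c + n + 3) * (M0 * M2) ≤ 3 * (n + 3) * (c + n + 2) * M1 ^ 2 := by
  have h5 : (M0 / (3 * (n + 1))) *
      ((c + n + 2) * (c + n + 3) / ((n + 1) * (n + 2)) * M2 / (n + 3)) =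
      (c + n + 2) / (12 * (n + 1) ^ 2 * (n + 2) ^ 2 * (n + 3)) *
        (4 * (n + 2) * (c + n + 3) * (M0 * M2)) := by
    field_simp
    ring
  have h6 : ((c + n + 2) / (n + 1) * M1 / (2 * (n + 2))) ^ 2 =
      (c + n + 2) / (12 * (n + 1) ^ 2 * (n + 2) ^ 2 * (n + 3)) *
        (3 * (n + 3) * (c + n + 2) * M1 ^ 2) := by
    field_simp
    ring
  rw [h5, h6] at h
  exact le_of_mul_le_mul_left h (by positivity)

lemma alg2 {c M0 M1 M2 : ℝ} (hc : 0 ≤ c) (h0 : 0 < M0) (e1 : 2 * M1 = M0)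
    (e2 : 7 / 24 * M0 ≤ M2)
    (h : 4 * (0 + 2) * (c + 0 + 3) * (M0 * M2) ≤ 3 * (0 + 3) * (c + 0 + 2) * M1 ^ 2) : False := by
  have e3 : M1 = M0 / 2 := by linarith
  subst e3
  have h7 : 7 / 24 * (M0 * M0) ≤ M0 * M2 := by nlinarith
  have h8 : 0 < M0 * M0 := by positivity
  have h9 : 8 * (c + 3) * (7 / 24 * (M0 * M0)) ≤ 8 * (c + 3) * (M0 * M2) :=
    mul_le_mul_of_nonneg_left h7 (by positivity)
  have h10 : 0 ≤ c * (M0 * M0) := by positivity
  nlinarith

lemma alg3 {c n M0 M1 M2 : ℝ} (hc : 0 ≤ c) (hn : 1 ≤ n) (h1 : 0 < M1)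
    (hcs : M1 ^ 2 ≤ M0 * M2)
    (h : 4 * (n + 2) * (c + n + 3) * (M0 * M2) ≤ 3 * (n + 3) * (c + n + 2) * M1 ^ 2) : False := by
  have h7 : 4 * (n + 2) * (c + n + 3) * M1 ^ 2 ≤ 4 * (n + 2) * (c + n + 3) * (M0 * M2) :=
    mul_le_mul_of_nonneg_left hcs (by positivity)
  have h8 : 3 * (n + 3) * (c + n + 2) * M1 ^ 2 < 4 * (n + 2) * (c + n + 3) * M1 ^ 2 := by
    apply mul_lt_mul_of_pos_right _ (by positivity)
    have : 0 ≤ c * (n - 1) := mul_nonneg hc (by linarith)
    nlinarith
  linarith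

lemma block_signs (L : List ℕ) (hL : ∀ g ∈ L, 2 ≤ g) (n : ℕ) {f : ℝ} (h0 : 0 < f) (h1 : f < 2) :
    (pk ((n + 4) :: L)).eval (f + n + L.sum + 1) < 0 ∧
    0 < (pk (2 :: (n + 4) :: L)).eval (f + n + L.sum + 1) ∧
    (pk (2 :: 2 :: (n + 4) :: L)).eval (f + n + L.sum + 1) < 0 ∧
    0 < (pk (2 :: 2 :: 2 :: (n + 4) :: L)).eval (f + n + L.sum + 1) := by
  obtain ⟨w', q, hN⟩ := nice_om L hL
  have hn : (0 : ℝ) ≤ n := Nat.cast_nonneg n
  have hy : 0 < f + n := by linarith
  set x := f + n + (L.sum : ℝ) + 1 with hx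
  set F := ff (L.sum + 1) x with hF
  have hFpos : 0 < F := ff_pos (by simp only [Nat.cast_add, Nat.cast_mul, Nat.cast_one, Nat.cast_ofNat]; rw [hx]; linarith)
  have hL1 : ∀ g ∈ (n + 4) :: L, 2 ≤ g := by
    intro g hg
    rcases List.mem_cons.mp hg with rfl | hg
    · omega
    · exact hL g hg
  have hL2 : ∀ g ∈ 2 :: (n + 4) :: L, 2 ≤ g := by
    intro g hg
    rcases List.mem_cons.mp hg with rfl | hg
    · omega
    · exact hL1 g hg
  have hL3 : ∀ g ∈ 2 :: 2 :: (n + 4) :: L, 2 ≤ g := by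
    intro g hg
    rcases List.mem_cons.mp hg with rfl | hg
    · omega
    · exact hL2 g hg
  set w := om L with hw
  set G := lam (f + n) w - KR (n + 3) (f + n) w with hG
  have p1 : (pk ((n + 4) :: L)).eval x = -(F * G) := by
    have := pkq_kernel L hL hy.le (n + 3)
    have e : (pk ((n + 4) :: L)).eval x = (pkq (pk L) L.sum (n + 3 + 1)).eval x := rfl
    rw [e, this, hG]
    ring
  have t1 := tail ((n + 4) :: L) hL1 x
  have t2 := tail (2 :: (n + 4) :: L) hL2 x
  have t3 := tail (2 :: 2 :: (n + 4) :: L) hL3 x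
  have hy' : x - ((L.sum + 1 : ℕ) : ℝ) = f + n := by rw [hx]; simp only [Nat.cast_add, Nat.cast_mul, Nat.cast_one, Nat.cast_ofNat]; ring
  have f1 : ff (((n + 4) :: L).sum + 1) x = F * (ff (n + 1) (f + n) * ((f - 1) * (f - 2) * (f - 3))) := by
    have e : ((n + 4) :: L).sum + 1 = (L.sum + 1) + (n + 1 + 1 + 1 + 1) := by
      rw [List.sum_cons]; ring
    rw [e, ff_add, hy', ← hF, ff_four]
    ring
  have f2 : ff ((2 :: (n + 4) :: L).sum + 1) x =
      F * (ff (n + 1) (f + n) * ((f - 1) * (f - 2) * (f - 3))) * ((f - 4) * (f - 5)) := by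
    have e : (2 :: (n + 4) :: L).sum + 1 = (((n + 4) :: L).sum + 1) + 1 + 1 := by
      rw [List.sum_cons]; ring
    rw [e, ff_succ, ff_succ, f1, List.sum_cons, hx]
    simp only [Nat.cast_add, Nat.cast_mul, Nat.cast_one, Nat.cast_ofNat]
    ring
  have f3 : ff ((2 :: 2 :: (n + 4) :: L).sum + 1) x =
      F * (ff (n + 1) (f + n) * ((f - 1) * (f - 2) * (f - 3))) * ((f - 4) * (f - 5)) *
        ((f - 6) * (f - 7)) := by
    have e : (2 :: 2 :: (n + 4) :: L).sum + 1 = ((2 :: (n + 4) :: L).sum + 1) + 1 + 1 := by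
      rw [List.sum_cons (a := 2) (l := 2 :: (n + 4) :: L)]; ring
    rw [e, ff_succ, ff_succ, f2, List.sum_cons, List.sum_cons, hx]
    simp only [Nat.cast_add, Nat.cast_mul, Nat.cast_one, Nat.cast_ofNat]
    ring
  have hNa := nice_Wop hN (n + 4) (by omega)
  set wa := Wop (n + 4) w with hwa
  set J1 := mo 0 wa with hJ1
  have j1 : mo 0 (om ((n + 4) :: L)) = J1 := rfl
  have j2 : mo 0 (om (2 :: (n + 4) :: L)) = mo 1 wa := tot1 hNa
  have j3 : mo 0 (om (2 :: 2 :: (n + 4) :: L)) = (mo 1 wa + mo 2 wa) / 6 := tot2 hNa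
  rw [f1, j1] at t1
  rw [f2, j2] at t2
  rw [f3, j3] at t3
  have b0 : 0 < J1 := mo_pos hNa.cont hNa.pos 0
  have b1 : 0 < mo 1 wa := mo_pos hNa.cont hNa.pos 1
  have b2 : 0 < mo 2 wa := mo_pos hNa.cont hNa.pos 2
  have c1 : mo 1 wa ≤ 5 / 24 * J1 := mo1_le hNa
  have c2 : mo 2 wa ≤ mo 1 wa / 4 := mo_succ_le hNa.cont hNa.nonneg 1
  set J2 := mo 1 wa with hJ2
  set J3 := (J2 + mo 2 wa) / 6 with hJ3
  have c3 : J3 ≤ 5 / 24 * J2 := by rw [hJ3]; linarith
  have b3 : 0 < J3 := by rw [hJ3]; positivity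
  set Y := ff (n + 1) (f + n) with hY
  have hYpos : 0 < Y := (ff_high h0 h1.le n).1
  rcases le_total f 1 with hf | hf
  · have key := block_low hN n h0 hf
    rw [← hwa, ← hJ1, ← hY, ← hG] at key
    set T := Y * (1 - f) * (2 - f) * (3 - f) with hT
    have hT0 : 0 ≤ T := mul_nonneg (mul_nonneg (mul_nonneg hYpos.le (by linarith)) (by linarith))
      (by linarith)
    have hTJ : 0 ≤ T * J1 := mul_nonneg hT0 b0.le
    have hG0 : 257 / 64 * (T * J1) < G := by linarith
    have q2 : (pk (2 :: (n + 4) :: L)).eval x = F * (2 * G - T * J1) := by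
      rw [t1, p1, hT]; ring
    have q3 : (pk (2 :: 2 :: (n + 4) :: L)).eval x =
        -(F * (4 * G - 2 * (T * J1) + T * ((4 - f) * (5 - f)) * J2)) := by
      rw [t2, q2, hT]; ring
    have q4 : (pk (2 :: 2 :: 2 :: (n + 4) :: L)).eval x =
        F * (8 * G - 4 * (T * J1) + T * (2 * ((4 - f) * (5 - f)) * J2 -
          ((4 - f) * (5 - f)) * ((6 - f) * (7 - f)) * J3)) := by
      rw [t3, q3, hT]; ring
    have hU0 : 0 ≤ (4 - f) * (5 - f) := mul_nonneg (by linarith) (by linarith)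
    have hU1 : (4 - f) * (5 - f) ≤ 20 := by nlinarith
    have hV0 : 0 ≤ (6 - f) * (7 - f) := mul_nonneg (by linarith) (by linarith)
    have hV1 : (6 - f) * (7 - f) ≤ 42 := by nlinarith
    refine ⟨?_, ?_, ?_, ?_⟩
    · rw [p1]
      have : 0 < F * G := mul_pos hFpos (by linarith)
      linarith
    · rw [q2]; exact mul_pos hFpos (by linarith)
    · rw [q3]
      have h5 : 0 ≤ T * ((4 - f) * (5 - f)) * J2 := mul_nonneg (mul_nonneg hT0 hU0) b1.le
      have : 0 < F * (4 * G - 2 * (T * J1) + T * ((4 - f) * (5 - f)) * J2) :=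
        mul_pos hFpos (by linarith)
      linarith
    · rw [q4]
      have h5 : -(225 / 8 * J1) ≤ 2 * ((4 - f) * (5 - f)) * J2 -
          ((4 - f) * (5 - f)) * ((6 - f) * (7 - f)) * J3 := by
        have s1 : ((4 - f) * (5 - f)) * ((6 - f) * (7 - f)) * J3 ≤
            ((4 - f) * (5 - f)) * 42 * (5 / 24 * J2) :=
          mul_le_mul (mul_le_mul_of_nonneg_left hV1 hU0) c3 b3.le (by positivity)
        have s2 : ((4 - f) * (5 - f)) * J2 ≤ 20 * (5 / 24 * J1) :=
          mul_le_mul hU1 c1 b1.le (by norm_num)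
        nlinarith
      have h6 := mul_le_mul_of_nonneg_left h5 hT0
      apply mul_pos hFpos
      nlinarith
  · obtain ⟨hX, key1, key2⟩ := block_high hN n hf h1.le
    rw [← hwa, ← hJ1, ← hY] at key2
    rw [← hG] at key1
    set T := Y * (f - 1) * (2 - f) * (3 - f) with hT
    have hT0 : 0 ≤ T := mul_nonneg (mul_nonneg (mul_nonneg hYpos.le (by linarith)) (by linarith))
      (by linarith)
    have hTJ : 0 ≤ T * J1 := mul_nonneg hT0 b0.le
    have q2 : (pk (2 :: (n + 4) :: L)).eval x = F * (2 * G + T * J1) := by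
      rw [t1, p1, hT]; ring
    have q3 : (pk (2 :: 2 :: (n + 4) :: L)).eval x =
        -(F * (4 * G + 2 * (T * J1) - T * (((4 - f) * (5 - f)) * J2))) := by
      rw [t2, q2, hT]; ring
    have q4 : (pk (2 :: 2 :: 2 :: (n + 4) :: L)).eval x =
        F * (8 * G + 4 * (T * J1) - 2 * (T * (((4 - f) * (5 - f)) * J2)) +
          T * (((4 - f) * (5 - f)) * ((6 - f) * (7 - f)) * J3)) := by
      rw [t3, q3, hT]; ring
    have hU0 : 0 ≤ (4 - f) * (5 - f) := mul_nonneg (by linarith) (by linarith)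
    have hU1 : (4 - f) * (5 - f) ≤ 12 := by nlinarith
    have hV0 : 0 ≤ (6 - f) * (7 - f) := mul_nonneg (by linarith) (by linarith)
    have s2 : ((4 - f) * (5 - f)) * J2 ≤ 12 * (5 / 24 * J1) :=
      mul_le_mul hU1 c1 b1.le (by norm_num)
    have s3 := mul_le_mul_of_nonneg_left s2 hT0
    have s4 : 0 ≤ T * (((4 - f) * (5 - f)) * ((6 - f) * (7 - f)) * J3) :=
      mul_nonneg hT0 (mul_nonneg (mul_nonneg hU0 hV0) b3.le)
    refine ⟨?_, ?_, ?_, ?_⟩
    · rw [p1]
      have : 0 < F * G := mul_pos hFpos (by linarith)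
      linarith
    · rw [q2]; exact mul_pos hFpos (by linarith)
    · rw [q3]
      have : 0 < F * (4 * G + 2 * (T * J1) - T * (((4 - f) * (5 - f)) * J2)) :=
        mul_pos hFpos (by linarith)
      linarith
    · rw [q4]
      exact mul_pos hFpos (by linarith)

/-- Cauchy-Schwarz for the power moments. -/
lemma lam_cs {w : ℝ → ℝ} (hw : Continuous w) (hpos : ∀ t, 0 < t → t < 1 → 0 < w t) (n : ℕ) :
    lam ((n + 1 : ℕ) : ℝ) w ^ 2 ≤ lam (n : ℝ) w * lam ((n + 2 : ℕ) : ℝ) w := by
  have h0 : 0 < lam (n : ℝ) w := lam_pos (by positivity) hw hpos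
  set A := lam (n : ℝ) w with hA
  set B := lam ((n + 1 : ℕ) : ℝ) w with hB
  set D := lam ((n + 2 : ℕ) : ℝ) w with hD
  have key : 0 ≤ A ^ 2 * D - 2 * A * B * B + B ^ 2 * A := by
    have i0 : IntervalIntegrable (fun t => t ^ n * w t) volume 0 1 :=
      ((continuous_id.pow n).mul hw).intervalIntegrable _ _
    have i1 : IntervalIntegrable (fun t => t ^ (n + 1) * w t) volume 0 1 :=
      ((continuous_id.pow (n + 1)).mul hw).intervalIntegrable _ _
    have i2 : IntervalIntegrable (fun t => t ^ (n + 2) * w t) volume 0 1 :=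
      ((continuous_id.pow (n + 2)).mul hw).intervalIntegrable _ _
    have e : A ^ 2 * D - 2 * A * B * B + B ^ 2 * A =
        ∫ t in (0 : ℝ)..1, (A ^ 2 * (t ^ (n + 2) * w t) - 2 * A * B * (t ^ (n + 1) * w t) +
          B ^ 2 * (t ^ n * w t)) := by
      rw [intervalIntegral.integral_add ((i2.const_mul _).sub (i1.const_mul _)) (i0.const_mul _),
        intervalIntegral.integral_sub (i2.const_mul _) (i1.const_mul _)]
      simp only [intervalIntegral.integral_const_mul]
      rw [← lam_nat, ← lam_nat, ← lam_nat]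
    rw [e]
    apply intervalIntegral.integral_nonneg zero_le_one
    intro t ht
    have e2 : A ^ 2 * (t ^ (n + 2) * w t) - 2 * A * B * (t ^ (n + 1) * w t) +
        B ^ 2 * (t ^ n * w t) = t ^ n * (A * t - B) ^ 2 * w t := by ring
    rw [e2]
    rcases ht.1.eq_or_lt with h | h
    · rcases ht.2.eq_or_lt with h' | h'
      · exfalso; linarith
      · subst h
        have hw0 : 0 ≤ w 0 := by
          have : Filter.Tendsto w (nhdsWithin 0 (Set.Ioi 0)) (nhds (w 0)) :=
            hw.continuousAt.tendsto.mono_left nhdsWithin_le_nhds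
          apply ge_of_tendsto this
          filter_upwards [Ioo_mem_nhdsGT (one_pos : (0 : ℝ) < 1)] with t ht
          exact (hpos t ht.1 ht.2).le
        positivity
    · rcases ht.2.eq_or_lt with h' | h'
      · subst h'
        have hw0 : 0 ≤ w 1 := by
          have : Filter.Tendsto w (nhdsWithin 1 (Set.Iio 1)) (nhds (w 1)) :=
            hw.continuousAt.tendsto.mono_left nhdsWithin_le_nhds
          apply ge_of_tendsto this
          filter_upwards [Ioo_mem_nhdsLT (one_pos : (0 : ℝ) < 1)] with t ht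
          exact (hpos t ht.1 ht.2).le
        positivity
      · have := hpos t h h'
        positivity
  have h1 : 0 ≤ A * (A * D - B ^ 2) := by nlinarith
  have h2 := nonneg_of_mul_nonneg_right h1 h0
  linarith

/-- Log-concavity fails just below the last big gap. -/
lemma block_contra (L : List ℕ) (hL : ∀ g ∈ L, 2 ≤ g) (n : ℕ) (p : ℝ[X]) {κ : ℝ} (hκ : κ ≠ 0)
    (hp : p.Splits)
    (hroot : ∀ f : ℝ, 0 < f → f < 2 → p.eval (f + n + L.sum + 1) ≠ 0)
    (ha : p.eval ((L.sum : ℝ) + n + 4) = 0) (hc : L ≠ [] → p.eval (L.sum : ℝ) = 0)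
    (hv : ∀ j : ℕ, 1 ≤ j → j < n + 4 → p.eval ((L.sum + j : ℕ) : ℝ) =
      κ * (pk L).eval ((L.sum + j : ℕ) : ℝ)) : False := by
  obtain ⟨w', q, hN⟩ := nice_om L hL
  have hn : (0 : ℝ) ≤ n := Nat.cast_nonneg n
  have hp0 : p ≠ 0 := by
    intro h
    exact hroot 1 one_pos (by norm_num) (by rw [h, eval_zero])
  set c := (L.sum : ℝ) with hcdef
  have hc0 : 0 ≤ c := Nat.cast_nonneg _
  have v1 := hv (n + 1) (by omega) (by omega)
  have v2 := hv (n + 2) (by omega) (by omega)
  have v3 := hv (n + 3) (by omega) (by omega)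
  have x1 : ((L.sum + (n + 1) : ℕ) : ℝ) = c + n + 1 := by simp only [Nat.cast_add, Nat.cast_mul, Nat.cast_one, Nat.cast_ofNat]; rw [hcdef]; ring
  have x2 : ((L.sum + (n + 2) : ℕ) : ℝ) = c + n + 2 := by simp only [Nat.cast_add, Nat.cast_mul, Nat.cast_one, Nat.cast_ofNat]; rw [hcdef]; ring
  have x3 : ((L.sum + (n + 3) : ℕ) : ℝ) = c + n + 3 := by simp only [Nat.cast_add, Nat.cast_mul, Nat.cast_one, Nat.cast_ofNat]; rw [hcdef]; ring
  rcases eq_or_ne L [] with hLe | hLe
  · subst hLe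
    obtain ⟨P, hP⟩ := exists_factor (p := p) {c + n + 4} (by
      intro r hr; rw [Finset.mem_singleton] at hr; subst hr; exact ha)
    rw [Finset.prod_singleton] at hP
    have hPs : P.Splits := hp.of_dvd hp0 ⟨_, by rw [hP, mul_comm]⟩
    have hev : ∀ x, p.eval x = (x - (c + n + 4)) * P.eval x := by
      intro x; rw [hP]; simp
    have hlc := lc3 hPs (c + n + 2) (by
      intro r hr
      by_contra hcon
      rw [not_or, not_le, not_le] at hcon
      apply hroot (r - (n + c + 1)) (by linarith [hcon.1]) (by linarith [hcon.2])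
      have e : r - (n + c + 1) + n + c + 1 = r := by ring
      rw [e, hev, hr, mul_zero])
    have y1 : c + n + 2 - 1 = c + n + 1 := by ring
    have y3 : c + n + 2 + 1 = c + n + 3 := by ring
    rw [y1, y3] at hlc
    have o : ∀ x, (pk []).eval x = 1 := by intro x; simp [pk]
    rw [x1, o, hev] at v1
    rw [x2, o, hev] at v2
    rw [x3, o, hev] at v3
    have w1 : P.eval (c + n + 1) = -κ / 3 := by linarith
    have w2 : P.eval (c + n + 2) = -κ / 2 := by linarith
    have w3 : P.eval (c + n + 3) = -κ := by linarith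
    rw [w1, w2, w3, ← abs_mul, sq_abs] at hlc
    have hk : 0 < κ ^ 2 := by positivity
    have e : -κ / 3 * -κ = κ ^ 2 / 3 := by ring
    rw [e, abs_of_pos (by positivity)] at hlc
    nlinarith
  · have hcr := hc hLe
    have hc1 : 2 ≤ c := by
      have h1 := sum_ge hL
      have h2 := List.length_pos_of_ne_nil hLe
      have h3 : 2 ≤ L.sum := by omega
      rw [hcdef]
      exact_mod_cast h3
    have hne : c + n + 4 ≠ c := by intro h; linarith
    obtain ⟨P, hP⟩ := exists_factor (p := p) {c + n + 4, c} (by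
      intro r hr
      rw [Finset.mem_insert, Finset.mem_singleton] at hr
      rcases hr with hr | hr
      · rw [hr]; exact ha
      · rw [hr]; exact hcr)
    rw [Finset.prod_pair hne] at hP
    have hPs : P.Splits := hp.of_dvd hp0 ⟨_, by rw [hP, mul_comm]⟩
    have hev : ∀ x, p.eval x = (x - (c + n + 4)) * (x - c) * P.eval x := by
      intro x; rw [hP]; simp
    have hlc := lc3 hPs (c + n + 2) (by
      intro r hr
      by_contra hcon
      rw [not_or, not_le, not_le] at hcon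
      apply hroot (r - (n + c + 1)) (by linarith [hcon.1]) (by linarith [hcon.2])
      have e : r - (n + c + 1) + n + c + 1 = r := by ring
      rw [e, hev, hr, mul_zero])
    have y1 : c + n + 2 - 1 = c + n + 1 := by ring
    have y3 : c + n + 2 + 1 = c + n + 3 := by ring
    rw [y1, y3] at hlc
    -- the values of `pk L`
    set w := om L with hw
    have r1 := rep_value (rep_pk L hL) (n + 1) (by omega)
    have r2 := rep_value (rep_pk L hL) (n + 2) (by omega)
    have r3 := rep_value (rep_pk L hL) (n + 3) (by omega)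
    have z1 : ((n + 1 : ℕ) : ℝ) - 1 = (n : ℝ) := by simp only [Nat.cast_add, Nat.cast_mul, Nat.cast_one, Nat.cast_ofNat]; ring
    have z2 : ((n + 2 : ℕ) : ℝ) - 1 = ((n + 1 : ℕ) : ℝ) := by simp only [Nat.cast_add, Nat.cast_mul, Nat.cast_one, Nat.cast_ofNat]; ring
    have z3 : ((n + 3 : ℕ) : ℝ) - 1 = ((n + 2 : ℕ) : ℝ) := by simp only [Nat.cast_add, Nat.cast_mul, Nat.cast_one, Nat.cast_ofNat]; ring
    have s1 : n + 1 - 1 = n := by omega
    have s2 : n + 2 - 1 = n + 1 := by omega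
    have s3 : n + 3 - 1 = n + 2 := by omega
    rw [z1, s1, x1] at r1
    rw [z2, s2, x2] at r2
    rw [z3, s3, x3] at r3
    rw [x1, hev] at v1
    rw [x2, hev] at v2
    rw [x3, hev] at v3
    have g1 : ((L.sum + (n + 2)).factorial : ℝ) = (c + n + 2) * (L.sum + (n + 1)).factorial := by
      have : L.sum + (n + 2) = (L.sum + (n + 1)) + 1 := by ring
      rw [this, Nat.factorial_succ]; simp only [Nat.cast_add, Nat.cast_mul, Nat.cast_one, Nat.cast_ofNat]; rw [hcdef]; ring
    have g2 : ((L.sum + (n + 3)).factorial : ℝ) =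
        (c + n + 3) * ((c + n + 2) * (L.sum + (n + 1)).factorial) := by
      have : L.sum + (n + 3) = (L.sum + (n + 2)) + 1 := by ring
      rw [this, Nat.factorial_succ, Nat.cast_mul, g1]; simp only [Nat.cast_add, Nat.cast_mul, Nat.cast_one, Nat.cast_ofNat]; rw [hcdef]; ring
    have g3 : ((n + 1).factorial : ℝ) = (n + 1) * n.factorial := by
      rw [Nat.factorial_succ]; simp only [Nat.cast_add, Nat.cast_mul, Nat.cast_one, Nat.cast_ofNat]
    have g4 : ((n + 2).factorial : ℝ) = (n + 2) * ((n + 1) * n.factorial) := by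
      rw [Nat.factorial_succ (n + 1), Nat.cast_mul, g3]; simp only [Nat.cast_add, Nat.cast_mul, Nat.cast_one, Nat.cast_ofNat]; ring
    set M0 := lam (n : ℝ) w with hM0
    set M1 := lam ((n + 1 : ℕ) : ℝ) w with hM1
    set M2 := lam ((n + 2 : ℕ) : ℝ) w with hM2
    have hM0p : 0 < M0 := lam_pos (by positivity) hN.cont hN.pos
    have hM1p : 0 < M1 := lam_pos (by positivity) hN.cont hN.pos
    have hM2p : 0 < M2 := lam_pos (by positivity) hN.cont hN.pos
    have hcs : M1 ^ 2 ≤ M0 * M2 := lam_cs hN.cont hN.pos n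
    rw [g1, g3] at r2
    rw [g2, g4] at r3
    set Φ := ((L.sum + (n + 1)).factorial : ℝ) with hΦ
    set φ := (n.factorial : ℝ) with hφ
    have hΦp : 0 < Φ := by rw [hΦ]; exact_mod_cast Nat.factorial_pos _
    have hφp : 0 < φ := by rw [hφ]; exact_mod_cast Nat.factorial_pos _
    have a1 : (pk L).eval (c + n + 1) = Φ / φ * M0 := by
      field_simp; linarith
    have a2 : (pk L).eval (c + n + 2) = Φ / φ * ((c + n + 2) / (n + 1) * M1) := by
      have : (n : ℝ) + 1 ≠ 0 := by positivity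
      field_simp; linarith
    have a3 : (pk L).eval (c + n + 3) =
        Φ / φ * ((c + n + 2) * (c + n + 3) / ((n + 1) * (n + 2)) * M2) := by
      have h1 : (n : ℝ) + 1 ≠ 0 := by positivity
      have h2 : (n : ℝ) + 2 ≠ 0 := by positivity
      field_simp; linarith
    rw [a1] at v1
    rw [a2] at v2
    rw [a3] at v3
    set K := κ * (Φ / φ) with hK
    have hKne : K ≠ 0 := mul_ne_zero hκ (by positivity)
    have w1 : P.eval (c + n + 1) = -K * (M0 / (3 * (n + 1))) := by
      have e : (c + n + 1 - (c + n + 4)) * (c + n + 1 - c) = -(3 * ((n : ℝ) + 1)) := by ring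
      rw [e] at v1
      exact solve_div (by positivity) v1
    have w2 : P.eval (c + n + 2) = -K * ((c + n + 2) / (n + 1) * M1 / (2 * (n + 2))) := by
      have e : (c + n + 2 - (c + n + 4)) * (c + n + 2 - c) = -(2 * ((n : ℝ) + 2)) := by ring
      rw [e] at v2
      exact solve_div (by positivity) v2
    have w3 : P.eval (c + n + 3) =
        -K * ((c + n + 2) * (c + n + 3) / ((n + 1) * (n + 2)) * M2 / (n + 3)) := by
      have e : (c + n + 3 - (c + n + 4)) * (c + n + 3 - c) = -((n : ℝ) + 3) := by ring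
      rw [e] at v3
      exact solve_div (by positivity) v3
    rw [w1, w2, w3, ← abs_mul, sq_abs] at hlc
    have hK2 : 0 < K ^ 2 := by positivity
    have e : -K * (M0 / (3 * (n + 1))) *
        (-K * ((c + n + 2) * (c + n + 3) / ((n + 1) * (n + 2)) * M2 / (n + 3))) =
        K ^ 2 * ((M0 / (3 * (n + 1))) *
        ((c + n + 2) * (c + n + 3) / ((n + 1) * (n + 2)) * M2 / (n + 3))) := by ring
    have e' : (-K * ((c + n + 2) / (n + 1) * M1 / (2 * (n + 2)))) ^ 2 =
        K ^ 2 * ((c + n + 2) / (n + 1) * M1 / (2 * (n + 2))) ^ 2 := by ring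
    rw [e, e', abs_of_pos (by positivity)] at hlc
    have hlc2 := le_of_mul_le_mul_left hlc hK2
    have hlc3 := alg1 hc0 hn hlc2
    rcases Nat.eq_zero_or_pos n with hn0 | hn0
    · subst hn0
      have l1 := lam1_eq hN.cont hN.sym
      have l2 := lam2_eq hN.cont hN.sym
      have l0 : M0 = mo 0 w := by rw [hM0, Nat.cast_zero, lam_zero]
      have m1 := mo1_le hN
      have e1 : 2 * M1 = M0 := by rw [l0]; exact l1
      have e2 : 7 / 24 * M0 ≤ M2 := by
        have : 2 * M2 = mo 0 w - 2 * mo 1 w := l2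
        rw [l0]; linarith
      rw [Nat.cast_zero] at hlc3
      exact alg2 hc0 hM0p e1 e2 hlc3
    · have hn1 : (1 : ℝ) ≤ n := by exact_mod_cast hn0
      exact alg3 hc0 hn1 hM1p hcs hlc3

end Pool.Agent.H.MP_8cb80e_co
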