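import Mathlib
import Pool.Agent.H.MP_8cb80e_co.Block3

set_option autoImplicit false

/-!
# Sets with a last big gap at least four, followed by at most three gaps of two
-/

namespace Pool.Agent.H.MP_8cb80e_co

open Polynomial

section
variable (L : List ℕ) (hL : ∀ g ∈ L, 2 ≤ g) (n : ℕ)
include hL

lemma hLn : ∀ g ∈ (n + 4) :: L, 2 ≤ g := by
  intro g hg
  rcases List.mem_cons.mp hg with rfl | hg
  · omega
  · exact hL g hg

lemma hLn1 : ∀ g ∈ 2 :: (n + 4) :: L, 2 ≤ g := by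
  intro g hg
  rcases List.mem_cons.mp hg with rfl | hg
  · exact le_rfl
  · exact hLn L hL n g hg

lemma hLn2 : ∀ g ∈ 2 :: 2 :: (n + 4) :: L, 2 ≤ g := by
  intro g hg
  rcases List.mem_cons.mp hg with rfl | hg
  · exact le_rfl
  · exact hLn1 L hL n g hg

lemma block_values :
    ((pk ((n + 4) :: L)).eval ((L.sum : ℝ) + n + 4) = 0 ∧
      (pk (2 :: (n + 4) :: L)).eval ((L.sum : ℝ) + n + 4) = 0 ∧
      (pk (2 :: 2 :: (n + 4) :: L)).eval ((L.sum : ℝ) + n + 4) = 0 ∧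
      (pk (2 :: 2 :: 2 :: (n + 4) :: L)).eval ((L.sum : ℝ) + n + 4) = 0) ∧
    (L ≠ [] → (pk ((n + 4) :: L)).eval (L.sum : ℝ) = 0 ∧
      (pk (2 :: (n + 4) :: L)).eval (L.sum : ℝ) = 0 ∧
      (pk (2 :: 2 :: (n + 4) :: L)).eval (L.sum : ℝ) = 0 ∧
      (pk (2 :: 2 :: 2 :: (n + 4) :: L)).eval (L.sum : ℝ) = 0) ∧
    (∀ j : ℕ, 1 ≤ j → j < n + 4 →
      (pk ((n + 4) :: L)).eval ((L.sum + j : ℕ) : ℝ) = (-1) * (pk L).eval ((L.sum + j : ℕ) : ℝ) ∧
      (pk (2 :: (n + 4) :: L)).eval ((L.sum + j : ℕ) : ℝ) = 2 * (pk L).eval ((L.sum + j : ℕ) : ℝ) ∧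
      (pk (2 :: 2 :: (n + 4) :: L)).eval ((L.sum + j : ℕ) : ℝ) =
        (-4) * (pk L).eval ((L.sum + j : ℕ) : ℝ) ∧
      (pk (2 :: 2 :: 2 :: (n + 4) :: L)).eval ((L.sum + j : ℕ) : ℝ) =
        8 * (pk L).eval ((L.sum + j : ℕ) : ℝ)) := by
  have k0 := hLn L hL n
  have k1 := hLn1 L hL n
  have k2 := hLn2 L hL n
  have s0 : ((n + 4) :: L).sum = L.sum + (n + 4) := by rw [List.sum_cons]; ring
  have s1 : (2 :: (n + 4) :: L).sum = L.sum + (n + 4) + 2 := by rw [List.sum_cons, s0]; ring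
  have s2 : (2 :: 2 :: (n + 4) :: L).sum = L.sum + (n + 4) + 4 := by
    rw [List.sum_cons, s1]; ring
  have t1 := fun (m : ℕ) => tail_low ((n + 4) :: L) k0 (n := m)
  have t2 := fun (m : ℕ) => tail_low (2 :: (n + 4) :: L) k1 (n := m)
  have t3 := fun (m : ℕ) => tail_low (2 :: 2 :: (n + 4) :: L) k2 (n := m)
  rw [s0] at t1
  rw [s1] at t2
  rw [s2] at t3
  refine ⟨?_, ?_, ?_⟩
  · have p0 := pk_sum ((n + 4) :: L) k0 (by simp)
    rw [s0] at p0
    have c : ((L.sum + (n + 4) : ℕ) : ℝ) = (L.sum : ℝ) + n + 4 := by simp only [Nat.cast_add, Nat.cast_mul, Nat.cast_one, Nat.cast_ofNat]; ring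
    have q1 := t1 (L.sum + (n + 4)) le_rfl
    have q2 := t2 (L.sum + (n + 4)) (by omega)
    have q3 := t3 (L.sum + (n + 4)) (by omega)
    rw [p0, mul_zero] at q1
    rw [q1, mul_zero] at q2
    rw [q2, mul_zero] at q3
    rw [c] at p0 q1 q2 q3
    exact ⟨p0, q1, q2, q3⟩
  · intro hne
    have p0 := pk_inherit (g := n + 4) le_rfl (pk_sum L hL hne)
    have q1 := t1 L.sum (by omega)
    have q2 := t2 L.sum (by omega)
    have q3 := t3 L.sum (by omega)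
    rw [p0, mul_zero] at q1
    rw [q1, mul_zero] at q2
    rw [q2, mul_zero] at q3
    exact ⟨p0, q1, q2, q3⟩
  · intro j j1 j2
    have p0 := pk_low (g := n + 4) hL j1 j2
    have q1 := t1 (L.sum + j) (by omega)
    have q2 := t2 (L.sum + j) (by omega)
    have q3 := t3 (L.sum + j) (by omega)
    rw [q2] at q3
    rw [q1] at q2 q3
    rw [p0] at q1 q2 q3
    refine ⟨by rw [p0]; ring, by rw [q1]; ring, by rw [q2]; ring, by rw [q3]; ring⟩

theorem block_one : ¬ (pk ((n + 4) :: L)).Splits := by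
  intro hp
  obtain ⟨v1, v2, v3⟩ := block_values L hL n
  exact block_contra L hL n _ (κ := -1) (by norm_num) hp
    (fun f h0 h1 => (block_signs L hL n h0 h1).1.ne) v1.1 (fun h => (v2 h).1)
    (fun j j1 j2 => (v3 j j1 j2).1)

theorem block_two : ¬ (pk (2 :: (n + 4) :: L)).Splits := by
  intro hp
  obtain ⟨v1, v2, v3⟩ := block_values L hL n
  exact block_contra L hL n _ (κ := 2) (by norm_num) hp
    (fun f h0 h1 => (block_signs L hL n h0 h1).2.1.ne') v1.2.1 (fun h => (v2 h).2.1)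
    (fun j j1 j2 => (v3 j j1 j2).2.1)

theorem block_three : ¬ (pk (2 :: 2 :: (n + 4) :: L)).Splits := by
  intro hp
  obtain ⟨v1, v2, v3⟩ := block_values L hL n
  exact block_contra L hL n _ (κ := -4) (by norm_num) hp
    (fun f h0 h1 => (block_signs L hL n h0 h1).2.2.1.ne) v1.2.2.1 (fun h => (v2 h).2.2.1)
    (fun j j1 j2 => (v3 j j1 j2).2.2.1)

theorem block_four : ¬ (pk (2 :: 2 :: 2 :: (n + 4) :: L)).Splits := by
  intro hp
  obtain ⟨v1, v2, v3⟩ := block_values L hL n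
  exact block_contra L hL n _ (κ := 8) (by norm_num) hp
    (fun f h0 h1 => (block_signs L hL n h0 h1).2.2.2.ne') v1.2.2.2 (fun h => (v2 h).2.2.2)
    (fun j j1 j2 => (v3 j j1 j2).2.2.2)

end

end Pool.Agent.H.MP_8cb80e_co
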