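import Mathlib
import Pool.Agent.H.MP_8cb80e_co.Block1

set_option autoImplicit false

/-!
# The kernels for long runs of gaps of two
-/

namespace Pool.Agent.H.MP_8cb80e_co

open Finset Polynomial MeasureTheory intervalIntegral

/-- The general kernel. -/
noncomputable def BB (a b c y t : ℝ) : ℝ :=
  t ^ y + (1 - t) ^ y - 1 + a * vv t + b * (vv t + vv t ^ 2) +
    c * (3 * vv t + 3 * vv t ^ 2 + vv t ^ 3)

lemma BB_continuous {a b c y : ℝ} (hy : 0 ≤ y) : Continuous (BB a b c y) := by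
  have h1 : Continuous fun t : ℝ => t ^ y := Real.continuous_rpow_const hy
  have h2 : Continuous fun t : ℝ => (1 - t) ^ y :=
    (Real.continuous_rpow_const hy).comp (continuous_const.sub continuous_id)
  have h3 := continuous_vv
  unfold BB
  exact ((((h1.add h2).sub continuous_const).add (continuous_const.mul h3)).add
    (continuous_const.mul (h3.add (h3.pow 2)))).add
    (continuous_const.mul (((continuous_const.mul h3).add (continuous_const.mul (h3.pow 2))).add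
      (h3.pow 3)))

lemma BB_d1 (a b c y : ℝ) {t : ℝ} (h0 : 0 < t) (h1 : t < 1) :
    HasDerivAt (BB a b c y) (y * t ^ (y - 1) - y * (1 - t) ^ (y - 1) +
      ((a + b + 3 * c) + 2 * (b + 3 * c) * vv t + 3 * c * vv t ^ 2 + 4 * 0 * vv t ^ 3) *
        (1 - 2 * t)) t := by
  have e1 : HasDerivAt (fun t : ℝ => t ^ y) (y * t ^ (y - 1)) t :=
    Real.hasDerivAt_rpow_const (Or.inl h0.ne')
  have e2 : HasDerivAt (fun t : ℝ => (1 - t) ^ y) (-1 * y * (1 - t) ^ (y - 1)) t := by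
    have := ((hasDerivAt_id t).const_sub 1).rpow_const (p := y) (Or.inl (by simp; linarith))
    exact this
  have e3 := hasDerivAt_pv (a + b + 3 * c) (b + 3 * c) c 0 t
  have e4 := ((e1.add e2).sub_const 1).add e3
  have e5 : BB a b c y = fun t => t ^ y + (1 - t) ^ y - 1 + ((a + b + 3 * c) * vv t +
      (b + 3 * c) * vv t ^ 2 + c * vv t ^ 3 + 0 * vv t ^ 4) := by
    funext t; unfold BB; ring
  rw [e5]
  refine HasDerivAt.congr_deriv e4 ?_
  ring

lemma BB_d2 (a b c y : ℝ) {t : ℝ} (h0 : 0 < t) (h1 : t < 1) :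
    HasDerivAt (fun t => y * t ^ (y - 1) - y * (1 - t) ^ (y - 1) +
      ((a + b + 3 * c) + 2 * (b + 3 * c) * vv t + 3 * c * vv t ^ 2 + 4 * 0 * vv t ^ 3) *
        (1 - 2 * t))
      (y * (y - 1) * (t ^ (y - 2) + (1 - t) ^ (y - 2)) - 2 * a - 12 * b * vv t -
        30 * c * (vv t + vv t ^ 2)) t := by
  have e1 : HasDerivAt (fun t : ℝ => y * t ^ (y - 1)) (y * ((y - 1) * t ^ (y - 1 - 1))) t :=
    (Real.hasDerivAt_rpow_const (Or.inl h0.ne')).const_mul y
  have e2 : HasDerivAt (fun t : ℝ => y * (1 - t) ^ (y - 1))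
      (y * (-1 * (y - 1) * (1 - t) ^ (y - 1 - 1))) t := by
    have := ((hasDerivAt_id t).const_sub 1).rpow_const (p := y - 1) (Or.inl (by simp; linarith))
    exact this.const_mul y
  have e3 := hasDerivAt_pv' (a + b + 3 * c) (b + 3 * c) c 0 t
  have e4 := (e1.sub e2).add e3
  refine HasDerivAt.congr_deriv (f := fun t => y * t ^ (y - 1) - y * (1 - t) ^ (y - 1) +
      ((a + b + 3 * c) + 2 * (b + 3 * c) * vv t + 3 * c * vv t ^ 2 + 4 * 0 * vv t ^ 3) *
        (1 - 2 * t)) e4 ?_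
  have e5 : y - 1 - 1 = y - 2 := by ring
  rw [e5]
  ring

lemma BB_at_zero {a b c y : ℝ} (hy : 0 < y) : BB a b c y 0 = 0 := by
  unfold BB
  rw [vv_zero, Real.zero_rpow hy.ne']
  simp

lemma BB_at_one {a b c y : ℝ} (hy : 0 < y) : BB a b c y 1 = 0 := by
  unfold BB
  rw [vv_one, sub_self, Real.zero_rpow hy.ne']
  simp

lemma BB_pos {a b c y : ℝ} (hy : 0 < y)
    (h : ∀ t, 0 < t → t < 1 → y * (y - 1) * (t ^ (y - 2) + (1 - t) ^ (y - 2)) - 2 * a -
      12 * b * vv t - 30 * c * (vv t + vv t ^ 2) < 0) :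
    ∀ t, 0 < t → t < 1 → 0 < BB a b c y t := by
  intro t h0 h1
  exact conc_pos (BB_continuous hy.le).continuousOn (fun t ht => BB_d1 a b c y ht.1 ht.2)
    (fun t ht => BB_d2 a b c y ht.1 ht.2) (fun t ht => h t ht.1 ht.2) (BB_at_zero hy).ge
    (BB_at_one hy).ge t ⟨h0, h1⟩

lemma BB_neg {a b c y : ℝ} (hy : 0 < y)
    (h : ∀ t, 0 < t → t < 1 → 0 < y * (y - 1) * (t ^ (y - 2) + (1 - t) ^ (y - 2)) - 2 * a -
      12 * b * vv t - 30 * c * (vv t + vv t ^ 2)) :
    ∀ t, 0 < t → t < 1 → BB a b c y t < 0 := by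
  intro t h0 h1
  exact conv_neg (BB_continuous hy.le).continuousOn (fun t ht => BB_d1 a b c y ht.1 ht.2)
    (fun t ht => BB_d2 a b c y ht.1 ht.2) (fun t ht => h t ht.1 ht.2) (BB_at_zero hy).le
    (BB_at_one hy).le t ⟨h0, h1⟩

noncomputable def al (y : ℝ) : ℝ := y * (y - 1) / 2

noncomputable def be (y : ℝ) : ℝ := -(y * (y - 1) * (y - 2) * (y - 3) / 24)

noncomputable def ga (y : ℝ) : ℝ := y * (y - 1) * (y - 2) * (y - 3) * (y - 4) * (y - 5) / 720

lemma vv_pos {t : ℝ} (h0 : 0 < t) (h1 : t < 1) : 0 < vv t := mul_pos h0 (by linarith)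

lemma B1_pos {y : ℝ} (hy : y < 1) {t : ℝ} (h0 : 0 < t) (h1 : t < 1) : 0 < BB 0 0 0 y t := by
  unfold BB
  have e1 := Real.rpow_lt_rpow_of_exponent_gt h0 h1 hy
  have e2 := Real.rpow_lt_rpow_of_exponent_gt (by linarith : 0 < 1 - t) (by linarith) hy
  rw [Real.rpow_one] at e1 e2
  linarith

lemma B1_neg {y : ℝ} (hy : 1 < y) {t : ℝ} (h0 : 0 < t) (h1 : t < 1) : BB 0 0 0 y t < 0 := by
  unfold BB
  have e1 := Real.rpow_lt_rpow_of_exponent_gt h0 h1 hy
  have e2 := Real.rpow_lt_rpow_of_exponent_gt (by linarith : 0 < 1 - t) (by linarith) hy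
  rw [Real.rpow_one] at e1 e2
  linarith

/-- The second derivative of the second kernel. -/
lemma dd2 (y t : ℝ) : y * (y - 1) * (t ^ (y - 2) + (1 - t) ^ (y - 2)) - 2 * al y -
      12 * 0 * vv t - 30 * 0 * (vv t + vv t ^ 2) = y * (y - 1) * BB 0 0 0 (y - 2) t := by
  unfold BB al; ring

lemma dd3 (y t : ℝ) : y * (y - 1) * (t ^ (y - 2) + (1 - t) ^ (y - 2)) - 2 * al y -
      12 * be y * vv t - 30 * 0 * (vv t + vv t ^ 2) =
      y * (y - 1) * BB (al (y - 2)) 0 0 (y - 2) t := by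
  unfold BB al be; ring

lemma dd4 (y t : ℝ) : y * (y - 1) * (t ^ (y - 2) + (1 - t) ^ (y - 2)) - 2 * al y -
      12 * be y * vv t - 30 * ga y * (vv t + vv t ^ 2) =
      y * (y - 1) * BB (al (y - 2)) (be (y - 2)) 0 (y - 2) t := by
  unfold BB al be ga; ring

lemma B2_pos {y : ℝ} (hy : y < 1 ∨ 3 < y) {t : ℝ} (h0 : 0 < t) (h1 : t < 1) :
    0 < BB (al y) 0 0 y t := by
  rcases le_or_gt y 0 with hy0 | hy0
  · have e1 := B1_pos (y := y) (by linarith) h0 h1
    have e2 : BB (al y) 0 0 y t = BB 0 0 0 y t + al y * vv t := by unfold BB; ring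
    rw [e2]
    have e3 : 0 ≤ al y := by unfold al; nlinarith
    have := mul_nonneg e3 (vv_pos h0 h1).le
    linarith
  · apply BB_pos hy0 _ t h0 h1
    intro t h0 h1
    rw [dd2]
    rcases hy with hy | hy
    · exact mul_neg_of_neg_of_pos (mul_neg_of_pos_of_neg hy0 (by linarith))
        (B1_pos (by linarith) h0 h1)
    · exact mul_neg_of_pos_of_neg (mul_pos hy0 (by linarith)) (B1_neg (by linarith) h0 h1)

lemma B2_neg {y : ℝ} (hy : 1 < y) (hy' : y < 3) {t : ℝ} (h0 : 0 < t) (h1 : t < 1) :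
    BB (al y) 0 0 y t < 0 := by
  apply BB_neg (by linarith) _ t h0 h1
  intro t h0 h1
  rw [dd2]
  exact mul_pos (mul_pos (by linarith) (by linarith)) (B1_pos (by linarith) h0 h1)

lemma B3_pos {y : ℝ} (hy : (-2 ≤ y ∧ y < 1) ∨ (3 < y ∧ y < 5)) {t : ℝ} (h0 : 0 < t)
    (h1 : t < 1) : 0 < BB (al y) (be y) 0 y t := by
  rcases le_or_gt y 0 with hy0 | hy0
  · have hy2 : -2 ≤ y := by rcases hy with h | h <;> linarith [h.1]
    have e1 := Real.one_le_rpow_of_pos_of_le_one_of_nonpos h0 h1.le hy0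
    have e2 := Real.one_le_rpow_of_pos_of_le_one_of_nonpos (by linarith : 0 < 1 - t)
      (by linarith) hy0
    unfold BB
    have hv := vv_pos h0 h1
    have hv4 := vv_le t
    have e3 : 0 ≤ al y := by unfold al; nlinarith
    have e4 : al y ≤ 3 := by unfold al; nlinarith
    have e5 : be y = - (al y * ((y - 2) * (y - 3) / 12)) := by unfold be al; ring
    have e6 : (y - 2) * (y - 3) / 12 ≤ 5 / 3 := by nlinarith
    have e7 : 0 ≤ (y - 2) * (y - 3) / 12 := by nlinarith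
    have e8 : vv t + vv t ^ 2 ≤ 5 / 4 * vv t := by nlinarith
    have e9 : al y * ((y - 2) * (y - 3) / 12) * (vv t + vv t ^ 2) ≤
        al y * (5 / 3) * (5 / 4 * vv t) :=
      mul_le_mul (mul_le_mul_of_nonneg_left e6 e3) e8 (by positivity) (by positivity)
    have e10 : al y * vv t ≤ 3 * (1 / 4) := mul_le_mul e4 hv4 hv.le (by norm_num)
    rw [e5]
    nlinarith
  · apply BB_pos hy0 _ t h0 h1
    intro t h0 h1
    rw [dd3]
    rcases hy with hy | hy
    · exact mul_neg_of_neg_of_pos (mul_neg_of_pos_of_neg hy0 (by linarith [hy.2]))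
        (B2_pos (Or.inl (by linarith [hy.2])) h0 h1)
    · exact mul_neg_of_pos_of_neg (mul_pos hy0 (by linarith [hy.1]))
        (B2_neg (by linarith [hy.1]) (by linarith [hy.2]) h0 h1)

lemma B3_neg {y : ℝ} (hy : (1 < y ∧ y < 3) ∨ 5 < y) {t : ℝ} (h0 : 0 < t) (h1 : t < 1) :
    BB (al y) (be y) 0 y t < 0 := by
  have hy1 : 1 < y := by rcases hy with h | h <;> [exact h.1; linarith]
  apply BB_neg (by linarith) _ t h0 h1
  intro t h0 h1
  rw [dd3]
  refine mul_pos (mul_pos (by linarith) (by linarith)) (B2_pos ?_ h0 h1)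
  rcases hy with hy | hy
  · left; linarith [hy.2]
  · right; linarith

lemma B4_pos {y : ℝ} (hy : (0 < y ∧ y < 1) ∨ (3 < y ∧ y < 5) ∨ 7 < y) {t : ℝ} (h0 : 0 < t)
    (h1 : t < 1) : 0 < BB (al y) (be y) (ga y) y t := by
  have hy0 : 0 < y := by rcases hy with h | h | h <;> [exact h.1; linarith [h.1]; linarith]
  apply BB_pos hy0 _ t h0 h1
  intro t h0 h1
  rw [dd4]
  rcases hy with hy | hy | hy
  · exact mul_neg_of_neg_of_pos (mul_neg_of_pos_of_neg hy0 (by linarith [hy.2]))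
      (B3_pos (Or.inl ⟨by linarith [hy.1], by linarith [hy.2]⟩) h0 h1)
  · exact mul_neg_of_pos_of_neg (mul_pos hy0 (by linarith [hy.1]))
      (B3_neg (Or.inl ⟨by linarith [hy.1], by linarith [hy.2]⟩) h0 h1)
  · exact mul_neg_of_pos_of_neg (mul_pos hy0 (by linarith))
      (B3_neg (Or.inr (by linarith)) h0 h1)

lemma B4_neg {y : ℝ} (hy : (1 < y ∧ y < 3) ∨ (5 < y ∧ y < 7)) {t : ℝ} (h0 : 0 < t)
    (h1 : t < 1) : BB (al y) (be y) (ga y) y t < 0 := by
  have hy1 : 1 < y := by rcases hy with h | h <;> linarith [h.1]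
  apply BB_neg (by linarith) _ t h0 h1
  intro t h0 h1
  rw [dd4]
  refine mul_pos (mul_pos (by linarith) (by linarith)) (B3_pos ?_ h0 h1)
  rcases hy with hy | hy
  · left; exact ⟨by linarith [hy.1], by linarith [hy.2]⟩
  · right; exact ⟨by linarith [hy.1], by linarith [hy.2]⟩

/-- The integrated kernel. -/
lemma int_BB {w w' q : ℝ → ℝ} (h : Nice w w' q) {a b c y : ℝ} (hy : 0 ≤ y) :
    ∫ t in (0 : ℝ)..1, BB a b c y t * w t =
      2 * lam y w - mo 0 w + a * mo 1 w + b * (mo 1 w + mo 2 w) +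
        c * (3 * mo 1 w + 3 * mo 2 w + mo 3 w) := by
  have e1 : ∫ t in (0 : ℝ)..1, (1 - t) ^ y * w t = lam y w := by
    unfold lam
    rw [← integral_refl (fun t => t ^ y * w t)]
    congr 1; funext t; rw [h.sym t]
  have i1 : IntervalIntegrable (fun t => t ^ y * w t) volume 0 1 :=
    lam_integrable (by linarith) h.cont
  have i2 : IntervalIntegrable (fun t => (1 - t) ^ y * w t) volume 0 1 := by
    have : Continuous fun t : ℝ => (1 - t) ^ y :=
      (Real.continuous_rpow_const hy).comp (continuous_const.sub continuous_id)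
    exact (this.mul h.cont).intervalIntegrable _ _
  have i3 : IntervalIntegrable (fun t => (-1 + (a + b + 3 * c) * vv t + (b + 3 * c) * vv t ^ 2 +
      c * vv t ^ 3 + 0 * vv t ^ 4) * w t) volume 0 1 := by
    have := continuous_vv
    have h2 : Continuous (fun t => (-1 + (a + b + 3 * c) * vv t + (b + 3 * c) * vv t ^ 2 +
      c * vv t ^ 3 + 0 * vv t ^ 4)) := by fun_prop
    exact (h2.mul h.cont).intervalIntegrable _ _
  have e2 : ∫ t in (0 : ℝ)..1, BB a b c y t * w t = ∫ t in (0 : ℝ)..1,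
      (t ^ y * w t + (1 - t) ^ y * w t + (-1 + (a + b + 3 * c) * vv t + (b + 3 * c) * vv t ^ 2 +
      c * vv t ^ 3 + 0 * vv t ^ 4) * w t) := by
    congr 1; funext t; unfold BB; ring
  rw [e2, intervalIntegral.integral_add (i1.add i2) i3, intervalIntegral.integral_add i1 i2, e1,
    mo_comb h.cont]
  have e3 : ∫ t in (0 : ℝ)..1, t ^ y * w t = lam y w := rfl
  rw [e3]
  ring

lemma int_BB_pos {w w' q : ℝ → ℝ} (h : Nice w w' q) {a b c y : ℝ} (hy : 0 ≤ y)
    (hB : ∀ t, 0 < t → t < 1 → 0 < BB a b c y t) : 0 < ∫ t in (0 : ℝ)..1, BB a b c y t * w t :=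
  intervalIntegral.intervalIntegral_pos_of_pos_on
    (((BB_continuous hy).mul h.cont).intervalIntegrable _ _)
    (fun t ht => mul_pos (hB t ht.1 ht.2) (h.pos t ht.1 ht.2)) zero_lt_one

lemma int_BB_neg {w w' q : ℝ → ℝ} (h : Nice w w' q) {a b c y : ℝ} (hy : 0 ≤ y)
    (hB : ∀ t, 0 < t → t < 1 → BB a b c y t < 0) : ∫ t in (0 : ℝ)..1, BB a b c y t * w t < 0 := by
  have h1 : 0 < ∫ t in (0 : ℝ)..1, -(BB a b c y t * w t) :=
    intervalIntegral.intervalIntegral_pos_of_pos_on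
      (((BB_continuous hy).mul h.cont).neg.intervalIntegrable _ _)
      (fun t ht => by
        have := mul_neg_of_neg_of_pos (hB t ht.1 ht.2) (h.pos t ht.1 ht.2)
        linarith) zero_lt_one
  rw [intervalIntegral.integral_neg] at h1
  linarith

end Pool.Agent.H.MP_8cb80e_co
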