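import Mathlib
import Pool.Agent.H.MP_8cb80e_co.Moments

set_option autoImplicit false

/-!
# The moment inequality
-/

namespace Pool.Agent.H.MP_8cb80e_co

open Finset Polynomial MeasureTheory intervalIntegral

lemma poly_ineq_one {a : ℝ} (h0 : 0 ≤ a) (h1 : a ≤ 1 / 5) :
    0 ≤ 56 * (3 + 3 * a + a ^ 2) ^ 3 - 75 * (17 + 17 * a + 25 / 4 * a ^ 2) * (1 + a) ^ 3 := by
  have e : 56 * (3 + 3 * a + a ^ 2) ^ 3 - 75 * (17 + 17 * a + 25 / 4 * a ^ 2) * (1 + a) ^ 3 =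
      237 - 564 * a - 8283 / 4 * a ^ 2 - 7881 / 4 * a ^ 3 - 2661 / 4 * a ^ 4 + 141 / 4 * a ^ 5 +
        56 * a ^ 6 := by ring
  rw [e]
  have a2 : a ^ 2 ≤ (1 / 5) ^ 2 := pow_le_pow_left₀ h0 h1 2
  have a3 : a ^ 3 ≤ (1 / 5) ^ 3 := pow_le_pow_left₀ h0 h1 3
  have a4 : a ^ 4 ≤ (1 / 5) ^ 4 := pow_le_pow_left₀ h0 h1 4
  have a5 : 0 ≤ a ^ 5 := pow_nonneg h0 5
  have a6 : 0 ≤ a ^ 6 := pow_nonneg h0 6
  norm_num at a2 a3 a4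
  linarith

lemma poly_ineq_two {a : ℝ} (h0 : 0 ≤ a) (h1 : a ≤ 1 / 4) :
    0 ≤ 840 * (3 + 3 * a + a ^ 2) ^ 3 - 1029 * (17 + 17 * a + 25 / 4 * a ^ 2) * (1 + a) ^ 3 := by
  have e : 840 * (3 + 3 * a + a ^ 2) ^ 3 - 1029 * (17 + 17 * a + 25 / 4 * a ^ 2) * (1 + a) ^ 3 =
      5187 - 1932 * a - 82677 / 4 * a ^ 2 - 84903 / 4 * a ^ 3 - 26187 / 4 * a ^ 4 +
        4515 / 4 * a ^ 5 + 840 * a ^ 6 := by ring
  rw [e]
  have a2 : a ^ 2 ≤ (1 / 4) ^ 2 := pow_le_pow_left₀ h0 h1 2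
  have a3 : a ^ 3 ≤ (1 / 4) ^ 3 := pow_le_pow_left₀ h0 h1 3
  have a4 : a ^ 4 ≤ (1 / 4) ^ 4 := pow_le_pow_left₀ h0 h1 4
  have a5 : 0 ≤ a ^ 5 := pow_nonneg h0 5
  have a6 : 0 ≤ a ^ 6 := pow_nonneg h0 6
  norm_num at a2 a3 a4
  linarith

/-- Increase in the variable `b`. -/
lemma cubic_incr {k l a b : ℝ} (hk : 0 ≤ k) (h0 : 0 ≤ a) (hb : a ^ 2 ≤ b)
    (hkl : l * (25 / 4) * (1 + a) ^ 3 ≤ k * 27) :
    k * (3 + 3 * a + a ^ 2) ^ 3 - l * (17 + 17 * a + 25 / 4 * a ^ 2) * (1 + a) ^ 3 ≤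
      k * (3 + 3 * a + b) ^ 3 - l * (17 + 17 * a + 25 / 4 * b) * (1 + a) ^ 3 := by
  obtain ⟨d, hd, rfl⟩ : ∃ d, 0 ≤ d ∧ b = a ^ 2 + d := ⟨b - a ^ 2, by linarith, by ring⟩
  have e : k * (3 + 3 * a + (a ^ 2 + d)) ^ 3 -
      l * (17 + 17 * a + 25 / 4 * (a ^ 2 + d)) * (1 + a) ^ 3 =
      k * (3 + 3 * a + a ^ 2) ^ 3 - l * (17 + 17 * a + 25 / 4 * a ^ 2) * (1 + a) ^ 3 +
      d * (k * 3 * (3 + 3 * a + a ^ 2) ^ 2 - l * (25 / 4) * (1 + a) ^ 3) +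
      k * (3 * (3 + 3 * a + a ^ 2) * d ^ 2 + d ^ 3) := by ring
  rw [e]
  have h1 : (9 : ℝ) ≤ (3 + 3 * a + a ^ 2) ^ 2 := by nlinarith
  have h2 : k * 27 ≤ k * 3 * (3 + 3 * a + a ^ 2) ^ 2 := by nlinarith
  have h3 : 0 ≤ d * (k * 3 * (3 + 3 * a + a ^ 2) ^ 2 - l * (25 / 4) * (1 + a) ^ 3) :=
    mul_nonneg hd (by linarith)
  have h4 : 0 ≤ k * (3 * (3 + 3 * a + a ^ 2) * d ^ 2 + d ^ 3) := by positivity
  linarith

/-- Monotonicity in the variable `c`. -/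
lemma final_ineq {k l a b c : ℝ} (hk : 0 ≤ k) (hl : 0 ≤ l) (h0 : 0 ≤ a) (hb : a ^ 2 ≤ b)
    (hc : c ≤ b / 4) (hkl : l * (25 / 4) * (1 + a) ^ 3 ≤ k * 27)
    (h : 0 ≤ k * (3 + 3 * a + a ^ 2) ^ 3 - l * (17 + 17 * a + 25 / 4 * a ^ 2) * (1 + a) ^ 3) :
    l * (17 + 17 * a + 6 * b + c) * (1 + a) ^ 3 ≤ k * (3 + 3 * a + b) ^ 3 := by
  have h1 := cubic_incr hk h0 hb hkl
  have h2 : l * (17 + 17 * a + 6 * b + c) * (1 + a) ^ 3 ≤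
      l * (17 + 17 * a + 25 / 4 * b) * (1 + a) ^ 3 := by
    apply mul_le_mul_of_nonneg_right _ (by positivity)
    apply mul_le_mul_of_nonneg_left _ hl
    linarith
  linarith

/-- The moments in terms of the second derivative. -/
lemma mo_of_q {w w' q : ℝ → ℝ} (h : Nice w w' q) (e0 : w 0 = 0) (e1 : w 1 = 0) :
    mo 0 w = mo 1 q / 2 ∧ mo 1 w = (mo 1 q + mo 2 q) / 12 ∧
    mo 2 w = (mo 1 q + mo 2 q + 2 * mo 3 q) / 60 ∧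
    mo 3 w = (mo 1 q + mo 2 q + 2 * mo 3 q + 5 * mo 4 q) / 280 := by
  have g0 := green_mo (-1 / 2) 0 0 0 h.d1 h.d2 h.qc
  have g1 := green_mo (-1 / 12) (-1 / 12) 0 0 h.d1 h.d2 h.qc
  have g2 := green_mo (-1 / 60) (-1 / 60) (-1 / 30) 0 h.d1 h.d2 h.qc
  have g3 := green_mo (-1 / 280) (-1 / 280) (-1 / 140) (-1 / 56) h.d1 h.d2 h.qc
  rw [e0, e1] at g0 g1 g2 g3
  refine ⟨?_, ?_, ?_, ?_⟩ <;> linarith

/-- The main moment inequality. -/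
lemma moment_ineq {w w' q : ℝ → ℝ} (h : Nice w w' q) (e0 : w 0 = 0) (e1 : w 1 = 0) {k l : ℝ}
    (hk : 0 < k) (hl : 0 < l) {r : ℝ} (hr : mo 2 q ≤ r * mo 1 q) (hr1 : r ≤ 1 / 4)
    (hkl : l * (25 / 4) * (1 + r) ^ 3 ≤ k * 27)
    (hpoly : ∀ a, 0 ≤ a → a ≤ r →
      0 ≤ k * (3 + 3 * a + a ^ 2) ^ 3 - l * (17 + 17 * a + 25 / 4 * a ^ 2) * (1 + a) ^ 3) :
    75 * l * (mo 0 (Wop 2 (Wop 2 (Wop 2 w))) * mo 0 (Wop 2 w) ^ 3) * 56 ≤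
      75 * (75 * k) * (mo 0 (Wop 2 (Wop 2 w)) ^ 3 * mo 0 w) := by
  rw [tot3 h, tot2 h, tot1 h]
  obtain ⟨m0, m1, m2, m3⟩ := mo_of_q h e0 e1
  have hpos : 0 < mo 0 w := mo_pos h.cont h.pos 0
  have hQ : 0 < mo 1 q := by linarith
  rw [m0, m1, m2, m3]
  set Q := mo 1 q with hQdef
  obtain ⟨a, ha⟩ : ∃ a, mo 2 q = a * Q := ⟨mo 2 q / Q, by field_simp⟩
  obtain ⟨b, hb⟩ : ∃ b, mo 3 q = b * Q := ⟨mo 3 q / Q, by field_simp⟩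
  obtain ⟨c, hc⟩ : ∃ c, mo 4 q = c * Q := ⟨mo 4 q / Q, by field_simp⟩
  have a0 : 0 ≤ a := by
    have := mo_nonneg h.qnn 2
    rw [ha] at this
    exact nonneg_of_mul_nonneg_left this hQ
  have ar : a ≤ r := by
    rw [ha] at hr
    exact le_of_mul_le_mul_right hr hQ
  have cb : c ≤ b / 4 := by
    have := mo_succ_le h.qc h.qnn 3
    rw [hb, hc] at this
    have h2 : c * Q ≤ b / 4 * Q := by linarith
    exact le_of_mul_le_mul_right h2 hQ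
  have ab : a ^ 2 ≤ b := by
    have := mo_cs h.qc h.qnn a
    rw [ha, hb, ← hQdef] at this
    have h2 : a ^ 2 * Q ≤ b * Q := by nlinarith
    exact le_of_mul_le_mul_right h2 hQ
  rw [ha, hb, hc]
  have hkl' : l * (25 / 4) * (1 + a) ^ 3 ≤ k * 27 := by
    refine le_trans ?_ hkl
    apply mul_le_mul_of_nonneg_left _ (by positivity)
    exact pow_le_pow_left₀ (by linarith) (by linarith) 3
  have key := final_ineq hk.le hl.le a0 ab cb hkl' (hpoly a a0 ar)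
  have hQ4 : 0 < Q ^ 4 := by positivity
  have key2 := mul_le_mul_of_nonneg_left key hQ4.le
  have l1 : 75 * l * ((3 * ((Q + a * Q) / 12) + 3 * ((Q + a * Q + 2 * (b * Q)) / 60) +
      (Q + a * Q + 2 * (b * Q) + 5 * (c * Q)) / 280) / 90 * ((Q + a * Q) / 12) ^ 3) * 56 =
      75 * 56 / (5040 * 1728) * (Q ^ 4 * (l * (17 + 17 * a + 6 * b + c) * (1 + a) ^ 3)) := by
    field_simp
    ring
  have l2 : 75 * (75 * k) * ((((Q + a * Q) / 12 + (Q + a * Q + 2 * (b * Q)) / 60) / 6) ^ 3 *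
      (Q / 2)) = 75 * 75 / (5832000 * 2) * (Q ^ 4 * (k * (3 + 3 * a + b) ^ 3)) := by
    field_simp
    ring
  rw [l1, l2]
  have : (75 * 56 / (5040 * 1728) : ℝ) = 75 * 75 / (5832000 * 2) := by norm_num
  rw [this]
  exact mul_le_mul_of_nonneg_left key2 (by norm_num)

/-- First case: the second derivative has small second moment. -/
lemma moment_ineq_one {w w' q : ℝ → ℝ} (h : Nice w w' q) (e0 : w 0 = 0) (e1 : w 1 = 0)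
    (hr : mo 2 q ≤ 1 / 5 * mo 1 q) :
    mo 0 (Wop 2 (Wop 2 (Wop 2 w))) * mo 0 (Wop 2 w) ^ 3 ≤
      mo 0 (Wop 2 (Wop 2 w)) ^ 3 * mo 0 w := by
  have := moment_ineq h e0 e1 (k := 56) (l := 75) (by norm_num) (by norm_num) hr (by norm_num)
    (by norm_num) (fun a a0 a1 => poly_ineq_one a0 a1)
  linarith

/-- General case. -/
lemma moment_ineq_two {w w' q : ℝ → ℝ} (h : Nice w w' q) (e0 : w 0 = 0) (e1 : w 1 = 0) :
    1029 * (mo 0 (Wop 2 (Wop 2 (Wop 2 w))) * mo 0 (Wop 2 w) ^ 3) ≤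
      1125 * (mo 0 (Wop 2 (Wop 2 w)) ^ 3 * mo 0 w) := by
  have := moment_ineq h e0 e1 (k := 840) (l := 1029) (r := 1 / 4) (by norm_num) (by norm_num)
    (by have := mo_succ_le h.qc h.qnn 1; linarith) le_rfl
    (by norm_num) (fun a a0 a1 => poly_ineq_two a0 a1)
  linarith

end Pool.Agent.H.MP_8cb80e_co
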