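import Mathlib
import Pool.Agent.H.MP_8cb80e_co.ClassD1
import Pool.Agent.H.MP_8cb80e_co.ClassD2
import Pool.Agent.H.MP_8cb80e_co.RealRoot

set_option autoImplicit false

/-!
# Sets ending with at least four gaps of two
-/

namespace Pool.Agent.H.MP_8cb80e_co

open Finset Polynomial MeasureTheory intervalIntegral

lemma mo_small {q q' q'' : ℝ → ℝ} (h1 : ∀ t, HasDerivAt q (q' t) t)
    (h2 : ∀ t, HasDerivAt q' (q'' t) t) (hc : Continuous q'')
    (hnn : ∀ t, 0 ≤ t → t ≤ 1 → 0 ≤ q'' t) : mo 2 q ≤ 1 / 5 * mo 1 q := by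
  have h := green_mo 0 0 1 0 h1 (q := fun t => - q'' t) (fun t => by rw [neg_neg]; exact h2 t)
    hc.neg
  have h3 := mo_nonneg hnn 3
  have h4 : mo 3 (fun t => - q'' t) = - mo 3 q'' := by
    have := mo_const_mul 3 (-1) q''
    simpa using this
  rw [h4] at h
  linarith

lemma qop_small {w w' q : ℝ → ℝ} (h : Nice w w' q) (g : ℕ) (hg : 3 ≤ g) :
    mo 2 (qop g w) ≤ 1 / 5 * mo 1 (qop g w) := by
  have hc := h.cont
  obtain ⟨j, rfl⟩ : ∃ j, g = j + 3 := ⟨g - 3, by omega⟩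
  have e0 : j + 3 - 2 = j + 1 := by omega
  have hI : ∀ (n : ℕ) (t : ℝ), HasDerivAt (Iop^[n + 1] w) ((Iop^[n] w) t) t := by
    intro n t
    rw [Function.iterate_succ_apply']
    exact hasDerivAt_Iop (continuous_Iop_iter hc n) t
  have hJ : ∀ (n : ℕ) (t : ℝ), HasDerivAt (Jop^[n + 1] w) (-(Jop^[n] w) t) t := by
    intro n t
    rw [Function.iterate_succ_apply']
    exact hasDerivAt_Jop (continuous_Jop_iter hc n) t
  have d1 : ∀ t, HasDerivAt (qop (j + 3) w) ((Iop^[j] w) t + -(Jop^[j] w) t) t := by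
    intro t
    have := (hI j t).add (hJ j t)
    unfold qop
    rw [e0]
    exact this
  rcases Nat.eq_zero_or_pos j with hj | hj
  · subst hj
    refine mo_small (q' := fun _ => 0) (q'' := fun _ => 0) (fun t => ?_)
      (fun t => hasDerivAt_const t 0) continuous_const (fun _ _ _ => le_rfl)
    have := d1 t
    simp only [Function.iterate_zero, id, add_neg_cancel] at this
    exact this
  · obtain ⟨i, rfl⟩ : ∃ i, j = i + 1 := ⟨j - 1, by omega⟩
    refine mo_small d1 (q'' := fun t => (Iop^[i] w) t + (Jop^[i] w) t) (fun t => ?_)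
      ((continuous_Iop_iter hc i).add (continuous_Jop_iter hc i)) (fun t h0 h1 => ?_)
    · have := (hI i t).add (hJ i t).neg
      rw [neg_neg] at this
      exact this
    · have e : (Jop^[i] w) t = (Iop^[i] w) (1 - t) := Jop_iter_refl h.sym i t
      rw [e]
      exact add_nonneg (Iop_iter_nonneg h.nonneg _ t h0 h1)
        (Iop_iter_nonneg h.nonneg _ (1 - t) (by linarith) (by linarith))

lemma exists_factor_list {p : ℝ[X]} : ∀ l : List ℝ, l.Nodup → (∀ r ∈ l, p.eval r = 0) →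
    ∃ P : ℝ[X], p = (l.map fun r => X - C r).prod * P
  | [] => fun _ _ => ⟨p, by simp⟩
  | (r :: l) => by
    intro hn hr
    obtain ⟨hn1, hn2⟩ := List.nodup_cons.mp hn
    obtain ⟨P, hP⟩ := exists_factor_list l hn2 (fun x hx => hr x (List.mem_cons_of_mem _ hx))
    have h1 := hr r List.mem_cons_self
    rw [hP, eval_mul] at h1
    have h2 : eval r (l.map fun r => X - C r).prod ≠ 0 := by
      rw [eval_list_prod, List.map_map]
      intro h0
      rw [List.prod_eq_zero_iff] at h0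
      obtain ⟨a, ha, h3⟩ := List.mem_map.mp h0
      simp only [Function.comp_apply, eval_sub, eval_X, eval_C] at h3
      have : r = a := by linarith
      exact hn1 (this ▸ ha)
    have h3 : P.IsRoot r := (mul_eq_zero.mp h1).resolve_left h2
    obtain ⟨Q, hQ⟩ := dvd_iff_isRoot.mpr h3
    refine ⟨Q, ?_⟩
    rw [hP, hQ, List.map_cons, List.prod_cons]
    ring

lemma sq_dvd_of {l : List ℝ} {P : ℝ[X]} {r : ℝ} (hr : r ∈ l) (hP : P.eval r = 0) :
    (X - C r) ^ 2 ∣ (l.map fun r => X - C r).prod * P := by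
  rw [sq]
  exact mul_dvd_mul (List.dvd_prod (List.mem_map.mpr ⟨r, hr, rfl⟩)) (dvd_iff_isRoot.mpr hP)

lemma ff_ge_one {n : ℕ} {x : ℝ} (hx : (n : ℝ) ≤ x) : 1 ≤ ff n x := by
  induction n with
  | zero => rw [ff_zero]
  | succ n ih =>
    rw [ff_succ]
    push_cast at hx
    have h1 := ih (by linarith)
    nlinarith

lemma lam_diff {w w' q : ℝ → ℝ} (h : Nice w w' q) {δ : ℝ} (h0 : 0 < δ) (h1 : δ < 1) :
    δ * mo 1 w ≤ lam 1 w - lam (1 + δ) w := by
  have i1 : IntervalIntegrable (fun t : ℝ => t ^ (1 : ℝ) * w t) volume 0 1 :=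
    lam_integrable (by linarith) h.cont
  have i2 : IntervalIntegrable (fun t : ℝ => t ^ (1 + δ) * w t) volume 0 1 :=
    lam_integrable (by linarith) h.cont
  have e : lam 1 w - lam (1 + δ) w = ∫ t in (0 : ℝ)..1, (t ^ (1 : ℝ) * w t - t ^ (1 + δ) * w t) := by
    rw [intervalIntegral.integral_sub i1 i2]; rfl
  have e2 : δ * mo 1 w = ∫ t in (0 : ℝ)..1, δ * (vv t ^ 1 * w t) := by
    rw [intervalIntegral.integral_const_mul]; rfl
  rw [e, e2]
  apply intervalIntegral.integral_mono_on_of_le_Ioo zero_le_one ((mo_int 1 h.cont).const_mul δ)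
    (i1.sub i2)
  intro t ht
  have h2 : t ^ δ ≤ 1 + δ * (t - 1) := by
    have := rpow_one_add_le_one_add_mul_self (s := t - 1) (by linarith [ht.1]) h0.le h1.le
    have e3 : 1 + (t - 1) = t := by ring
    rw [e3] at this
    exact this
  have h3 : t ^ (1 + δ) = t * t ^ δ := by
    rw [Real.rpow_add ht.1, Real.rpow_one]
  have h4 := h.pos t ht.1 ht.2
  rw [h3, Real.rpow_one, pow_one]
  unfold vv
  have h5 : t * t ^ δ ≤ t * (1 + δ * (t - 1)) := mul_le_mul_of_nonneg_left h2 ht.1.le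
  nlinarith

lemma algD {s Φ m0 m1 m2 m3 K1 K2 : ℝ} (hs : 0 ≤ s) (hΦ : 0 < Φ) (h0 : 0 < m0) (h2 : 0 < m2)
    (hK : 0 < K1)
    (h : K1 * (((s + 5) * (s + 4) * (s + 3) * (s + 2) * Φ * m2) ^ 3 * (Φ * m0)) ≤
      K2 * (((s + 7) * (s + 6) * (s + 5) * (s + 4) * (s + 3) * (s + 2) * Φ * m3) *
        ((s + 3) * (s + 2) * Φ * m1) ^ 3))
    (hm : K2 * (m3 * m1 ^ 3) ≤ K1 * (m2 ^ 3 * m0)) : False := by
  have hc : 0 < Φ ^ 4 * ((s + 5) * (s + 4)) * ((s + 3) * (s + 2)) ^ 3 := by positivity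
  have l1 : K1 * (((s + 5) * (s + 4) * (s + 3) * (s + 2) * Φ * m2) ^ 3 * (Φ * m0)) =
      (Φ ^ 4 * ((s + 5) * (s + 4)) * ((s + 3) * (s + 2)) ^ 3) *
        (((s + 5) * (s + 4)) ^ 2 * (K1 * (m2 ^ 3 * m0))) := by ring
  have l2 : K2 * (((s + 7) * (s + 6) * (s + 5) * (s + 4) * (s + 3) * (s + 2) * Φ * m3) *
        ((s + 3) * (s + 2) * Φ * m1) ^ 3) =
      (Φ ^ 4 * ((s + 5) * (s + 4)) * ((s + 3) * (s + 2)) ^ 3) *
        (((s + 7) * (s + 2)) * ((s + 6) * (s + 3)) * (K2 * (m3 * m1 ^ 3))) := by ring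
  rw [l1, l2] at h
  have h5 := le_of_mul_le_mul_left h hc
  have hpos : 0 < K1 * (m2 ^ 3 * m0) := by positivity
  have h6 : ((s + 7) * (s + 2)) * ((s + 6) * (s + 3)) * (K2 * (m3 * m1 ^ 3)) ≤
      ((s + 7) * (s + 2)) * ((s + 6) * (s + 3)) * (K1 * (m2 ^ 3 * m0)) :=
    mul_le_mul_of_nonneg_left hm (by positivity)
  have h7 : ((s + 7) * (s + 2)) * ((s + 6) * (s + 3)) < ((s + 5) * (s + 4)) ^ 2 := by
    rw [sq]
    apply mul_lt_mul'' _ _ (by positivity) (by positivity) <;> nlinarith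
  have h8 := mul_lt_mul_of_pos_right h7 hpos
  linarith

section
variable {L : List ℕ} (hL : ∀ g ∈ L, 2 ≤ g)
include hL

lemma hL2 : ∀ g ∈ 2 :: L, 2 ≤ g := by
  intro g hg
  rcases List.mem_cons.mp hg with rfl | hg
  · exact le_rfl
  · exact hL g hg

/-- The value of the polynomial through the kernel. -/
lemma D_eval {y : ℝ} (hy : 0 ≤ y) :
    (pk (2 :: 2 :: 2 :: 2 :: L)).eval (y + L.sum + 1) =
      8 * ff (L.sum + 1) (y + L.sum + 1) *
        ∫ t in (0 : ℝ)..1, BB (al y) (be y) (ga y) y t * om L t := by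
  obtain ⟨w', q, hN⟩ := nice_om L hL
  have k1 := hL2 hL
  have k2 := hL2 k1
  have k3 := hL2 k2
  have t1 := tail L hL (y + L.sum + 1)
  have t2 := tail (2 :: L) k1 (y + L.sum + 1)
  have t3 := tail (2 :: 2 :: L) k2 (y + L.sum + 1)
  have t4 := tail (2 :: 2 :: 2 :: L) k3 (y + L.sum + 1)
  have r := rep_pk L hL (y + L.sum + 1) (by linarith)
  have e1 : y + L.sum + 1 - L.sum - 1 = y := by ring
  rw [e1] at r
  have j2 : mo 0 (om (2 :: L)) = mo 1 (om L) := tot1 hN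
  have j3 : mo 0 (om (2 :: 2 :: L)) = (mo 1 (om L) + mo 2 (om L)) / 6 := tot2 hN
  have j4 : mo 0 (om (2 :: 2 :: 2 :: L)) =
      (3 * mo 1 (om L) + 3 * mo 2 (om L) + mo 3 (om L)) / 90 := tot3 hN
  rw [r] at t1
  rw [t1, j2] at t2
  rw [t2, j3] at t3
  rw [t3, j4] at t4
  simp only [List.sum_cons] at t4
  set s := L.sum with hs
  have f2 : ff (2 + s + 1) (y + s + 1) = ff (s + 1) (y + s + 1) * (y * (y - 1)) := by
    have e : 2 + s + 1 = (s + 1) + 1 + 1 := by ring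
    rw [e, ff_succ (s + 1 + 1), ff_succ (s + 1)]
    push_cast; ring
  have f3 : ff (2 + (2 + s) + 1) (y + s + 1) = ff (s + 1) (y + s + 1) *
      (y * (y - 1) * (y - 2) * (y - 3)) := by
    have e : 2 + (2 + s) + 1 = (2 + s + 1) + 1 + 1 := by ring
    rw [e, ff_succ (2 + s + 1 + 1), ff_succ (2 + s + 1), f2]
    push_cast; ring
  have f4 : ff (2 + (2 + (2 + s)) + 1) (y + s + 1) = ff (s + 1) (y + s + 1) *
      (y * (y - 1) * (y - 2) * (y - 3) * (y - 4) * (y - 5)) := by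
    have e : 2 + (2 + (2 + s)) + 1 = (2 + (2 + s) + 1) + 1 + 1 := by ring
    rw [e, ff_succ (2 + (2 + s) + 1 + 1), ff_succ (2 + (2 + s) + 1), f3]
    push_cast; ring
  rw [f2, f3, f4] at t4
  rw [t4, int_BB hN hy]
  unfold al be ga
  ring

end

end Pool.Agent.H.MP_8cb80e_co
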