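import Mathlib
import Pool.Agent.H.MP_8cb80e_co.ClassD3

set_option autoImplicit false

/-!
# Sets ending with at least four gaps of two: conclusion
-/

namespace Pool.Agent.H.MP_8cb80e_co

open Finset Polynomial MeasureTheory intervalIntegral

section
variable {L : List ℕ} (hL : ∀ g ∈ L, 2 ≤ g)
include hL

lemma D_roots {y : ℝ} (hy : 0 < y)
    (h : (pk (2 :: 2 :: 2 :: 2 :: L)).eval (y + L.sum + 1) = 0) :
    y = 1 ∨ y = 3 ∨ y = 5 ∨ y = 7 := by
  obtain ⟨w', q, hN⟩ := nice_om L hL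
  by_contra hcon
  simp only [not_or] at hcon
  obtain ⟨h1, h3, h5, h7⟩ := hcon
  rw [D_eval hL hy.le] at h
  have hF : 0 < ff (L.sum + 1) (y + L.sum + 1) := ff_pos (by simp only [Nat.cast_add, Nat.cast_mul, Nat.cast_one, Nat.cast_ofNat]; linarith)
  have hI : ∫ t in (0 : ℝ)..1, BB (al y) (be y) (ga y) y t * om L t ≠ 0 := by
    rcases lt_or_gt_of_ne h1 with a | a
    · exact (int_BB_pos hN hy.le fun t t0 t1 => B4_pos (Or.inl ⟨hy, a⟩) t0 t1).ne'
    rcases lt_or_gt_of_ne h3 with b | b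
    · exact (int_BB_neg hN hy.le fun t t0 t1 => B4_neg (Or.inl ⟨a, b⟩) t0 t1).ne
    rcases lt_or_gt_of_ne h5 with c | c
    · exact (int_BB_pos hN hy.le fun t t0 t1 => B4_pos (Or.inr (Or.inl ⟨b, c⟩)) t0 t1).ne'
    rcases lt_or_gt_of_ne h7 with d | d
    · exact (int_BB_neg hN hy.le fun t t0 t1 => B4_neg (Or.inr ⟨c, d⟩) t0 t1).ne
    · exact (int_BB_pos hN hy.le fun t t0 t1 => B4_pos (Or.inr (Or.inr d)) t0 t1).ne'
  exact (mul_ne_zero (mul_ne_zero (by norm_num) hF.ne') hI) h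

lemma D_simple_top : ¬ (X - C ((L.sum : ℝ) + 8)) ^ 2 ∣ pk (2 :: 2 :: 2 :: 2 :: L) := by
  have k3 := hL2 (hL2 (hL2 hL))
  obtain ⟨w', q, hN⟩ := nice_om (2 :: 2 :: 2 :: L) k3
  have hm : 0 < mo 1 (om (2 :: 2 :: 2 :: L)) := mo_pos hN.cont hN.pos 1
  apply not_sq_dvd (c := 2 * mo 1 (om (2 :: 2 :: 2 :: L))) (σ := 1) (by positivity)
  intro δ h0 h1
  have es : (((2 :: 2 :: 2 :: L).sum : ℕ) : ℝ) = (L.sum : ℝ) + 6 := by
    simp only [List.sum_cons]; simp only [Nat.cast_add, Nat.cast_mul, Nat.cast_one, Nat.cast_ofNat]; ring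
  have t := tail (2 :: 2 :: 2 :: L) k3 ((L.sum : ℝ) + 8 + δ)
  have r := rep_pk (2 :: 2 :: 2 :: L) k3 ((L.sum : ℝ) + 8 + δ) (by rw [es]; linarith)
  rw [es] at r
  have e1 : (L.sum : ℝ) + 8 + δ - ((L.sum : ℝ) + 6) - 1 = 1 + δ := by ring
  rw [e1] at r
  have l1 := lam1_eq hN.cont hN.sym
  rw [Nat.cast_one] at l1
  rw [t, r, ← l1]
  have hF : 1 ≤ ff ((2 :: 2 :: 2 :: L).sum + 1) ((L.sum : ℝ) + 8 + δ) :=
    ff_ge_one (by rw [Nat.cast_add, Nat.cast_one, es]; linarith)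
  have hd := lam_diff hN h0 h1
  set F := ff ((2 :: 2 :: 2 :: L).sum + 1) ((L.sum : ℝ) + 8 + δ) with hFdef
  set A := lam 1 (om (2 :: 2 :: 2 :: L)) - lam (1 + δ) (om (2 :: 2 :: 2 :: L)) with hA
  have hA0 : 0 ≤ A := le_trans (by positivity) hd
  have hmul : A ≤ F * A := by nlinarith
  have e2 : 1 * (F * (2 * lam 1 (om (2 :: 2 :: 2 :: L))) -
      2 * (F * lam (1 + δ) (om (2 :: 2 :: 2 :: L)))) = 2 * (F * A) := by rw [hA]; ring
  rw [e2]
  linarith

lemma D_simple_low : ¬ (X - C ((L.sum : ℝ) + 2)) ^ 2 ∣ pk (2 :: 2 :: 2 :: 2 :: L) := by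
  obtain ⟨w', q, hN⟩ := nice_om L hL
  set w := om L with hw
  have m1 : 0 < mo 1 w := mo_pos hN.cont hN.pos 1
  have m2 : 0 ≤ mo 2 w := mo_nonneg hN.nonneg 2
  have m3 : 0 ≤ mo 3 w := mo_nonneg hN.nonneg 3
  have c2 : mo 2 w ≤ mo 1 w / 4 := mo_succ_le hN.cont hN.nonneg 1
  have c3 : mo 3 w ≤ mo 2 w / 4 := mo_succ_le hN.cont hN.nonneg 2
  apply not_sq_dvd (c := 4 * mo 1 w) (σ := -1) (by positivity)
  intro δ h0 h1
  have e0 : (L.sum : ℝ) + 2 + δ = (1 + δ) + L.sum + 1 := by ring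
  rw [e0, D_eval hL (by linarith), ← hw, int_BB hN (by linarith)]
  have hF : 1 ≤ ff (L.sum + 1) ((1 + δ) + L.sum + 1) := ff_ge_one (by simp only [Nat.cast_add, Nat.cast_mul, Nat.cast_one, Nat.cast_ofNat]; linarith)
  have hd := lam_diff hN h0 h1
  have l1 := lam1_eq hN.cont hN.sym
  rw [Nat.cast_one] at l1
  have ha : al (1 + δ) ≤ δ := by unfold al; nlinarith
  have hb : be (1 + δ) ≤ 0 := by
    have : be (1 + δ) = -((1 + δ) * δ * (1 - δ) * (2 - δ) / 24) := by unfold be; ring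
    rw [this]
    have : 0 ≤ (1 + δ) * δ * (1 - δ) * (2 - δ) := by
      apply mul_nonneg (mul_nonneg (mul_nonneg (by linarith) h0.le) (by linarith)) (by linarith)
    linarith
  have hg0 : ga (1 + δ) = ((1 + δ) * (1 - δ)) * ((2 - δ) * (3 - δ) * (4 - δ)) * δ / 720 := by
    unfold ga; ring
  have hg1 : 0 ≤ ga (1 + δ) := by
    rw [hg0]
    apply div_nonneg _ (by norm_num)
    apply mul_nonneg (mul_nonneg (mul_nonneg (by linarith) (by linarith)) _) h0.le
    exact mul_nonneg (mul_nonneg (by linarith) (by linarith)) (by linarith)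
  have hg2 : ga (1 + δ) ≤ δ / 30 := by
    rw [hg0]
    have a1 : (1 + δ) * (1 - δ) ≤ 1 := by nlinarith
    have a2 : (2 - δ) * (3 - δ) * (4 - δ) ≤ 24 := by
      have b1 : (2 - δ) * (3 - δ) ≤ 6 := by nlinarith
      have b2 : 0 ≤ (2 - δ) * (3 - δ) := mul_nonneg (by linarith) (by linarith)
      nlinarith
    have a3 : 0 ≤ (2 - δ) * (3 - δ) * (4 - δ) :=
      mul_nonneg (mul_nonneg (by linarith) (by linarith)) (by linarith)
    have a4 : ((1 + δ) * (1 - δ)) * ((2 - δ) * (3 - δ) * (4 - δ)) ≤ 1 * 24 :=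
      mul_le_mul a1 a2 a3 (by norm_num)
    have a5 := mul_le_mul_of_nonneg_right a4 h0.le
    linarith
  set F := ff (L.sum + 1) ((1 + δ) + L.sum + 1) with hFdef
  have q1 : al (1 + δ) * mo 1 w ≤ δ * mo 1 w := mul_le_mul_of_nonneg_right ha m1.le
  have q2 : be (1 + δ) * (mo 1 w + mo 2 w) ≤ 0 :=
    mul_nonpos_of_nonpos_of_nonneg hb (by linarith)
  have q3 : ga (1 + δ) * (3 * mo 1 w + 3 * mo 2 w + mo 3 w) ≤ δ / 30 * (4 * mo 1 w) :=
    mul_le_mul hg2 (by linarith) (by linarith) (by positivity)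
  set I := 2 * lam (1 + δ) w - mo 0 w + al (1 + δ) * mo 1 w + be (1 + δ) * (mo 1 w + mo 2 w) +
        ga (1 + δ) * (3 * mo 1 w + 3 * mo 2 w + mo 3 w) with hI
  have hpos : 0 < δ * mo 1 w := by positivity
  have hIle : I ≤ -(1 / 2 * (δ * mo 1 w)) := by rw [hI]; linarith
  have : F * I ≤ -(1 / 2 * (δ * mo 1 w)) := by nlinarith
  have e3 : -1 * (8 * F * I) = -8 * (F * I) := by ring
  rw [e3]
  linarith

/-- The values of the polynomial at the odd places. -/
lemma D_values :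
    (pk (2 :: 2 :: 2 :: 2 :: L)).eval ((L.sum : ℝ) + 7) =
      -((L.sum + 7).factorial * mo 0 (om (2 :: 2 :: 2 :: L))) ∧
    (pk (2 :: 2 :: 2 :: 2 :: L)).eval ((L.sum : ℝ) + 5) =
      2 * ((L.sum + 5).factorial * mo 0 (om (2 :: 2 :: L))) ∧
    (pk (2 :: 2 :: 2 :: 2 :: L)).eval ((L.sum : ℝ) + 3) =
      -4 * ((L.sum + 3).factorial * mo 0 (om (2 :: L))) ∧
    (pk (2 :: 2 :: 2 :: 2 :: L)).eval ((L.sum : ℝ) + 1) =
      8 * ((L.sum + 1).factorial * mo 0 (om L)) := by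
  have k1 := hL2 hL
  have k2 := hL2 k1
  have k3 := hL2 k2
  have s1 : (2 :: L).sum = L.sum + 2 := by rw [List.sum_cons]; ring
  have s2 : (2 :: 2 :: L).sum = L.sum + 4 := by rw [List.sum_cons, s1]; ring
  have s3 : (2 :: 2 :: 2 :: L).sum = L.sum + 6 := by rw [List.sum_cons, s2]; ring
  have n1 := tail_next L hL
  have n2 := tail_next (2 :: L) k1
  have n3 := tail_next (2 :: 2 :: L) k2
  have n4 := tail_next (2 :: 2 :: 2 :: L) k3
  rw [s1] at n2
  rw [s2] at n3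
  rw [s3] at n4
  have c7 : ((L.sum + 6 + 1 : ℕ) : ℝ) = (L.sum : ℝ) + 7 := by simp only [Nat.cast_add, Nat.cast_mul, Nat.cast_one, Nat.cast_ofNat]; ring
  have c5 : ((L.sum + 4 + 1 : ℕ) : ℝ) = (L.sum : ℝ) + 5 := by simp only [Nat.cast_add, Nat.cast_mul, Nat.cast_one, Nat.cast_ofNat]; ring
  have c3 : ((L.sum + 2 + 1 : ℕ) : ℝ) = (L.sum : ℝ) + 3 := by simp only [Nat.cast_add, Nat.cast_mul, Nat.cast_one, Nat.cast_ofNat]; ring
  have c1 : ((L.sum + 1 : ℕ) : ℝ) = (L.sum : ℝ) + 1 := by simp only [Nat.cast_add, Nat.cast_mul, Nat.cast_one, Nat.cast_ofNat]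
  have a5 := tail_low (2 :: 2 :: 2 :: L) k3 (n := L.sum + 4 + 1) (by rw [s3]; omega)
  have a3 := tail_low (2 :: 2 :: 2 :: L) k3 (n := L.sum + 2 + 1) (by rw [s3]; omega)
  have a1 := tail_low (2 :: 2 :: 2 :: L) k3 (n := L.sum + 1) (by rw [s3]; omega)
  have b3 := tail_low (2 :: 2 :: L) k2 (n := L.sum + 2 + 1) (by rw [s2]; omega)
  have b1 := tail_low (2 :: 2 :: L) k2 (n := L.sum + 1) (by rw [s2]; omega)
  have d1 := tail_low (2 :: L) k1 (n := L.sum + 1) (by rw [s1]; omega)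
  rw [c7] at n4
  rw [n3, c5] at a5
  rw [b3, n2, c3] at a3
  rw [b1, d1, n1, c1] at a1
  refine ⟨n4, ?_, ?_, ?_⟩
  · rw [a5]; ring
  · rw [a3]; ring
  · rw [a1]; ring

/-- The known roots of the polynomial. -/
lemma D_known (hne : L ≠ []) :
    (pk (2 :: 2 :: 2 :: 2 :: L)).eval ((L.sum : ℝ) + 8) = 0 ∧
    (pk (2 :: 2 :: 2 :: 2 :: L)).eval ((L.sum : ℝ) + 6) = 0 ∧
    (pk (2 :: 2 :: 2 :: 2 :: L)).eval ((L.sum : ℝ) + 4) = 0 ∧
    (pk (2 :: 2 :: 2 :: 2 :: L)).eval ((L.sum : ℝ) + 2) = 0 ∧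
    (pk (2 :: 2 :: 2 :: 2 :: L)).eval (L.sum : ℝ) = 0 := by
  have k1 := hL2 hL
  have k2 := hL2 k1
  have k3 := hL2 k2
  have k4 := hL2 k3
  have s1 : (2 :: L).sum = L.sum + 2 := by rw [List.sum_cons]; ring
  have s2 : (2 :: 2 :: L).sum = L.sum + 4 := by rw [List.sum_cons, s1]; ring
  have s3 : (2 :: 2 :: 2 :: L).sum = L.sum + 6 := by rw [List.sum_cons, s2]; ring
  have s4 : (2 :: 2 :: 2 :: 2 :: L).sum = L.sum + 8 := by rw [List.sum_cons, s3]; ring
  have p0 := pk_sum L hL hne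
  have p1 := pk_sum (2 :: L) k1 (by simp)
  have p2 := pk_sum (2 :: 2 :: L) k2 (by simp)
  have p3 := pk_sum (2 :: 2 :: 2 :: L) k3 (by simp)
  have p4 := pk_sum (2 :: 2 :: 2 :: 2 :: L) k4 (by simp)
  rw [s1] at p1
  rw [s2] at p2
  rw [s3] at p3
  rw [s4] at p4
  have q3 := pk_inherit (g := 2) (by rw [s3]) p3
  have q2 := pk_inherit (g := 2) (L := 2 :: 2 :: 2 :: L) (by rw [s3]; omega)
    (pk_inherit (g := 2) (by rw [s2]) p2)
  have q1 := pk_inherit (g := 2) (L := 2 :: 2 :: 2 :: L) (by rw [s3]; omega)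
    (pk_inherit (g := 2) (L := 2 :: 2 :: L) (by rw [s2]; omega)
      (pk_inherit (g := 2) (by rw [s1]) p1))
  have q0 := pk_inherit (g := 2) (L := 2 :: 2 :: 2 :: L) (by rw [s3]; omega)
    (pk_inherit (g := 2) (L := 2 :: 2 :: L) (by rw [s2]; omega)
      (pk_inherit (g := 2) (L := 2 :: L) (by rw [s1]; omega) (pk_inherit (g := 2) le_rfl p0)))
  have c8 : ((L.sum + 8 : ℕ) : ℝ) = (L.sum : ℝ) + 8 := by simp only [Nat.cast_add, Nat.cast_mul, Nat.cast_one, Nat.cast_ofNat]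
  have c6 : ((L.sum + 6 : ℕ) : ℝ) = (L.sum : ℝ) + 6 := by simp only [Nat.cast_add, Nat.cast_mul, Nat.cast_one, Nat.cast_ofNat]
  have c4 : ((L.sum + 4 : ℕ) : ℝ) = (L.sum : ℝ) + 4 := by simp only [Nat.cast_add, Nat.cast_mul, Nat.cast_one, Nat.cast_ofNat]
  have c2 : ((L.sum + 2 : ℕ) : ℝ) = (L.sum : ℝ) + 2 := by simp only [Nat.cast_add, Nat.cast_mul, Nat.cast_one, Nat.cast_ofNat]
  rw [c8] at p4
  rw [c6] at q3
  rw [c4] at q2
  rw [c2] at q1
  exact ⟨p4, q3, q2, q1, q0⟩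

/-- The core of the argument. -/
lemma D_core (hne : L ≠ []) (hp : (pk (2 :: 2 :: 2 :: 2 :: L)).Splits) (extra : List ℝ)
    (hnd : (((L.sum : ℝ) + 8) :: ((L.sum : ℝ) + 6) :: ((L.sum : ℝ) + 4) :: ((L.sum : ℝ) + 2) ::
      (L.sum : ℝ) :: extra).Nodup)
    (hx : ∀ r ∈ extra, (pk (2 :: 2 :: 2 :: 2 :: L)).eval r = 0) {E7 E5 E3 E1 : ℝ}
    (h7 : (extra.map fun r => X - C r).prod.eval ((L.sum : ℝ) + 7) = E7)
    (h5 : (extra.map fun r => X - C r).prod.eval ((L.sum : ℝ) + 5) = E5)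
    (h3 : (extra.map fun r => X - C r).prod.eval ((L.sum : ℝ) + 3) = E3)
    (h1 : (extra.map fun r => X - C r).prod.eval ((L.sum : ℝ) + 1) = E1)
    (p7 : 0 < E7) (p5 : 0 < E5) (p3 : 0 < E3) (p1 : 0 < E1)
    (hm : (E5 ^ 3 * E1) * (mo 0 (om (2 :: 2 :: 2 :: L)) * mo 0 (om (2 :: L)) ^ 3) ≤
      (E7 * E3 ^ 3) * (mo 0 (om (2 :: 2 :: L)) ^ 3 * mo 0 (om L))) : False := by
  have hLs0 : (0 : ℝ) ≤ L.sum := Nat.cast_nonneg _
  obtain ⟨v7, v5, v3, v1⟩ := D_values hL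
  obtain ⟨r8, r6, r4, r2, r0⟩ := D_known hL hne
  have hD := fun (y : ℝ) (hy : 0 < y) => D_roots hL hy
  have hT := D_simple_top hL
  have hB := D_simple_low hL
  have k1 := hL2 hL
  have k2 := hL2 k1
  have k3 := hL2 k2
  have m0 : 0 < mo 0 (om L) := by
    obtain ⟨w', q, hN⟩ := nice_om L hL; exact mo_pos hN.cont hN.pos 0
  have m1 : 0 < mo 0 (om (2 :: L)) := by
    obtain ⟨w', q, hN⟩ := nice_om _ k1; exact mo_pos hN.cont hN.pos 0
  have m2 : 0 < mo 0 (om (2 :: 2 :: L)) := by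
    obtain ⟨w', q, hN⟩ := nice_om _ k2; exact mo_pos hN.cont hN.pos 0
  have m3 : 0 < mo 0 (om (2 :: 2 :: 2 :: L)) := by
    obtain ⟨w', q, hN⟩ := nice_om _ k3; exact mo_pos hN.cont hN.pos 0
  have g3 : ((L.sum + 3).factorial : ℝ) = ((L.sum : ℝ) + 3) * (L.sum + 2) * (L.sum + 1).factorial := by
    rw [Nat.factorial_succ (L.sum + 2), Nat.factorial_succ (L.sum + 1)]
    simp only [Nat.cast_add, Nat.cast_mul, Nat.cast_one, Nat.cast_ofNat]; ring
  have g5 : ((L.sum + 5).factorial : ℝ) = ((L.sum : ℝ) + 5) * (L.sum + 4) *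
      (((L.sum : ℝ) + 3) * (L.sum + 2) * (L.sum + 1).factorial) := by
    rw [Nat.factorial_succ (L.sum + 4), Nat.factorial_succ (L.sum + 3)]
    simp only [Nat.cast_mul, g3]
    simp only [Nat.cast_add, Nat.cast_mul, Nat.cast_one, Nat.cast_ofNat]; ring
  have g7 : ((L.sum + 7).factorial : ℝ) = ((L.sum : ℝ) + 7) * (L.sum + 6) *
      (((L.sum : ℝ) + 5) * (L.sum + 4) *
      (((L.sum : ℝ) + 3) * (L.sum + 2) * (L.sum + 1).factorial)) := by
    rw [Nat.factorial_succ (L.sum + 6), Nat.factorial_succ (L.sum + 5)]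
    simp only [Nat.cast_mul, g5]
    simp only [Nat.cast_add, Nat.cast_mul, Nat.cast_one, Nat.cast_ofNat]; ring
  have hΦ : (0 : ℝ) < (L.sum + 1).factorial := by exact_mod_cast Nat.factorial_pos _
  rw [g7] at v7
  rw [g5] at v5
  rw [g3] at v3
  set p := pk (2 :: 2 :: 2 :: 2 :: L) with hpdef
  set M0 := mo 0 (om L) with hM0
  set M1 := mo 0 (om (2 :: L)) with hM1
  set M2 := mo 0 (om (2 :: 2 :: L)) with hM2
  set M3 := mo 0 (om (2 :: 2 :: 2 :: L)) with hM3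
  set Φ := ((L.sum + 1).factorial : ℝ) with hΦdef
  set s := (L.sum : ℝ) with hs
  obtain ⟨P, hP⟩ := exists_factor_list (p := p) _ hnd (by
    intro r hr
    simp only [List.mem_cons] at hr
    rcases hr with rfl | rfl | rfl | rfl | rfl | hr
    · exact r8
    · exact r6
    · exact r4
    · exact r2
    · exact r0
    · exact hx r hr)
  have hp0 : p ≠ 0 := by
    intro h
    rw [h, eval_zero] at v1
    have : 0 < 8 * (Φ * M0) := by positivity
    linarith
  have hPs : P.Splits := hp.of_dvd hp0 ⟨_, by rw [hP, mul_comm]⟩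
  have hev : ∀ x, p.eval x = (x - (s + 8)) * (x - (s + 6)) * (x - (s + 4)) * (x - (s + 2)) *
      (x - s) * (extra.map fun r => X - C r).prod.eval x * P.eval x := by
    intro x
    rw [hP]
    simp only [List.map_cons, List.prod_cons, eval_mul, eval_sub, eval_X, eval_C]
    ring
  have hlc := lc4 hPs (s + 8) (by
    intro r hr
    by_contra hcon
    simp only [not_or, not_le] at hcon
    obtain ⟨c1, c2, c3⟩ := hcon
    have hpr : p.eval r = 0 := by rw [hev, hr, mul_zero]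
    have e : r = (r - s - 1) + s + 1 := by ring
    have h4 := hD (r - s - 1) (by linarith) (by rw [← e]; exact hpr)
    rcases h4 with h | h | h | h
    · have hr2 : r = s + 2 := by linarith
      apply hB
      rw [hP]
      exact sq_dvd_of (by simp) (by rw [← hr2]; exact hr)
    · apply c2; linarith
    · apply c1; linarith
    · have hr2 : r = s + 8 := by linarith
      apply hT
      rw [hP]
      exact sq_dvd_of (by simp) (by rw [← hr2]; exact hr))
  have x1 : s + 8 - 3 = s + 5 := by ring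
  have x2 : s + 8 - 7 = s + 1 := by ring
  have x3 : s + 8 - 1 = s + 7 := by ring
  have x4 : s + 8 - 5 = s + 3 := by ring
  rw [x1, x2, x3, x4] at hlc
  rw [hev, h7] at v7
  rw [hev, h5] at v5
  rw [hev, h3] at v3
  rw [hev, h1] at v1
  have w7 : P.eval (s + 7) = (s + 7) * (s + 6) * ((s + 5) * (s + 4) * ((s + 3) * (s + 2) * Φ)) * M3
      / (105 * E7) := by
    rw [eq_div_iff (by positivity)]
    linear_combination -v7
  have w5 : P.eval (s + 5) = 2 * ((s + 5) * (s + 4) * ((s + 3) * (s + 2) * Φ)) * M2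
      / (45 * E5) := by
    rw [eq_div_iff (by positivity)]
    linear_combination v5
  have w3 : P.eval (s + 3) = 4 * ((s + 3) * (s + 2) * Φ) * M1 / (45 * E3) := by
    rw [eq_div_iff (by positivity)]
    linear_combination -v3
  have w1 : P.eval (s + 1) = 8 * Φ * M0 / (105 * E1) := by
    rw [eq_div_iff (by positivity)]
    linear_combination v1
  rw [w7, w5, w3, w1, abs_of_pos (by positivity), abs_of_pos (by positivity),
    abs_of_pos (by positivity), abs_of_pos (by positivity)] at hlc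
  apply algD hLs0 hΦ m0 m2 (by positivity : 0 < E7 * E3 ^ 3) _ hm
  have hc : (0 : ℝ) < 45 ^ 3 * 105 * (E7 * E3 ^ 3) * (E5 ^ 3 * E1) / 64 := by positivity
  have hlc' := mul_le_mul_of_nonneg_left hlc hc.le
  have l1 : 45 ^ 3 * 105 * (E7 * E3 ^ 3) * (E5 ^ 3 * E1) / 64 *
      ((2 * ((s + 5) * (s + 4) * ((s + 3) * (s + 2) * Φ)) * M2 / (45 * E5)) ^ 3 *
        (8 * Φ * M0 / (105 * E1))) = E7 * E3 ^ 3 *
        (((s + 5) * (s + 4) * (s + 3) * (s + 2) * Φ * M2) ^ 3 * (Φ * M0)) := by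
    field_simp
    ring
  have l2 : 45 ^ 3 * 105 * (E7 * E3 ^ 3) * (E5 ^ 3 * E1) / 64 *
      ((s + 7) * (s + 6) * ((s + 5) * (s + 4) * ((s + 3) * (s + 2) * Φ)) * M3
      / (105 * E7) * (4 * ((s + 3) * (s + 2) * Φ) * M1 / (45 * E3)) ^ 3) = E5 ^ 3 * E1 *
      (((s + 7) * (s + 6) * (s + 5) * (s + 4) * (s + 3) * (s + 2) * Φ * M3) *
        ((s + 3) * (s + 2) * Φ * M1) ^ 3) := by
    field_simp
    ring
  rw [l1, l2] at hlc'
  exact hlc'

end

/-- Sets ending with at least four gaps of two, and one more gap. -/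
theorem classD (L : List ℕ) (hL : ∀ g ∈ L, 2 ≤ g) (hne : L ≠ []) :
    ¬ (pk (2 :: 2 :: 2 :: 2 :: L)).Splits := by
  intro hp
  obtain ⟨g, L6, rfl⟩ := List.exists_cons_of_ne_nil hne
  have hL6 : ∀ x ∈ L6, 2 ≤ x := fun x hx => hL x (List.mem_cons_of_mem _ hx)
  have hg : 2 ≤ g := hL g List.mem_cons_self
  obtain ⟨w', q, hN⟩ := nice_om L6 hL6
  have hNw := nice_Wop hN g hg
  have z0 : Wop g (om L6) 0 = 0 := Wop_zero' hN g
  have z1 : Wop g (om L6) 1 = 0 := Wop_one' g _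
  by_cases hcase : g = 2 ∧ L6 ≠ []
  · obtain ⟨rfl, hne6⟩ := hcase
    have hm := moment_ineq_two hNw z0 z1
    have k1 := hL2 hL6
    have k2 := hL2 k1
    have k3 := hL2 k2
    have s0 : (2 :: L6).sum = L6.sum + 2 := by rw [List.sum_cons]; ring
    have s1 : (2 :: 2 :: L6).sum = L6.sum + 4 := by rw [List.sum_cons, s0]; ring
    have s2 : (2 :: 2 :: 2 :: L6).sum = L6.sum + 6 := by rw [List.sum_cons, s1]; ring
    have s3 : (2 :: 2 :: 2 :: 2 :: L6).sum = L6.sum + 8 := by rw [List.sum_cons, s2]; ring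
    have hroot : (pk (2 :: 2 :: 2 :: 2 :: 2 :: L6)).eval (L6.sum : ℝ) = 0 := by
      apply pk_inherit (by rw [s3]; omega)
      apply pk_inherit (by rw [s2]; omega)
      apply pk_inherit (by rw [s1]; omega)
      apply pk_inherit (by rw [s0]; omega)
      exact pk_inherit le_rfl (pk_sum L6 hL6 hne6)
    have hs : (((2 :: L6).sum : ℕ) : ℝ) = (L6.sum : ℝ) + 2 := by rw [s0]; simp only [Nat.cast_add, Nat.cast_mul, Nat.cast_one, Nat.cast_ofNat]
    refine D_core hL (by simp) hp [(L6.sum : ℝ)] ?_ ?_ (E7 := 9) (E5 := 7) (E3 := 5) (E1 := 3)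
      ?_ ?_ ?_ ?_ (by norm_num) (by norm_num) (by norm_num) (by norm_num) ?_
    · rw [hs]
      have e : ∀ a : ℝ, ([a + 2 + 8, a + 2 + 6, a + 2 + 4, a + 2 + 2, a + 2, a] : List ℝ) =
          [10, 8, 6, 4, 2, 0].map (fun x : ℝ => a + x) := by
        intro a
        simp only [List.map_cons, List.map_nil, add_zero]
        norm_num [add_assoc]
      rw [e]
      refine List.Nodup.map (add_right_injective _) ?_
      norm_num
    · intro r hr
      rw [List.mem_singleton] at hr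
      rw [hr]; exact hroot
    · rw [hs]; simp; ring
    · rw [hs]; simp; ring
    · rw [hs]; simp; ring
    · rw [hs]; simp; ring
    · norm_num
      exact hm
  · have hq : mo 2 (qop g (om L6)) ≤ 1 / 5 * mo 1 (qop g (om L6)) := by
      rcases Nat.lt_or_ge g 3 with h | h
      · have hg2 : g = 2 := by omega
        subst hg2
        have h6 : L6 = [] := by
          by_contra h6
          exact hcase ⟨rfl, h6⟩
        subst h6
        refine mo_small (q' := fun _ => 0) (q'' := fun _ => 0) (fun t => ?_)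
          (fun t => hasDerivAt_const t 0) continuous_const (fun _ _ _ => le_rfl)
        have : qop 2 (om []) = fun _ => 2 := by
          funext t
          rw [qop_two]
          simp [om]
        rw [this]
        exact hasDerivAt_const t 2
      · exact qop_small hN g h
    have hm := moment_ineq_one hNw z0 z1 hq
    refine D_core hL (by simp) hp [] ?_ ?_ (E7 := 1) (E5 := 1) (E3 := 1) (E1 := 1)
      ?_ ?_ ?_ ?_ (by norm_num) (by norm_num) (by norm_num) (by norm_num) ?_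
    · have e : ∀ a : ℝ, ([a + 8, a + 6, a + 4, a + 2, a] : List ℝ) =
          [8, 6, 4, 2, 0].map (fun x : ℝ => a + x) := by
        intro a
        simp only [List.map_cons, List.map_nil, add_zero]
      rw [e]
      refine List.Nodup.map (add_right_injective _) ?_
      norm_num
    · intro r hr
      exact absurd hr List.not_mem_nil
    · simp
    · simp
    · simp
    · simp
    · norm_num
      exact hm

end Pool.Agent.H.MP_8cb80e_co
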