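import Mathlib
import Pool.Agent.H.MP_8cb80e_co.ClassD2
import Pool.Agent.H.MP_8cb80e_co.Block1
import Pool.Agent.H.MP_8cb80e_co.RealRoot

set_option autoImplicit false

/-!
# Small cases and gaps of three
-/

namespace Pool.Agent.H.MP_8cb80e_co

open Finset Polynomial MeasureTheory intervalIntegral

lemma mo_one_all : mo 0 (fun _ => (1 : ℝ)) = 1 ∧ mo 1 (fun _ => (1 : ℝ)) = 1 / 6 ∧
    mo 2 (fun _ => (1 : ℝ)) = 1 / 30 ∧ mo 3 (fun _ => (1 : ℝ)) = 1 / 140 := by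
  have h1 : ∀ t : ℝ, HasDerivAt (fun _ : ℝ => (1 : ℝ)) ((fun _ => (0 : ℝ)) t) t :=
    fun t => hasDerivAt_const t 1
  have h2 : ∀ t : ℝ, HasDerivAt (fun _ : ℝ => (0 : ℝ)) (-(fun _ => (0 : ℝ)) t) t := by
    intro t
    simp only [neg_zero]
    exact hasDerivAt_const t 0
  have z : ∀ k, mo k (fun _ => (0 : ℝ)) = 0 := by intro k; unfold mo; simp
  have e0 : mo 0 (fun _ => (1 : ℝ)) = 1 := by rw [mo_zero]; simp
  have g1 := green_mo 0 1 0 0 h1 h2 continuous_const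
  have g2 := green_mo 0 0 1 0 h1 h2 continuous_const
  have g3 := green_mo 0 0 0 1 h1 h2 continuous_const
  simp only [z] at g1 g2 g3
  refine ⟨e0, ?_, ?_, ?_⟩ <;> linarith

lemma mo_const_all (κ : ℝ) : mo 0 (fun _ => κ) = κ ∧ mo 1 (fun _ => κ) = κ / 6 ∧
    mo 2 (fun _ => κ) = κ / 30 ∧ mo 3 (fun _ => κ) = κ / 140 := by
  obtain ⟨a0, a1, a2, a3⟩ := mo_one_all
  have e : (fun _ : ℝ => κ) = fun t => κ * (fun _ => (1 : ℝ)) t := by funext t; simp
  rw [e]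
  simp only [mo_const_mul]
  rw [a0, a1, a2, a3]
  refine ⟨by ring, by ring, by ring, by ring⟩

lemma ff_one (x : ℝ) : ff 1 x = x := by rw [ff_succ, ff_zero]; simp

lemma E1_eval (x : ℝ) : (pk [2]).eval x = x - 2 := by
  have t := tail [] (by simp) x
  have e : om [] = fun _ => (1 : ℝ) := rfl
  rw [t, e, mo_one_all.1]
  simp [ff_one, pk]

lemma E2_eval (x : ℝ) : (pk [2, 2]).eval x = (x - 2) * (x - 4) * (x + 3) / 6 := by
  have t := tail [2] (by simp) x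
  have e : mo 0 (om [2]) = 1 / 6 := by
    have : mo 0 (om [2]) = mo 1 (fun _ => (1 : ℝ)) := tot1 nice_one
    rw [this, mo_one_all.2.1]
  have f : ff ([2].sum + 1) x = x * (x - 1) * (x - 2) := by
    have : [2].sum + 1 = 1 + 1 + 1 := rfl
    rw [this, ff_succ, ff_succ, ff_one]
    push_cast; ring
  rw [t, e, f, E1_eval]
  ring

lemma E3_eval (x : ℝ) : (pk [2, 2, 2]).eval x =
    (x - 2) * (x - 4) * (x - 6) * (x ^ 2 + 2 * x + 5) / 30 := by
  have t := tail [2, 2] (by simp) x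
  have e : mo 0 (om [2, 2]) = 1 / 30 := by
    have : mo 0 (om [2, 2]) = (mo 1 (fun _ => (1 : ℝ)) + mo 2 (fun _ => (1 : ℝ))) / 6 :=
      tot2 nice_one
    rw [this, mo_one_all.2.1, mo_one_all.2.2.1]
    norm_num
  have f : ff ([2, 2].sum + 1) x = x * (x - 1) * (x - 2) * (x - 3) * (x - 4) := by
    have : [2, 2].sum + 1 = 1 + 1 + 1 + 1 + 1 := rfl
    rw [this, ff_succ, ff_succ, ff_succ, ff_succ, ff_one]
    push_cast; ring
  rw [t, e, f, E2_eval]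
  ring

lemma E4_eval (x : ℝ) : (pk [2, 2, 2, 2]).eval x =
    (x - 2) * (x - 4) * (x - 6) * (x - 8) * (17 * x ^ 3 - 17 * x ^ 2 + 87 * x + 105) / 2520 := by
  have t := tail [2, 2, 2] (by simp) x
  have e : mo 0 (om [2, 2, 2]) = 17 / 2520 := by
    have : mo 0 (om [2, 2, 2]) = (3 * mo 1 (fun _ => (1 : ℝ)) + 3 * mo 2 (fun _ => (1 : ℝ)) +
      mo 3 (fun _ => (1 : ℝ))) / 90 := tot3 nice_one
    rw [this, mo_one_all.2.1, mo_one_all.2.2.1, mo_one_all.2.2.2]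
    norm_num
  have f : ff ([2, 2, 2].sum + 1) x =
      x * (x - 1) * (x - 2) * (x - 3) * (x - 4) * (x - 5) * (x - 6) := by
    have : [2, 2, 2].sum + 1 = 1 + 1 + 1 + 1 + 1 + 1 + 1 := rfl
    rw [this, ff_succ, ff_succ, ff_succ, ff_succ, ff_succ, ff_succ, ff_one]
    push_cast; ring
  rw [t, e, f, E3_eval]
  ring

/-- The total masses after a gap of three. -/
lemma three_moments {w w' q : ℝ → ℝ} (h : Nice w w' q) :
    mo 0 (Wop 3 w) = mo 0 w / 12 ∧ mo 0 (Wop 2 (Wop 3 w)) = mo 0 w / 60 ∧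
    mo 0 (Wop 2 (Wop 2 (Wop 3 w))) = 17 * mo 0 w / 5040 := by
  have hN := nice_Wop h 3 (by norm_num)
  obtain ⟨a0, a1, a2, a3⟩ := mo_of_q hN (Wop_zero' h 3) (Wop_one' 3 w)
  have hq : qop 3 w = fun _ => mo 0 w := by
    funext t
    have := Iop_add_Jop h.cont t
    rw [mo_zero]
    exact this
  obtain ⟨b0, b1, b2, b3⟩ := mo_const_all (mo 0 w)
  rw [hq, b1] at a0
  rw [hq, b1, b2] at a1
  rw [hq, b1, b2, b3] at a2
  refine ⟨by rw [a0]; ring, ?_, ?_⟩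
  · rw [tot1 hN, a1]; ring
  · rw [tot2 hN, a1, a2]; ring

section
variable (L : List ℕ) (hL : ∀ g ∈ L, 2 ≤ g)
include hL

lemma h3L : ∀ g ∈ 3 :: L, 2 ≤ g := by
  intro g hg
  rcases List.mem_cons.mp hg with rfl | hg
  · norm_num
  · exact hL g hg

lemma h23L : ∀ g ∈ 2 :: 3 :: L, 2 ≤ g := by
  intro g hg
  rcases List.mem_cons.mp hg with rfl | hg
  · norm_num
  · exact h3L L hL g hg

lemma h223L : ∀ g ∈ 2 :: 2 :: 3 :: L, 2 ≤ g := by
  intro g hg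
  rcases List.mem_cons.mp hg with rfl | hg
  · norm_num
  · exact h23L L hL g hg

lemma T1_eval (x : ℝ) : (pk (3 :: L)).eval x =
    mo 0 (om L) / 2 * ff (L.sum + 1) x * (x - (L.sum + 1) - 2) := by
  obtain ⟨w', q, hN⟩ := nice_om L hL
  have h : pk (3 :: L) = C ((pk L).eval ((L.sum + 1 + 1 : ℕ) : ℝ)) * bn (L.sum + 1 + 1) -
      2 * pk L - pk (2 :: L) := rfl
  have hv : (pk L).eval ((L.sum + 1 + 1 : ℕ) : ℝ) = (L.sum + 1 + 1).factorial *
      (mo 0 (om L) / 2) := by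
    have h1 := rep_value (rep_pk L hL) 2 (by norm_num)
    have e1 : ((2 : ℕ) : ℝ) - 1 = ((1 : ℕ) : ℝ) := by norm_num
    have e2 : ((2 - 1).factorial : ℝ) = 1 := by norm_num
    have h2 := lam1_eq hN.cont hN.sym
    rw [e1, e2, mul_one] at h1
    have h3 : lam ((1 : ℕ) : ℝ) (om L) = mo 0 (om L) / 2 := by rw [← h2]; ring
    rw [h3] at h1
    exact h1
  rw [h]
  simp only [eval_sub, eval_mul, eval_C, eval_ofNat, bn_eval]
  rw [tail L hL, hv, ff_succ (L.sum + 1)]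
  have h3 : ((L.sum + 1 + 1).factorial : ℝ) ≠ 0 := by exact_mod_cast Nat.factorial_ne_zero _
  field_simp
  simp only [Nat.cast_add, Nat.cast_one]
  ring

lemma T2_eval (x : ℝ) : (pk (2 :: 3 :: L)).eval x =
    mo 0 (om L) / 12 * ff (L.sum + 1) x * ((x - (L.sum + 1) - 2) * (x - (L.sum + 1) - 4) *
      (x - (L.sum + 1) + 3)) := by
  obtain ⟨w', q, hN⟩ := nice_om L hL
  have t := tail (3 :: L) (h3L L hL) x
  have e : mo 0 (om (3 :: L)) = mo 0 (om L) / 12 := (three_moments hN).1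
  have f : ff ((3 :: L).sum + 1) x = ff (L.sum + 1) x *
      ((x - (L.sum + 1)) * (x - (L.sum + 1) - 1) * (x - (L.sum + 1) - 2)) := by
    have : (3 :: L).sum + 1 = L.sum + 1 + 1 + 1 + 1 := by rw [List.sum_cons]; ring
    rw [this, ff_succ (L.sum + 1 + 1 + 1), ff_succ (L.sum + 1 + 1), ff_succ (L.sum + 1)]
    simp only [Nat.cast_add, Nat.cast_one]
    ring
  rw [t, e, f, T1_eval L hL]
  ring

lemma T3_eval (x : ℝ) : (pk (2 :: 2 :: 3 :: L)).eval x =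
    mo 0 (om L) / 60 * ff (L.sum + 1) x * ((x - (L.sum + 1) - 2) * (x - (L.sum + 1) - 4) *
      (x - (L.sum + 1) - 6)) * ((x - (L.sum + 1)) ^ 2 + 2 * (x - (L.sum + 1)) + 5) := by
  obtain ⟨w', q, hN⟩ := nice_om L hL
  have t := tail (2 :: 3 :: L) (h23L L hL) x
  have e : mo 0 (om (2 :: 3 :: L)) = mo 0 (om L) / 60 := (three_moments hN).2.1
  have f : ff ((2 :: 3 :: L).sum + 1) x = ff (L.sum + 1) x *
      ((x - (L.sum + 1)) * (x - (L.sum + 1) - 1) * (x - (L.sum + 1) - 2) *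
        (x - (L.sum + 1) - 3) * (x - (L.sum + 1) - 4)) := by
    have : (2 :: 3 :: L).sum + 1 = L.sum + 1 + 1 + 1 + 1 + 1 + 1 := by
      rw [List.sum_cons, List.sum_cons]; ring
    rw [this, ff_succ (L.sum + 1 + 1 + 1 + 1 + 1), ff_succ (L.sum + 1 + 1 + 1 + 1),
      ff_succ (L.sum + 1 + 1 + 1), ff_succ (L.sum + 1 + 1), ff_succ (L.sum + 1)]
    simp only [Nat.cast_add, Nat.cast_one]
    ring
  rw [t, e, f, T2_eval L hL]
  ring

lemma T4_eval (x : ℝ) : (pk (2 :: 2 :: 2 :: 3 :: L)).eval x =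
    mo 0 (om L) / 5040 * ff (L.sum + 1) x * ((x - (L.sum + 1) - 2) * (x - (L.sum + 1) - 4) *
      (x - (L.sum + 1) - 6) * (x - (L.sum + 1) - 8)) * (17 * (x - (L.sum + 1)) ^ 3 -
        17 * (x - (L.sum + 1)) ^ 2 + 87 * (x - (L.sum + 1)) + 105) := by
  obtain ⟨w', q, hN⟩ := nice_om L hL
  have t := tail (2 :: 2 :: 3 :: L) (h223L L hL) x
  have e : mo 0 (om (2 :: 2 :: 3 :: L)) = 17 * mo 0 (om L) / 5040 := (three_moments hN).2.2
  have f : ff ((2 :: 2 :: 3 :: L).sum + 1) x = ff (L.sum + 1) x *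
      ((x - (L.sum + 1)) * (x - (L.sum + 1) - 1) * (x - (L.sum + 1) - 2) *
        (x - (L.sum + 1) - 3) * (x - (L.sum + 1) - 4) * (x - (L.sum + 1) - 5) *
        (x - (L.sum + 1) - 6)) := by
    have : (2 :: 2 :: 3 :: L).sum + 1 = L.sum + 1 + 1 + 1 + 1 + 1 + 1 + 1 + 1 := by
      rw [List.sum_cons, List.sum_cons, List.sum_cons]; ring
    rw [this, ff_succ (L.sum + 1 + 1 + 1 + 1 + 1 + 1 + 1), ff_succ (L.sum + 1 + 1 + 1 + 1 + 1 + 1),
      ff_succ (L.sum + 1 + 1 + 1 + 1 + 1), ff_succ (L.sum + 1 + 1 + 1 + 1),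
      ff_succ (L.sum + 1 + 1 + 1), ff_succ (L.sum + 1 + 1), ff_succ (L.sum + 1)]
    simp only [Nat.cast_add, Nat.cast_one]
    ring
  rw [t, e, f, T3_eval L hL]
  ring

end

lemma not_splits_quad {p A : ℝ[X]} {d : ℝ} (hp0 : p ≠ 0)
    (h : ∀ x, p.eval x = A.eval x * ((x - d) ^ 2 + 2 * (x - d) + 5)) : ¬ p.Splits := by
  intro hp
  set B : ℝ[X] := (X - C d) ^ 2 + C 2 * (X - C d) + C 5 with hB
  have hBe : ∀ x, B.eval x = (x - d) ^ 2 + 2 * (x - d) + 5 := by intro x; simp [hB]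
  have hfac : p = A * B := by
    apply Polynomial.funext
    intro x
    rw [eval_mul, hBe, h]
  have hBs : B.Splits := hp.of_dvd hp0 ⟨A, by rw [hfac, mul_comm]⟩
  have hlc := lc3 hBs (d - 1) (by
    intro r hr
    exfalso
    rw [hBe] at hr
    nlinarith [sq_nonneg (r - d + 1)])
  rw [hBe, hBe, hBe] at hlc
  have e1 : (d - 1 - 1 - d) ^ 2 + 2 * (d - 1 - 1 - d) + 5 = 5 := by ring
  have e2 : (d - 1 + 1 - d) ^ 2 + 2 * (d - 1 + 1 - d) + 5 = 5 := by ring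
  have e3 : (d - 1 - d) ^ 2 + 2 * (d - 1 - d) + 5 = 4 := by ring
  rw [e1, e2, e3] at hlc
  norm_num at hlc

lemma not_splits_cubic {p A : ℝ[X]} {d : ℝ} (hp0 : p ≠ 0)
    (h : ∀ x, p.eval x = A.eval x * (17 * (x - d) ^ 3 - 17 * (x - d) ^ 2 + 87 * (x - d) + 105)) :
    ¬ p.Splits := by
  intro hp
  set B : ℝ[X] := C 17 * (X - C d) ^ 3 - C 17 * (X - C d) ^ 2 + C 87 * (X - C d) + C 105 with hB
  have hBe : ∀ x, B.eval x = 17 * (x - d) ^ 3 - 17 * (x - d) ^ 2 + 87 * (x - d) + 105 := by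
    intro x; simp [hB]
  have hfac : p = A * B := by
    apply Polynomial.funext
    intro x
    rw [eval_mul, hBe, h]
  have hBs : B.Splits := hp.of_dvd hp0 ⟨A, by rw [hfac, mul_comm]⟩
  have hlc := lc3 hBs (d + 2) (by
    intro r hr
    left
    by_contra hcon
    rw [not_le] at hcon
    rw [hBe] at hr
    have hz : 0 < r - d := by linarith
    nlinarith [mul_pos hz hz, mul_nonneg hz.le (sq_nonneg (2 * (r - d) - 1))])
  rw [hBe, hBe, hBe] at hlc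
  have e1 : 17 * (d + 2 - 1 - d) ^ 3 - 17 * (d + 2 - 1 - d) ^ 2 + 87 * (d + 2 - 1 - d) + 105 =
      192 := by ring
  have e2 : 17 * (d + 2 + 1 - d) ^ 3 - 17 * (d + 2 + 1 - d) ^ 2 + 87 * (d + 2 + 1 - d) + 105 =
      672 := by ring
  have e3 : 17 * (d + 2 - d) ^ 3 - 17 * (d + 2 - d) ^ 2 + 87 * (d + 2 - d) + 105 = 347 := by ring
  rw [e1, e2, e3] at hlc
  norm_num at hlc

lemma pk_ne_zero (L : List ℕ) (hL : ∀ g ∈ L, 2 ≤ g) : pk L ≠ 0 := by
  intro h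
  obtain ⟨w', q, hN⟩ := nice_om L hL
  have h1 := pk_next L hL
  rw [h, eval_zero] at h1
  have h2 : 0 < mo 0 (om L) := mo_pos hN.cont hN.pos 0
  have h3 : (0 : ℝ) < (L.sum + 1).factorial := by exact_mod_cast Nat.factorial_pos _
  have := mul_pos h3 h2
  linarith

theorem E3_not : ¬ (pk [2, 2, 2]).Splits := by
  apply not_splits_quad (A := C (1 / 30) * (X - C 2) * (X - C 4) * (X - C 6)) (d := 0)
    (pk_ne_zero _ (by simp))
  intro x
  rw [E3_eval]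
  simp only [eval_mul, eval_sub, eval_X, eval_C, sub_zero]
  ring

theorem E4_not : ¬ (pk [2, 2, 2, 2]).Splits := by
  apply not_splits_cubic (A := C (1 / 2520) * (X - C 2) * (X - C 4) * (X - C 6) * (X - C 8))
    (d := 0) (pk_ne_zero _ (by simp))
  intro x
  rw [E4_eval]
  simp only [eval_mul, eval_sub, eval_X, eval_C, sub_zero]
  ring

theorem T3_not (L : List ℕ) (hL : ∀ g ∈ L, 2 ≤ g) : ¬ (pk (2 :: 2 :: 3 :: L)).Splits := by
  apply not_splits_quad (A := C (mo 0 (om L) / 60) * descPochhammer ℝ (L.sum + 1) *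
      ((X - C ((L.sum : ℝ) + 1 + 2)) * (X - C ((L.sum : ℝ) + 1 + 4)) *
        (X - C ((L.sum : ℝ) + 1 + 6)))) (d := (L.sum : ℝ) + 1)
    (pk_ne_zero _ (h223L L hL))
  intro x
  rw [T3_eval L hL]
  simp only [eval_mul, eval_sub, eval_X, eval_C]
  unfold ff
  ring

theorem T4_not (L : List ℕ) (hL : ∀ g ∈ L, 2 ≤ g) : ¬ (pk (2 :: 2 :: 2 :: 3 :: L)).Splits := by
  have hL' : ∀ g ∈ 2 :: 2 :: 2 :: 3 :: L, 2 ≤ g := by
    intro g hg
    rcases List.mem_cons.mp hg with rfl | hg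
    · norm_num
    · exact h223L L hL g hg
  apply not_splits_cubic (A := C (mo 0 (om L) / 5040) * descPochhammer ℝ (L.sum + 1) *
      ((X - C ((L.sum : ℝ) + 1 + 2)) * (X - C ((L.sum : ℝ) + 1 + 4)) *
        (X - C ((L.sum : ℝ) + 1 + 6)) * (X - C ((L.sum : ℝ) + 1 + 8)))) (d := (L.sum : ℝ) + 1)
    (pk_ne_zero _ hL')
  intro x
  rw [T4_eval L hL]
  simp only [eval_mul, eval_sub, eval_X, eval_C]
  unfold ff
  ring

end Pool.Agent.H.MP_8cb80e_co
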