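import Mathlib
import Pool.Agent.H.MP_8cb80e_co.Small
import Pool.Agent.H.MP_8cb80e_co.BlockEnd
import Pool.Agent.H.MP_8cb80e_co.ClassD4

set_option autoImplicit false

/-!
# Classification of the peak polynomials with only real roots
-/

namespace Pool.Agent.H.MP_8cb80e_co

open Polynomial

/-- The classification in terms of gaps. -/
theorem classify (L : List ℕ) (hL : ∀ g ∈ L, 2 ≤ g) (hne : L ≠ []) (hs : (pk L).Splits) :
    L = [2] ∨ L = [2, 2] ∨ (∃ L', L = 3 :: L') ∨ (∃ L', L = 2 :: 3 :: L') := by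
  have split4 : ∀ g : ℕ, 2 ≤ g → g = 2 ∨ g = 3 ∨ ∃ n, g = n + 4 := by
    intro g hg
    rcases Nat.lt_or_ge g 4 with h | h
    · omega
    · right; right; exact ⟨g - 4, by omega⟩
  have tl : ∀ (g : ℕ) (M : List ℕ), (∀ x ∈ g :: M, 2 ≤ x) → 2 ≤ g ∧ ∀ x ∈ M, 2 ≤ x :=
    fun g M h => ⟨h g List.mem_cons_self, fun x hx => h x (List.mem_cons_of_mem _ hx)⟩
  obtain ⟨g, L1, rfl⟩ := List.exists_cons_of_ne_nil hne
  obtain ⟨hg, hL1⟩ := tl g L1 hL
  rcases split4 g hg with rfl | rfl | ⟨n, rfl⟩
  · rcases L1 with _ | ⟨g1, L2⟩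
    · left; rfl
    obtain ⟨hg1, hL2⟩ := tl g1 L2 hL1
    rcases split4 g1 hg1 with rfl | rfl | ⟨n, rfl⟩
    · rcases L2 with _ | ⟨g2, L3⟩
      · right; left; rfl
      obtain ⟨hg2, hL3⟩ := tl g2 L3 hL2
      rcases split4 g2 hg2 with rfl | rfl | ⟨n, rfl⟩
      · rcases L3 with _ | ⟨g3, L4⟩
        · exact absurd hs E3_not
        obtain ⟨hg3, hL4⟩ := tl g3 L4 hL3
        rcases split4 g3 hg3 with rfl | rfl | ⟨n, rfl⟩
        · rcases eq_or_ne L4 [] with rfl | h4
          · exact absurd hs E4_not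
          · exact absurd hs (classD L4 hL4 h4)
        · exact absurd hs (T4_not L4 hL4)
        · exact absurd hs (block_four L4 hL4 n)
      · exact absurd hs (T3_not L3 hL3)
      · exact absurd hs (block_three L3 hL3 n)
    · right; right; right; exact ⟨L2, rfl⟩
    · exact absurd hs (block_two L2 hL2 n)
  · right; right; left; exact ⟨L1, rfl⟩
  · exact absurd hs (block_one L1 hL1 n)

/-- All complex roots are integers. -/
def IntRoots (p : ℝ[X]) : Prop := ∀ z : ℂ, aeval z p = 0 → ∃ k : ℤ, z = k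

lemma IntRoots.mul {p q : ℝ[X]} (hp : IntRoots p) (hq : IntRoots q) : IntRoots (p * q) := by
  intro z hz
  rw [map_mul, mul_eq_zero] at hz
  rcases hz with h | h
  · exact hp z h
  · exact hq z h

lemma intRoots_C {a : ℝ} (ha : a ≠ 0) : IntRoots (C a) := by
  intro z hz
  exfalso
  rw [aeval_C] at hz
  exact ha (by simpa using hz)

lemma intRoots_lin (k : ℤ) : IntRoots (X - C (k : ℝ)) := by
  intro z hz
  refine ⟨k, ?_⟩
  rw [map_sub, aeval_X, aeval_C, sub_eq_zero] at hz
  rw [hz]
  simp

lemma intRoots_desc (n : ℕ) : IntRoots (descPochhammer ℝ n) := by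
  induction n with
  | zero =>
    rw [descPochhammer_zero]
    intro z hz
    rw [map_one] at hz
    exact absurd hz one_ne_zero
  | succ n ih =>
    rw [descPochhammer_succ_right]
    have h := intRoots_lin (n : ℤ)
    have e : (X - (n : ℝ[X])) = X - C (((n : ℤ)) : ℝ) := by simp
    rw [e]
    exact ih.mul h

lemma intRoots_two : IntRoots (pk [2]) := by
  have e : pk [2] = X - C (((2 : ℤ)) : ℝ) := by
    apply Polynomial.funext
    intro x
    rw [E1_eval]
    simp
  rw [e]
  exact intRoots_lin 2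

lemma intRoots_two_two : IntRoots (pk [2, 2]) := by
  have e : pk [2, 2] = C (1 / 6) * (X - C (((2 : ℤ)) : ℝ)) * (X - C (((4 : ℤ)) : ℝ)) *
      (X - C (((-3 : ℤ)) : ℝ)) := by
    apply Polynomial.funext
    intro x
    rw [E2_eval]
    simp only [eval_mul, eval_sub, eval_X, eval_C]
    push_cast
    ring
  rw [e]
  exact (((intRoots_C (by norm_num)).mul (intRoots_lin 2)).mul (intRoots_lin 4)).mul
    (intRoots_lin (-3))

lemma intRoots_three (L : List ℕ) (hL : ∀ g ∈ L, 2 ≤ g) : IntRoots (pk (3 :: L)) := by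
  obtain ⟨w', q, hN⟩ := nice_om L hL
  have hm : 0 < mo 0 (om L) := mo_pos hN.cont hN.pos 0
  have e : pk (3 :: L) = C (mo 0 (om L) / 2) * descPochhammer ℝ (L.sum + 1) *
      (X - C ((((L.sum : ℕ) : ℤ) + 3 : ℤ) : ℝ)) := by
    apply Polynomial.funext
    intro x
    rw [T1_eval L hL]
    simp only [eval_mul, eval_sub, eval_X, eval_C, Int.cast_add, Int.cast_natCast, Int.cast_ofNat]
    unfold ff
    ring
  rw [e]
  exact ((intRoots_C (by positivity)).mul (intRoots_desc _)).mul (intRoots_lin _)

lemma intRoots_two_three (L : List ℕ) (hL : ∀ g ∈ L, 2 ≤ g) : IntRoots (pk (2 :: 3 :: L)) := by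
  obtain ⟨w', q, hN⟩ := nice_om L hL
  have hm : 0 < mo 0 (om L) := mo_pos hN.cont hN.pos 0
  have e : pk (2 :: 3 :: L) = C (mo 0 (om L) / 12) * descPochhammer ℝ (L.sum + 1) *
      (X - C ((((L.sum : ℕ) : ℤ) + 3 : ℤ) : ℝ)) * (X - C ((((L.sum : ℕ) : ℤ) + 5 : ℤ) : ℝ)) *
      (X - C ((((L.sum : ℕ) : ℤ) - 2 : ℤ) : ℝ)) := by
    apply Polynomial.funext
    intro x
    rw [T2_eval L hL]
    simp only [eval_mul, eval_sub, eval_X, eval_C, Int.cast_add, Int.cast_sub, Int.cast_natCast,
      Int.cast_ofNat]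
    unfold ff
    ring
  rw [e]
  exact ((((intRoots_C (by positivity)).mul (intRoots_desc _)).mul (intRoots_lin _)).mul
    (intRoots_lin _)).mul (intRoots_lin _)

/-- The rational version of the binomial polynomials. -/
noncomputable def bnQ (j : ℕ) : ℚ[X] := C ((j.factorial : ℚ)⁻¹) * descPochhammer ℚ j

/-- The rational version of the recursion. -/
noncomputable def pkqQ (p : ℚ[X]) (k : ℕ) : ℕ → ℚ[X]
  | 0 => 0
  | 1 => 0
  | (g + 2) => C (p.eval ((k + g + 1 : ℕ) : ℚ)) * bnQ (k + g + 1) - 2 * p - pkqQ p k (g + 1)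

/-- The rational version of the peak polynomials. -/
noncomputable def pkQ : List ℕ → ℚ[X]
  | [] => 1
  | g :: L => pkqQ (pkQ L) L.sum g

lemma bnQ_map (j : ℕ) : (bnQ j).map (algebraMap ℚ ℝ) = bn j := by
  unfold bnQ bn
  rw [Polynomial.map_mul, map_C, descPochhammer_map]
  simp

lemma pkqQ_map (p : ℚ[X]) (k : ℕ) : ∀ g, (pkqQ p k g).map (algebraMap ℚ ℝ) =
    pkq (p.map (algebraMap ℚ ℝ)) k g
  | 0 => by simp [pkqQ, pkq]
  | 1 => by simp [pkqQ, pkq]
  | (g + 2) => by
    have ih := pkqQ_map p k (g + 1)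
    simp only [pkqQ, pkq, Polynomial.map_sub, Polynomial.map_mul, map_C, bnQ_map, ih]
    congr 2
    · congr 2
      have := Polynomial.eval_natCast_map (algebraMap ℚ ℝ) p (k + g + 1)
      rw [this]
    · simp

lemma pkQ_map (L : List ℕ) : (pkQ L).map (algebraMap ℚ ℝ) = pk L := by
  induction L with
  | nil => simp [pkQ, pk]
  | cons g L ih =>
    simp only [pkQ, pk]
    rw [pkqQ_map, ih]

/-- Sets with the right gaps are coded by lists. -/
lemma exists_list (S : Finset ℕ) : (∀ i ∈ S, 2 ≤ i) → (∀ i ∈ S, i + 1 ∉ S) →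
    ∃ L : List ℕ, (∀ g ∈ L, 2 ≤ g) ∧ st L = S := by
  induction S using Finset.strongInduction with
  | H S ih =>
    intro h2 hs
    rcases S.eq_empty_or_nonempty with rfl | hne
    · exact ⟨[], by simp, rfl⟩
    · set m := S.max' hne with hm
      have hmS : m ∈ S := S.max'_mem hne
      obtain ⟨L, hL, hst⟩ := ih (S.erase m) (Finset.erase_ssubset hmS)
        (fun i hi => h2 i (Finset.mem_of_mem_erase hi))
        (fun i hi h => hs i (Finset.mem_of_mem_erase hi) (Finset.mem_of_mem_erase h))
      have hgap : L.sum + 2 ≤ m := by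
        rcases eq_or_ne L [] with rfl | hLne
        · simpa using h2 m hmS
        · have h3 : L.sum ∈ S.erase m := by rw [← hst]; exact mem_st_sum hLne
          have h4 := Finset.mem_of_mem_erase h3
          have h5 : L.sum ≤ m := S.le_max' _ h4
          have h6 : L.sum ≠ m := Finset.ne_of_mem_erase h3
          have h7 : L.sum + 1 ≠ m := by
            intro h
            exact hs _ h4 (h ▸ hmS)
          omega
      refine ⟨(m - L.sum) :: L, ?_, ?_⟩
      · intro g hg
        rcases List.mem_cons.mp hg with rfl | hg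
        · omega
        · exact hL g hg
      · simp only [st]
        have e : L.sum + (m - L.sum) = m := by omega
        rw [e, hst]
        exact Finset.insert_erase hmS

lemma admissible_list {S : Finset ℕ} (h : Admissible S) :
    ∃ L : List ℕ, (∀ g ∈ L, 2 ≤ g) ∧ st L = S := by
  obtain ⟨n, hn⟩ := h
  unfold peakCount at hn
  obtain ⟨π, hπ⟩ := Finset.card_ne_zero.mp hn
  rw [Finset.mem_filter] at hπ
  have hS := hπ.2
  apply exists_list
  · intro i hi
    rw [← hS] at hi
    exact (mem_peakSet.mp hi).two_le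
  · intro i hi h1
    rw [← hS] at hi h1
    exact (mem_peakSet.mp hi).not_succ (mem_peakSet.mp h1)

lemma st_sup_le (L : List ℕ) : (st L).sup id ≤ L.sum :=
  Finset.sup_le fun _ hi => st_le hi

lemma st_sup_ge {L : List ℕ} (hne : L ≠ []) : L.sum ≤ (st L).sup id :=
  Finset.le_sup (f := id) (mem_st_sum hne)

lemma isPeak_pkQ (L : List ℕ) (hL : ∀ g ∈ L, 2 ≤ g) (hne : L ≠ []) :
    IsPeakPolynomial (st L) (pkQ L) := by
  intro n hn
  have h1 : L.sum ≤ n := (st_sup_ge hne).trans hn
  have h2 : 1 ≤ n := by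
    have := sum_ge hL
    have := List.length_pos_of_ne_nil hne
    omega
  have h3 := peakCount_eq L hL n h1 h2
  rw [st_card hL]
  have h4 : (pk L).eval (n : ℝ) = (((pkQ L).eval (n : ℚ) : ℚ) : ℝ) := by
    rw [← pkQ_map, Polynomial.eval_natCast_map]
    rfl
  rw [h4] at h3
  exact_mod_cast h3

lemma peak_unique (L : List ℕ) (hL : ∀ g ∈ L, 2 ≤ g) {p : ℚ[X]}
    (hp : IsPeakPolynomial (st L) p) : p.map (algebraMap ℚ ℝ) = pk L := by
  apply eq_of_eval_nat _ _ (L.sum + 1)
  intro n hn
  have h1 := peakCount_eq L hL n (by omega) (by omega)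
  have h2 := hp n ((st_sup_le L).trans (by omega))
  rw [st_card hL] at h2
  have h3 : ((peakCount (st L) n : ℚ) : ℝ) = ((p.eval (n : ℚ) * 2 ^ (n - L.length - 1) : ℚ) : ℝ) := by
    rw [h2]
  push_cast at h3
  rw [h1] at h3
  have h4 : (2 : ℝ) ^ (n - L.length - 1) ≠ 0 := by positivity
  have h5 := mul_right_cancel₀ h4 h3
  rw [Polynomial.eval_natCast_map, h5]
  rfl

lemma family_two : InFamily (st [2]) := by
  left; decide

lemma family_two_two : InFamily (st [2, 2]) := by
  right; left; decide

lemma family_three (L : List ℕ) : InFamily (st (3 :: L)) := by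
  rcases eq_or_ne L [] with rfl | hne
  · right; right; left; decide
  · right; right; right; right; left
    refine ⟨L.sum, ?_, ?_, ?_⟩
    · simp only [st]
      exact Finset.mem_insert_of_mem (mem_st_sum hne)
    · simp only [st]
      exact Finset.mem_insert_self _ _
    · intro i hi
      simp only [st, Finset.mem_insert] at hi
      rcases hi with h | h
      · right; exact h
      · left; exact st_le h

lemma family_two_three (L : List ℕ) : InFamily (st (2 :: 3 :: L)) := by
  rcases eq_or_ne L [] with rfl | hne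
  · right; right; right; left; decide
  · right; right; right; right; right
    have e : 3 + L.sum + 2 = L.sum + 5 := by ring
    refine ⟨L.sum, ?_, ?_, ?_, ?_⟩
    · simp only [st]
      exact Finset.mem_insert_of_mem (Finset.mem_insert_of_mem (mem_st_sum hne))
    · simp only [st]
      exact Finset.mem_insert_of_mem (Finset.mem_insert_self _ _)
    · simp only [st, List.sum_cons, e]
      exact Finset.mem_insert_self _ _
    · intro i hi
      simp only [st, List.sum_cons, e, Finset.mem_insert] at hi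
      rcases hi with h | h | h
      · right; right; exact h
      · right; left; exact h
      · left; exact st_le h

/-- The main theorem: existence and uniqueness of the peak polynomial, and the classification of
the sets for which it has only real roots. -/
theorem main (S : Finset ℕ) (hS : S.Nonempty) (hadm : Admissible S) :
    ∃ p : ℚ[X], IsPeakPolynomial S p ∧ (∀ p' : ℚ[X], IsPeakPolynomial S p' → p' = p) ∧
      ((∀ z : ℂ, aeval z p = 0 → z.im = 0) →
        (∀ z : ℂ, aeval z p = 0 → ∃ k : ℤ, z = k) ∧ InFamily S) := by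
  obtain ⟨L, hL, rfl⟩ := admissible_list hadm
  have hne : L ≠ [] := by
    rintro rfl
    exact Finset.not_nonempty_empty hS
  refine ⟨pkQ L, isPeak_pkQ L hL hne, ?_, ?_⟩
  · intro p' hp'
    have h1 := peak_unique L hL hp'
    rw [← pkQ_map L] at h1
    exact Polynomial.map_injective (algebraMap ℚ ℝ) (algebraMap ℚ ℝ).injective h1
  · intro hreal
    have hae : ∀ z : ℂ, aeval z (pkQ L) = aeval z (pk L) := by
      intro z
      rw [← pkQ_map L, aeval_map_algebraMap]
    have hs : (pk L).Splits := splits_of_allReal (fun z hz => hreal z (by rw [hae]; exact hz))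
    have key : IntRoots (pk L) ∧ InFamily (st L) := by
      rcases classify L hL hne hs with rfl | rfl | ⟨L', rfl⟩ | ⟨L', rfl⟩
      · exact ⟨intRoots_two, family_two⟩
      · exact ⟨intRoots_two_two, family_two_two⟩
      · exact ⟨intRoots_three L' (fun x hx => hL x (List.mem_cons_of_mem _ hx)), family_three L'⟩
      · exact ⟨intRoots_two_three L'
          (fun x hx => hL x (List.mem_cons_of_mem _ (List.mem_cons_of_mem _ hx))),
          family_two_three L'⟩
    exact ⟨fun z hz => key.1 z (by rw [← hae]; exact hz), key.2⟩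

end Pool.Agent.H.MP_8cb80e_co
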